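import Pool.Agent.Work.MP_9390ab_lc.TT.Stmts

/-!
# MP_9390ab_lc, block TT, item AL: add a leaf to a weighted tree
-/


set_option autoImplicit false

namespace Pool.Agent.PCG.TT

open SimpleGraph Pool.Agent.PCG

namespace BAL

/-- adjacency with a new leaf -/
def AdjE {W : Type} (T : SimpleGraph W) (c : W) : Option W → Option W → Prop
  | some u, some v => T.Adj u v
  | none, some v => v = c
  | some u, none => u = c
  | none, none => False

/-- add a leaf -/
def ext {W : Type} (T : SimpleGraph W) (c : W) : SimpleGraph (Option W) where
  Adj := AdjE T c
  symm := ⟨by
    intro x y h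
    cases x <;> cases y
    · exact h
    · exact h
    · exact h
    · exact SimpleGraph.Adj.symm (G := T) h⟩
  loopless := ⟨by
    intro x h
    cases x
    · exact h
    · exact T.loopless.irrefl _ h⟩

theorem adj_ss {W : Type} (T : SimpleGraph W) (c u v : W) :
    (ext T c).Adj (some u) (some v) ↔ T.Adj u v := Iff.rfl

theorem adj_ns {W : Type} (T : SimpleGraph W) (c v : W) :
    (ext T c).Adj none (some v) ↔ v = c := Iff.rfl

theorem adj_sn {W : Type} (T : SimpleGraph W) (c v : W) :
    (ext T c).Adj (some v) none ↔ v = c := Iff.rfl

/-- inclusion -/
def inc {W : Type} (T : SimpleGraph W) (c : W) : T →g ext T c where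
  toFun := some
  map_rel' := fun {a b} h => (adj_ss T c a b).2 h

theorem inc_inj {W : Type} (T : SimpleGraph W) (c : W) : Function.Injective (inc T c) :=
  Option.some_injective W

theorem ext_tree {W : Type} [Finite W] (T : SimpleGraph W) (hT : T.IsTree) (c : W) :
    (ext T c).IsTree := by
  classical
  rw [isTree_iff_connected_and_card] at hT ⊢
  obtain ⟨h1, h2⟩ := hT
  constructor
  · have : Nonempty (Option W) := ⟨none⟩
    refine ⟨?_⟩
    have key : ∀ x : Option W, (ext T c).Reachable x (some c) := by
      intro x
      cases x with
      | none => exact ((adj_ns T c c).2 rfl).reachable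
      | some v => exact (h1.preconnected v c).map (inc T c)
    intro x y
    exact (key x).trans (key y).symm
  · have e1 : (ext T c).edgeSet = insert s(none, some c) (Sym2.map some '' T.edgeSet) := by
      ext e
      induction e using Sym2.ind with
      | _ a b =>
        rw [mem_edgeSet]
        cases a with
        | none =>
          cases b with
          | none =>
            simp only [Set.mem_insert_iff, Set.mem_image]
            constructor
            · intro h; exact absurd rfl h.ne
            · rintro (h | ⟨e, -, h⟩)
              · simp at h
              · induction e using Sym2.ind with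
                | _ p q => simp at h
          | some v =>
            rw [adj_ns]
            simp only [Set.mem_insert_iff, Set.mem_image]
            constructor
            · rintro rfl; exact Or.inl rfl
            · rintro (h | ⟨e, -, h⟩)
              · simpa using h
              · induction e using Sym2.ind with
                | _ p q => simp at h
        | some u =>
          cases b with
          | none =>
            rw [adj_sn]
            simp only [Set.mem_insert_iff, Set.mem_image]
            constructor
            · rintro rfl; exact Or.inl Sym2.eq_swap
            · rintro (h | ⟨e, -, h⟩)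
              · simpa using h
              · induction e using Sym2.ind with
                | _ p q => simp at h
          | some v =>
            rw [adj_ss]
            simp only [Set.mem_insert_iff, Set.mem_image]
            constructor
            · intro h; exact Or.inr ⟨s(u, v), h, rfl⟩
            · rintro (h | ⟨e, he, h⟩)
              · simp at h
              · have : e = s(u, v) :=
                  Sym2.map.injective (Option.some_injective W) (by rw [h]; rfl)
                rw [this] at he
                exact he
    rw [Finite.card_option, ← h2, Nat.card_coe_set_eq, Nat.card_coe_set_eq, e1,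
      Set.ncard_insert_of_notMem, Set.ncard_image_of_injective]
    · exact Sym2.map.injective (Option.some_injective W)
    · rintro ⟨e, -, h⟩
      induction e using Sym2.ind with
      | _ p q => simp at h

/-- weights -/
noncomputable def wt {W : Type} (w : Sym2 W → ℝ) (c : W) (a : ℝ) (e : Sym2 (Option W)) : ℝ := by
  classical
  exact if none ∈ e then a else w (e.map (fun o => o.getD c))

theorem wt_n {W : Type} (w : Sym2 W → ℝ) (c : W) (a : ℝ) (x : Option W) :
    wt w c a s(none, x) = a := by
  unfold wt
  rw [if_pos (by simp)]

theorem wt_s {W : Type} (w : Sym2 W → ℝ) (c : W) (a : ℝ) (e : Sym2 W) :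
    wt w c a (e.map some) = w e := by
  induction e using Sym2.ind with
  | _ u v =>
    unfold wt
    rw [if_neg (by simp)]
    rfl

theorem nb_none {W : Type} (T : SimpleGraph W) (c : W) :
    (ext T c).neighborSet none = {some c} := by
  ext x
  rw [mem_neighborSet]
  cases x with
  | none => simp [ext, AdjE]
  | some v => rw [adj_ns]; simp

theorem nb_some {W : Type} (T : SimpleGraph W) (c x : W) (hx : x ≠ c) :
    (ext T c).neighborSet (some x) = some '' T.neighborSet x := by
  ext y
  rw [mem_neighborSet]
  cases y with
  | none => rw [adj_sn]; simp [hx]
  | some v => rw [adj_ss]; simp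

end BAL

open BAL in
theorem pr_AL : StAL := by
  intro W _ T hT w c a hw ha
  refine ⟨ext T c, ext_tree T hT c, wt w c a, ?_, ?_, ?_, ?_, ?_, ?_, ?_⟩
  · intro e he
    induction e using Sym2.ind with
    | _ x y =>
      rw [mem_edgeSet] at he
      cases x with
      | none => rw [wt_n]; exact ha
      | some u =>
        cases y with
        | none => rw [Sym2.eq_swap, wt_n]; exact ha
        | some v =>
          have := wt_s w c a s(u, v)
          rw [Sym2.map_mk] at this
          rw [this]
          exact hw _ he
  · intro x y
    obtain ⟨p, hp, -⟩ := hT.existsUnique_path x y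
    rw [treeDist_eq hT w p hp]
    have hp' : (p.map (inc T c)).IsPath := hp.map (inc_inj T c)
    have h2 : treeDist (ext_tree T hT c) (wt w c a) (some x) (some y) =
        ((p.map (inc T c)).edges.map (wt w c a)).sum :=
      treeDist_eq (ext_tree T hT c) (wt w c a) (p.map (inc T c)) hp'
    rw [h2, Walk.edges_map, List.map_map]
    congr 1
    apply List.map_congr_left
    intro e _
    exact wt_s w c a e
  · intro x
    obtain ⟨p, hp, -⟩ := hT.existsUnique_path c x
    rw [treeDist_eq hT w p hp]
    have hp' : (p.map (inc T c)).IsPath := hp.map (inc_inj T c)
    have hadj : (ext T c).Adj none (inc T c c) := (adj_ns T c c).2 rfl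
    have hp2 : (Walk.cons hadj (p.map (inc T c))).IsPath := by
      rw [Walk.cons_isPath_iff]
      refine ⟨hp', ?_⟩
      rw [Walk.support_map]
      intro h
      rw [List.mem_map] at h
      obtain ⟨z, -, hz⟩ := h
      exact absurd hz (by simp [inc])
    have h2 : treeDist (ext_tree T hT c) (wt w c a) none (some x) =
        ((Walk.cons hadj (p.map (inc T c))).edges.map (wt w c a)).sum :=
      treeDist_eq (ext_tree T hT c) (wt w c a) _ hp2
    rw [h2, Walk.edges_cons, List.map_cons, List.sum_cons, wt_n, Walk.edges_map, List.map_map]
    congr 2
    apply List.map_congr_left
    intro e _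
    exact wt_s w c a e
  · unfold Leaf
    rw [nb_none, Set.ncard_singleton]
  · intro x hx
    unfold Leaf
    rw [nb_some T c x hx, Set.ncard_image_of_injective _ (Option.some_injective W)]
  · intro y hy hl
    unfold Leaf at hl
    have hfin : ((ext T c).neighborSet (some c)).Finite := Set.toFinite _
    have h2 : ({none, some y} : Set (Option W)) ⊆ (ext T c).neighborSet (some c) := by
      intro z hz
      rcases hz with rfl | hz
      · exact (adj_sn T c c).2 rfl
      · rw [Set.mem_singleton_iff.1 hz]
        exact (adj_ss T c c y).2 hy
    have h3 := Set.ncard_le_ncard h2 hfin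
    rw [Set.ncard_pair (by simp)] at h3
    omega
  · exact (adj_ns T c c).2 rfl

end Pool.Agent.PCG.TT
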