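import Pool.Agent.Work.MP_9390ab_lc.TT.Stmts

/-!
[9390ab TT EX] Adding or removing a twin.
-/

set_option autoImplicit false

namespace Pool.Agent.PCG.TT

open SimpleGraph Pool.Agent.PCG

namespace IEX

/-- Relabelling of the leaves. -/
def relabel {V V' : Type} (M : WTree V) (e : V' ≃ V) : WTree V' where
  W := M.W
  finite := M.finite
  T := M.T
  isTree := M.isTree
  wt := M.wt
  wt_pos := M.wt_pos
  leaf := M.leaf ∘ e
  leaf_injective := M.leaf_injective.comp e.injective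
  mem_range_leaf := fun x => by
    rw [← M.mem_range_leaf, EquivLike.range_comp]
  dmin := M.dmin
  dmax := M.dmax
  dmin_nonneg := M.dmin_nonneg
  dmin_le_dmax := M.dmin_le_dmax

theorem relabel_adj {V V' : Type} (M : WTree V) (e : V' ≃ V) (u v : V') :
    (relabel M e).graph.Adj u v ↔ M.graph.Adj (e u) (e v) :=
  and_congr (not_congr e.injective.eq_iff.symm) Iff.rfl

/-- `V` is `{u | u ≠ v}` with one more point. -/
noncomputable def eqv {V : Type} (v : V) : V ≃ Option ↥{u : V | u ≠ v} := by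
  classical
  exact
  { toFun := fun u => if h : u ≠ v then some ⟨u, h⟩ else none
    invFun := fun o => o.elim v (fun u => u.1)
    left_inv := fun u => by
      by_cases h : u = v
      · simp [h]
      · simp [h]
    right_inv := fun o => by
      cases o with
      | none => simp
      | some u =>
        have hu : (u : V) ≠ v := u.2
        simp [hu] }

theorem eqv_self {V : Type} (v : V) : eqv v v = none := by
  simp [eqv]

theorem eqv_ne {V : Type} (v u : V) (h : u ≠ v) : eqv v u = some ⟨u, h⟩ := by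
  simp [eqv, h]

theorem isPCG_of {V : Type} (G : SimpleGraph V) (v : V)
    (M' : WTree (Option ↥{u : V | u ≠ v}))
    (h1 : ∀ u u', M'.graph.Adj (some u) (some u') ↔ (G.induce {u | u ≠ v}).Adj u u')
    (h2 : ∀ u, M'.graph.Adj none (some u) ↔ G.Adj v u.1) : IsPCG G := by
  refine ⟨relabel M' (eqv v), ?_⟩
  ext a b
  rw [relabel_adj]
  by_cases ha : a = v
  · by_cases hb : b = v
    · rw [ha, hb, eqv_self]
      exact ⟨fun h => absurd h (M'.graph.irrefl), fun h => absurd h (G.irrefl)⟩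
    · rw [ha, eqv_self, eqv_ne v b hb]
      exact h2 ⟨b, hb⟩
  · by_cases hb : b = v
    · rw [hb, eqv_self, eqv_ne v a ha, SimpleGraph.adj_comm, h2, SimpleGraph.adj_comm]
    · rw [eqv_ne v a ha, eqv_ne v b hb]
      exact h1 ⟨a, ha⟩ ⟨b, hb⟩

end IEX

theorem pr_EX (h1 : StTR) (h2 : StFT) (h3 : StHD) : StEX := by
  intro V _ G v hne htw
  constructor
  · rintro ⟨M, hM⟩
    obtain ⟨u0, hu0⟩ := hne
    obtain ⟨M', hM'⟩ := h3 V ↥{u : V | u ≠ v} M Subtype.val Subtype.val_injective ⟨⟨u0, hu0⟩⟩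
    refine ⟨M', ?_⟩
    ext a b
    rw [hM', hM]
    rfl
  · rintro ⟨M, hM⟩
    rcases htw with ⟨u0, -, hu0, ht, hna⟩ | ⟨v1, -, v2, -, v3, -, h12, h13, h23, hv1, hv2, hv3, t1,
      t2, t3, a1, a2, a3⟩
    · obtain ⟨M', m1, m2⟩ := h2 ↥{u : V | u ≠ v} M ⟨u0, hu0⟩
      refine IEX.isPCG_of G v M' (fun u u' => by rw [m1, hM]) (fun u => ?_)
      rw [m2, hM]
      change G.Adj u0 u.1 ↔ G.Adj v u.1
      by_cases h : u.1 = u0
      · rw [h]
        exact ⟨fun h => absurd h G.irrefl, fun h => absurd h.symm hna⟩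
      · exact ht u.1 h u.2
    · have e12 : G.Adj v1 v2 := (t1 v2 h12.symm hv2).mpr a2.symm
      have e13 : G.Adj v1 v3 := (t1 v3 h13.symm hv3).mpr a3.symm
      have e23 : G.Adj v2 v3 := (t2 v3 h23.symm hv3).mpr a3.symm
      have hne' : ∀ (x y : V) (hx : x ≠ v) (hy : y ≠ v), x ≠ y →
          (⟨x, hx⟩ : ↥{u : V | u ≠ v}) ≠ ⟨y, hy⟩ := by
        intro x y hx hy hxy h
        exact hxy (congrArg Subtype.val h)
      have tw : ∀ (x y : V) (hx : x ≠ v) (hy : y ≠ v), Tw G x v → Tw G y v →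
          Tw M.graph (⟨x, hx⟩ : ↥{u : V | u ≠ v}) ⟨y, hy⟩ := by
        intro x y hx hy tx ty w hwx hwy
        rw [hM]
        change G.Adj x w.1 ↔ G.Adj y w.1
        have k1 : w.1 ≠ x := fun h => hwx (Subtype.ext h)
        have k2 : w.1 ≠ y := fun h => hwy (Subtype.ext h)
        rw [tx w.1 k1 w.2, ty w.1 k2 w.2]
      obtain ⟨M', m1, m2⟩ := h1 ↥{u : V | u ≠ v} M ⟨v1, hv1⟩ ⟨v2, hv2⟩ ⟨v3, hv3⟩
        (hne' _ _ _ _ h12) (hne' _ _ _ _ h13) (hne' _ _ _ _ h23)
        (by rw [hM]; exact e12) (by rw [hM]; exact e13) (by rw [hM]; exact e23)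
        (tw _ _ _ _ t1 t2) (tw _ _ _ _ t1 t3) (tw _ _ _ _ t2 t3)
      refine IEX.isPCG_of G v M' (fun u u' => by rw [m1, hM]) (fun u => ?_)
      rw [m2, hM]
      change (u = ⟨v1, hv1⟩ ∨ G.Adj v1 u.1) ↔ G.Adj v u.1
      by_cases h : u.1 = v1
      · rw [h]
        exact ⟨fun _ => a1.symm, fun _ => Or.inl (Subtype.ext h)⟩
      · constructor
        · rintro (h' | h')
          · exact absurd (congrArg Subtype.val h') h
          · exact (t1 u.1 h u.2).mp h'
        · intro h'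
          exact Or.inr ((t1 u.1 h u.2).mpr h')

end Pool.Agent.PCG.TT
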