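import Pool.Agent.Work.MP_9390ab_lc.TT.Stmts2
import Pool.Agent.Work.MP_9390ab_lc.TT.I_EX

/-!
[9390ab TT EY] Adding or removing a twin, with two true twins.
-/

set_option autoImplicit false

namespace Pool.Agent.PCG.TT

open SimpleGraph Pool.Agent.PCG

theorem pr_EY (h1 : StTS) (h2 : StFT) (h3 : StHD) : StEY := by
  intro V _ G v hne htw
  constructor
  · rintro ⟨M, hM⟩
    obtain ⟨u0, hu0⟩ := hne
    obtain ⟨M', hM'⟩ := h3 V ↥{u : V | u ≠ v} M Subtype.val Subtype.val_injective ⟨⟨u0, hu0⟩⟩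
    refine ⟨M', ?_⟩
    ext a b
    rw [hM', hM]
    rfl
  · rintro ⟨M, hM⟩
    rcases htw with ⟨u0, -, hu0, ht, hna⟩ | ⟨v1, -, v2, -, h12, hv1, hv2, t1, t2, a1, a2⟩
    · obtain ⟨M', m1, m2⟩ := h2 ↥{u : V | u ≠ v} M ⟨u0, hu0⟩
      refine IEX.isPCG_of G v M' (fun u u' => by rw [m1, hM]) (fun u => ?_)
      rw [m2, hM]
      change G.Adj u0 u.1 ↔ G.Adj v u.1
      by_cases h : u.1 = u0
      · rw [h]
        exact ⟨fun h => absurd h G.irrefl, fun h => absurd h.symm hna⟩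
      · exact ht u.1 h u.2
    · have e12 : G.Adj v1 v2 := (t1 v2 h12.symm hv2).mpr a2.symm
      have hne' : ∀ (x y : V) (hx : x ≠ v) (hy : y ≠ v), x ≠ y →
          (⟨x, hx⟩ : ↥{u : V | u ≠ v}) ≠ ⟨y, hy⟩ := by
        intro x y hx hy hxy h
        exact hxy (congrArg Subtype.val h)
      have tw : ∀ (x y : V) (hx : x ≠ v) (hy : y ≠ v), Tw G x v → Tw G y v →
          Tw M.graph (⟨x, hx⟩ : ↥{u : V | u ≠ v}) ⟨y, hy⟩ := by
        intro x y hx hy tx ty w hwx hwy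
        rw [hM]
        change G.Adj x w.1 ↔ G.Adj y w.1
        have k1 : w.1 ≠ x := fun h => hwx (Subtype.ext h)
        have k2 : w.1 ≠ y := fun h => hwy (Subtype.ext h)
        rw [tx w.1 k1 w.2, ty w.1 k2 w.2]
      obtain ⟨M', m1, m2⟩ := h1 ↥{u : V | u ≠ v} M ⟨v1, hv1⟩ ⟨v2, hv2⟩
        (hne' _ _ _ _ h12) (by rw [hM]; exact e12) (tw _ _ _ _ t1 t2)
      refine IEX.isPCG_of G v M' (fun u u' => by rw [m1, hM]) (fun u => ?_)
      rw [m2, hM]
      change (u = ⟨v1, hv1⟩ ∨ G.Adj v1 u.1) ↔ G.Adj v u.1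
      by_cases h : u.1 = v1
      · rw [h]
        exact ⟨fun _ => a1.symm, fun _ => Or.inl (Subtype.ext h)⟩
      · constructor
        · rintro (h' | h')
          · exact absurd (congrArg Subtype.val h') h
          · exact (t1 u.1 h u.2).mp h'
        · intro h'
          exact Or.inr ((t1 u.1 h u.2).mpr h')

end Pool.Agent.PCG.TT
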