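import Pool.Agent.Work.MP_9390ab_lc.TT.Stmts

/-!
# MP_9390ab_lc, block TT, item FT: a false twin
-/

set_option autoImplicit false

namespace Pool.Agent.PCG.TT

open SimpleGraph Pool.Agent.PCG

namespace IFT

open Filter Topology

/-- A small ε. -/
theorem exists_eps {V : Type} [Finite V] (d : V → V → ℝ) (a b : ℝ) (hd : ∀ u u', u ≠ u' → 0 < d u u') :
    ∃ ε : ℝ, 0 < ε ∧ ∀ u u', u ≠ u' → 3 * ε < d u u' ∧ (d u u' < a → d u u' + ε < a) ∧
      (b < d u u' → b + ε < d u u') := by
  have ev : ∀ δ : ℝ, 0 < δ → ∀ᶠ ε in 𝓝[>] (0:ℝ), ε < δ := by
    intro δ h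
    filter_upwards [Ioo_mem_nhdsGT h] with ε hε
    exact hε.2
  have h0 : ∀ᶠ ε in 𝓝[>] (0:ℝ), 0 < ε := by
    filter_upwards [self_mem_nhdsWithin] with ε hε
    exact hε
  have h1 : ∀ᶠ ε in 𝓝[>] (0:ℝ), ∀ u u' : V, u ≠ u' → 3 * ε < d u u' ∧ (d u u' < a → d u u' + ε < a) ∧
      (b < d u u' → b + ε < d u u') := by
    rw [eventually_all]
    intro u
    rw [eventually_all]
    intro u'
    by_cases huu : u = u'
    · exact Eventually.of_forall fun ε h => absurd huu h
    have hpos := hd u u' huu
    have e1 := ev (d u u' / 3) (by linarith)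
    have e2 : ∀ᶠ ε in 𝓝[>] (0:ℝ), d u u' < a → d u u' + ε < a := by
      by_cases h : d u u' < a
      · filter_upwards [ev (a - d u u') (by linarith)] with ε hε _
        linarith
      · exact Eventually.of_forall fun ε h' => absurd h' h
    have e3 : ∀ᶠ ε in 𝓝[>] (0:ℝ), b < d u u' → b + ε < d u u' := by
      by_cases h : b < d u u'
      · filter_upwards [ev (d u u' - b) (by linarith)] with ε hε _
        linarith
      · exact Eventually.of_forall fun ε h' => absurd h' h
    filter_upwards [e1, e2, e3] with ε g1 g2 g3 _
    exact ⟨by linarith, g2, g3⟩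
  obtain ⟨ε, hε⟩ := (h0.and h1).exists
  exact ⟨ε, hε.1, hε.2⟩

end IFT

theorem pr_FT (hAL : StAL) (hTD : StTD) : StFT := by
  classical
  intro V M v
  have := M.finite
  have hV : Finite V := Finite.of_injective M.leaf M.leaf_injective
  have hd0 : ∀ u u', u ≠ u' → 0 < M.dist u u' := fun u u' h =>
    (hTD M.W M.T M.isTree M.wt M.wt_pos (M.leaf u) (M.leaf u')).2 (fun h' => h (M.leaf_injective h'))
  obtain ⟨ε, hε, hs⟩ := IFT.exists_eps M.dist M.dmin M.dmax hd0
  obtain ⟨T1, hT1, w1, a1, a2, a3, a4, a5, a6, a7⟩ :=
    hAL M.W M.finite M.T M.isTree M.wt (M.leaf v) ε M.wt_pos hε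
  obtain ⟨T2, hT2, w2, b1, b2, b3, b4, b5, b6, b7⟩ :=
    hAL (Option M.W) inferInstance T1 hT1 w1 (some (M.leaf v)) ε a1 hε
  let lf : Option V → Option (Option M.W) := fun o =>
    match o with
    | none => none
    | some u => if u = v then some none else some (some (M.leaf u))
  have lf0 : lf none = none := rfl
  have lfv : lf (some v) = some none := if_pos rfl
  have lfu : ∀ u, u ≠ v → lf (some u) = some (some (M.leaf u)) := fun u h => if_neg h
  have lfinj : Function.Injective lf := by
    intro o o' h
    rcases o with _ | u
    · rcases o' with _ | u'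
      · rfl
      · exfalso
        by_cases h1 : u' = v
        · subst h1
          rw [lf0, lfv] at h
          exact absurd h (by simp)
        · rw [lf0, lfu u' h1] at h
          exact absurd h (by simp)
    · rcases o' with _ | u'
      · exfalso
        by_cases h1 : u = v
        · subst h1
          rw [lf0, lfv] at h
          exact absurd h (by simp)
        · rw [lf0, lfu u h1] at h
          exact absurd h (by simp)
      · by_cases h1 : u = v
        · by_cases h2 : u' = v
          · rw [h1, h2]
          · exfalso
            rw [h1, lfv, lfu u' h2] at h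
            exact absurd h (by simp)
        · by_cases h2 : u' = v
          · exfalso
            rw [h2, lfv, lfu u h1] at h
            exact absurd h (by simp)
          · rw [lfu u h1, lfu u' h2] at h
            rw [M.leaf_injective (Option.some.inj (Option.some.inj h))]
  let M' : WTree (Option V) :=
    { W := Option (Option M.W)
      finite := inferInstance
      T := T2
      isTree := hT2
      wt := w2
      wt_pos := b1
      leaf := lf
      leaf_injective := lfinj
      mem_range_leaf := by
        intro o
        change o ∈ Set.range lf ↔ Leaf T2 o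
        rcases o with _ | o
        · exact ⟨fun _ => b4, fun _ => ⟨none, rfl⟩⟩
        · rcases o with _ | x
          · exact ⟨fun _ => (b5 none (by simp)).2 a4, fun _ => ⟨some v, lfv⟩⟩
          · by_cases hx : x = M.leaf v
            · subst hx
              constructor
              · rintro ⟨o, ho⟩
                exfalso
                rcases o with _ | u
                · rw [lf0] at ho
                  exact absurd ho (by simp)
                · by_cases h1 : u = v
                  · subst h1
                    rw [lfv] at ho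
                    exact absurd ho (by simp)
                  · rw [lfu u h1] at ho
                    exact h1 (M.leaf_injective (Option.some.inj (Option.some.inj ho)))
              · intro h
                exact absurd h (b6 none a7.symm)
            · have h1 : Leaf T2 (some (some x)) ↔ Leaf M.T x :=
                (b5 (some x) (fun h => hx (Option.some.inj h))).trans (a5 x hx)
              rw [h1]
              change _ ↔ (M.T.neighborSet x).ncard ≤ 1
              rw [← M.mem_range_leaf]
              constructor
              · rintro ⟨o, ho⟩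
                rcases o with _ | u
                · rw [lf0] at ho
                  exact absurd ho (by simp)
                · by_cases h2 : u = v
                  · subst h2
                    rw [lfv] at ho
                    exact absurd ho (by simp)
                  · rw [lfu u h2] at ho
                    exact ⟨u, Option.some.inj (Option.some.inj ho)⟩
              · rintro ⟨u, hu⟩
                refine ⟨some u, ?_⟩
                have h2 : u ≠ v := by
                  rintro rfl
                  exact hx hu.symm
                rw [lfu u h2, hu]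
      dmin := max M.dmin (3 * ε)
      dmax := max (M.dmax + ε) (3 * ε)
      dmin_nonneg := le_max_of_le_left M.dmin_nonneg
      dmin_le_dmax := max_le_max (by linarith [M.dmin_le_dmax]) le_rfl }
  have dd : ∀ o o', M'.dist o o' = treeDist hT2 w2 (lf o) (lf o') := fun o o' => rfl
  -- distances
  have d1 : ∀ u u', u ≠ v → u' ≠ v → M'.dist (some u) (some u') = M.dist u u' := by
    intro u u' h h'
    rw [dd, lfu u h, lfu u' h', b2, a2]
    rfl
  have d2 : ∀ u, u ≠ v → M'.dist (some v) (some u) = ε + M.dist v u := by
    intro u h
    rw [dd, lfv, lfu u h, b2, a3]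
    rfl
  have d3 : ∀ u, u ≠ v → M'.dist none (some u) = ε + M.dist v u := by
    intro u h
    rw [dd, lf0, lfu u h, b3, a2]
    rfl
  have d4 : M'.dist none (some v) = 2 * ε := by
    rw [dd, lf0, lfv, b3, treeDist_comm, a3,
      (hTD M.W M.T M.isTree M.wt M.wt_pos (M.leaf v) (M.leaf v)).1]
    ring
  have hmin : M'.dmin = max M.dmin (3 * ε) := rfl
  have hmax : M'.dmax = max (M.dmax + ε) (3 * ε) := rfl
  -- status of a distance which is not changed
  have s1 : ∀ u u', u ≠ u' → ((M'.dmin ≤ M.dist u u' ∧ M.dist u u' ≤ M'.dmax) ↔
      (M.dmin ≤ M.dist u u' ∧ M.dist u u' ≤ M.dmax)) := by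
    intro u u' h
    obtain ⟨g1, g2, g3⟩ := hs u u' h
    rw [hmin, hmax, max_le_iff, le_max_iff]
    constructor
    · rintro ⟨⟨p1, p2⟩, p3⟩
      refine ⟨p1, ?_⟩
      by_contra hc
      push Not at hc
      have := g3 hc
      rcases p3 with p3 | p3 <;> linarith
    · rintro ⟨p1, p2⟩
      exact ⟨⟨p1, by linarith⟩, Or.inl (by linarith)⟩
  have s2 : ∀ u u', u ≠ u' → ((M'.dmin ≤ ε + M.dist u u' ∧ ε + M.dist u u' ≤ M'.dmax) ↔
      (M.dmin ≤ M.dist u u' ∧ M.dist u u' ≤ M.dmax)) := by
    intro u u' h
    obtain ⟨g1, g2, g3⟩ := hs u u' h
    rw [hmin, hmax, max_le_iff, le_max_iff]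
    constructor
    · rintro ⟨⟨p1, p2⟩, p3⟩
      constructor
      · by_contra hc
        push Not at hc
        have := g2 hc
        linarith
      · rcases p3 with p3 | p3 <;> linarith
    · rintro ⟨p1, p2⟩
      exact ⟨⟨by linarith, by linarith⟩, Or.inl (by linarith)⟩
  have adj' : ∀ o o', M'.graph.Adj o o' ↔ (o ≠ o' ∧ M'.dmin ≤ M'.dist o o' ∧ M'.dist o o' ≤ M'.dmax) :=
    fun o o' => Iff.rfl
  have adj : ∀ u u', M.graph.Adj u u' ↔ (u ≠ u' ∧ M.dmin ≤ M.dist u u' ∧ M.dist u u' ≤ M.dmax) :=
    fun u u' => Iff.rfl
  have hv : ∀ u, u ≠ v → (M'.graph.Adj (some v) (some u) ↔ M.graph.Adj v u) := by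
    intro u h
    rw [adj', adj, d2 u h, s2 v u h.symm]
    constructor
    · rintro ⟨_, p⟩
      exact ⟨h.symm, p⟩
    · rintro ⟨_, p⟩
      exact ⟨fun h' => h (Option.some.inj h').symm, p⟩
  refine ⟨M', ?_, ?_⟩
  · intro u u'
    by_cases h : u = v
    · by_cases h' : u' = v
      · subst h
        subst h'
        constructor
        · intro hh
          exact absurd rfl hh.ne
        · intro hh
          exact absurd rfl hh.ne
      · subst h
        exact hv u' h'
    · by_cases h' : u' = v
      · subst h'
        rw [M'.graph.adj_comm, M.graph.adj_comm]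
        exact hv u h
      · rw [adj', adj, d1 u u' h h']
        constructor
        · rintro ⟨p, q⟩
          have hne : u ≠ u' := fun h2 => p (by rw [h2])
          exact ⟨hne, (s1 u u' hne).1 q⟩
        · rintro ⟨p, q⟩
          exact ⟨fun h2 => p (Option.some.inj h2), (s1 u u' p).2 q⟩
  · intro u
    by_cases h : u = v
    · subst h
      constructor
      · rintro ⟨_, p, _⟩
        rw [d4, hmin, max_le_iff] at p
        linarith [p.2]
      · intro hh
        exact absurd rfl hh.ne
    · rw [adj', adj, d3 u h, s2 v u (Ne.symm h)]
      constructor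
      · rintro ⟨_, p⟩
        exact ⟨Ne.symm h, p⟩
      · rintro ⟨_, p⟩
        exact ⟨by simp, p⟩

end Pool.Agent.PCG.TT
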