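import Pool.Agent.Work.MP_9390ab_lc.TT.Stmts

/-!
# MP_9390ab_lc, block TT, item HD: induced subgraphs of a pairwise compatibility graph

A leaf outside the range of the new leaf map is removed with item LR; induction on the number of vertices.
-/

set_option autoImplicit false

namespace Pool.Agent.PCG.TT

open SimpleGraph Pool.Agent.PCG

namespace IHD

/-- every injective family of leaves of a finite weighted tree is the leaf set of a tree with the same distances -/
theorem restrict (h1 : StLR) {U : Type} (hU : Nonempty U) (d0 d1 : ℝ) (h0 : 0 ≤ d0) (h01 : d0 ≤ d1) :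
    ∀ (n : ℕ) (W : Type) (_ : Finite W) (T : SimpleGraph W) (hT : T.IsTree) (w : Sym2 W → ℝ) (f : U → W),
      Nat.card W ≤ n → (∀ e ∈ T.edgeSet, 0 < w e) → Function.Injective f → (∀ u, Leaf T (f u)) →
      ∃ M : WTree U, M.dmin = d0 ∧ M.dmax = d1 ∧ ∀ u v, M.dist u v = treeDist hT w (f u) (f v) := by
  intro n
  induction n with
  | zero =>
    intro W hW T hT w f hn
    exfalso
    obtain ⟨u⟩ := hU
    have : Nonempty W := ⟨f u⟩
    have := Nat.card_pos (α := W)
    omega
  | succ n ih =>
    intro W hW T hT w f hn hpos hf hleaf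
    by_cases h : ∀ x, Leaf T x → x ∈ Set.range f
    · refine ⟨⟨W, hW, T, hT, w, hpos, f, hf, fun x => ⟨?_, h x⟩, d0, d1, h0, h01⟩, rfl, rfl,
        fun u v => rfl⟩
      rintro ⟨u, rfl⟩
      exact hleaf u
    · push Not at h
      obtain ⟨x, hx, hxf⟩ := h
      have hne : ∀ u, f u ≠ x := fun u he => hxf ⟨u, he⟩
      have h1n : (T.neighborSet x).ncard = 1 := by
        have hle : (T.neighborSet x).ncard ≤ 1 := hx
        have hpos' : 0 < (T.neighborSet x).ncard := by
          obtain ⟨u⟩ := hU
          obtain ⟨p⟩ := hT.connected.preconnected x (f u)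
          rw [Set.ncard_pos (Set.toFinite _)]
          cases p with
          | nil => exact absurd rfl (hne u)
          | cons hadj _ => exact ⟨_, hadj⟩
        omega
      obtain ⟨T', hT', w', hpos', hd, hl⟩ := h1 W hW T hT w x hpos h1n
      have hcard : Nat.card {y : W // y ≠ x} < Nat.card W :=
        Finite.card_subtype_lt (p := fun y : W => y ≠ x) (x := x) (by simp)
      obtain ⟨M, hM0, hM1, hM⟩ := ih {y : W // y ≠ x} inferInstance T' hT' w'
        (fun u => ⟨f u, hne u⟩) (by omega) hpos'
        (fun u v huv => hf (congrArg Subtype.val huv)) (fun u => hl _ (hleaf u))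
      exact ⟨M, hM0, hM1, fun u v => by rw [hM, hd]⟩

end IHD

/-- Item HD. -/
theorem pr_HD (h1 : StLR) : StHD := by
  intro V U M g hg hU
  obtain ⟨M', h0, h2, hM⟩ := IHD.restrict h1 hU M.dmin M.dmax M.dmin_nonneg M.dmin_le_dmax
    (Nat.card M.W) M.W M.finite M.T M.isTree M.wt (fun u => M.leaf (g u)) le_rfl M.wt_pos
    (fun u v huv => hg (M.leaf_injective huv)) (fun u => (M.mem_range_leaf _).1 ⟨g u, rfl⟩)
  refine ⟨M', fun u v => ?_⟩
  have e : M'.dist u v = M.dist (g u) (g v) := hM u v
  constructor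
  · rintro ⟨hne, ha, hb⟩
    refine ⟨fun h => hne (hg h), ?_, ?_⟩
    · rw [← e, ← h0]; exact ha
    · rw [← e, ← h2]; exact hb
  · rintro ⟨hne, ha, hb⟩
    refine ⟨fun h => hne (congrArg g h), ?_, ?_⟩
    · rw [e, h0]; exact ha
    · rw [e, h2]; exact hb

end Pool.Agent.PCG.TT
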