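import Pool.Agent.Work.MP_9390ab_lc.TT.Stmts

/-!
# MP_9390ab_lc, block TT, item NL: an inner vertex of a path is not a leaf
-/

set_option autoImplicit false

namespace Pool.Agent.PCG.TT

open SimpleGraph Pool.Agent.PCG

namespace INL

theorem inner {W : Type} [Finite W] (T : SimpleGraph W) (hT : T.IsTree) (x y c : W)
    (hx : x ≠ c) (hy : c ≠ y) (h : On T x y c) : ¬ Leaf T c := by
  classical
  intro hL
  obtain ⟨p0⟩ := hT.connected.preconnected x y
  have hp : (p0.toPath : T.Walk x y).IsPath := p0.toPath.2
  set p : T.Walk x y := (p0.toPath : T.Walk x y) with hpd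
  have hc : c ∈ p.support := h p hp
  have h1 : ¬ (p.takeUntil c hc).Nil := SimpleGraph.Walk.not_nil_of_ne hx
  have h2 : ¬ (p.dropUntil c hc).Nil := SimpleGraph.Walk.not_nil_of_ne hy
  have a1 := SimpleGraph.Walk.adj_penultimate h1
  have a2 := SimpleGraph.Walk.adj_snd h2
  have hne : (p.takeUntil c hc).penultimate ≠ (p.dropUntil c hc).snd := by
    intro he
    have e1 : p.support = (p.takeUntil c hc).support ++ (p.dropUntil c hc).support.tail := by
      conv_lhs => rw [← SimpleGraph.Walk.take_spec p hc]
      exact SimpleGraph.Walk.support_append _ _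
    have e2 : p.support.Nodup := hp.support_nodup
    rw [e1] at e2
    have e3 := List.disjoint_of_nodup_append e2
    refine e3 (List.mem_of_mem_dropLast (SimpleGraph.Walk.penultimate_mem_dropLast_support h1)) ?_
    rw [he]
    exact SimpleGraph.Walk.snd_mem_tail_support h2
  have hsub : ({(p.takeUntil c hc).penultimate, (p.dropUntil c hc).snd} : Set W) ⊆
      T.neighborSet c := by
    intro z hz
    rcases hz with rfl | hz
    · exact a1.symm
    · rw [Set.mem_singleton_iff] at hz
      subst hz
      exact a2
  have hcard := Set.ncard_le_ncard hsub (Set.toFinite _)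
  rw [Set.ncard_pair hne] at hcard
  unfold Leaf at hL
  omega

end INL

/-- Item NL. -/
theorem pr_NL : StNL := by
  intro W _ T hT v1 v2 v3 c h12 h13 h23 o12 o13 o23
  by_cases c1 : v1 = c
  · have c2 : v2 ≠ c := fun h => h12 (c1.trans h.symm)
    have c3 : c ≠ v3 := fun h => h13 (c1.trans h)
    exact INL.inner T hT v2 v3 c c2 c3 o23
  · by_cases c2 : c = v2
    · have c3 : c ≠ v3 := fun h => h23 (c2.symm.trans h)
      exact INL.inner T hT v1 v3 c c1 c3 o13
    · exact INL.inner T hT v1 v2 c c1 c2 o12

end Pool.Agent.PCG.TT
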