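import Pool.Agent.Work.MP_9390ab_lc.TT.Stmts2
import Pool.Agent.Work.MP_9390ab_lc.TT.I_NL

/-!
# MP_9390ab_lc, block TT, item IN: an inner vertex of a path is not a leaf (helper97; the lemma is INL.inner)
-/

set_option autoImplicit false

namespace Pool.Agent.PCG.TT

open SimpleGraph Pool.Agent.PCG

/-- Item IN. -/
theorem pr_IN : StIN := by
  intro W hW T hT x y c h hx hy
  exact INL.inner T hT x y c (fun e => hx e.symm) hy h

end Pool.Agent.PCG.TT
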