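import Pool.Agent.Work.MP_9390ab_lc.TT.Stmts

/-!
[9390ab TT] Item LR: remove a leaf of a weighted tree.
-/

set_option autoImplicit false

namespace Pool.Agent.PCG.TT

open SimpleGraph Pool.Agent.PCG

namespace ILR

/-- The tree without the vertex x. -/
def del {W : Type} (T : SimpleGraph W) (x : W) : SimpleGraph {y : W // y ≠ x} :=
  T.comap (Subtype.val : {y : W // y ≠ x} → W)

/-- The inclusion. -/
def inc {W : Type} (T : SimpleGraph W) (x : W) : del T x →g T where
  toFun := Subtype.val
  map_rel' := fun h => h

theorem inc_inj {W : Type} (T : SimpleGraph W) (x : W) : Function.Injective (inc T x) :=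
  Subtype.val_injective

theorem del_connected {W : Type} [Finite W] (T : SimpleGraph W) (hT : T.IsTree) (x : W)
    (hx : (T.neighborSet x).ncard = 1) : (del T x).Connected := by
  classical
  have : Fintype (T.neighborSet x) := Fintype.ofFinite _
  have h1 : T.degree x = 1 := by
    rw [← hx, ← SimpleGraph.card_neighborSet_eq_degree, Set.ncard_eq_toFinset_card',
      Set.toFinset_card]
  have h := hT.connected.induce_compl_singleton_of_degree_eq_one h1
  exact h

theorem del_tree {W : Type} [Finite W] (T : SimpleGraph W) (hT : T.IsTree) (x : W)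
    (hx : (T.neighborSet x).ncard = 1) : (del T x).IsTree :=
  ⟨del_connected T hT x hx, hT.isAcyclic.comap (inc T x) (inc_inj T x)⟩

end ILR

open ILR in
theorem pr_LR : StLR := by
  intro W _ T hT w x hw hx
  refine ⟨del T x, del_tree T hT x hx, fun e => w (e.map Subtype.val), ?_, ?_, ?_⟩
  · intro e he
    induction e using Sym2.ind with
    | _ a b =>
      apply hw
      rw [Sym2.map_mk, SimpleGraph.mem_edgeSet]
      rw [SimpleGraph.mem_edgeSet] at he
      exact he
  · intro y z
    obtain ⟨p, hp, -⟩ := (del_tree T hT x hx).existsUnique_path y z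
    rw [treeDist_eq _ _ p hp]
    have hp' : (p.map (inc T x)).IsPath := hp.map (inc_inj T x)
    have h2 : treeDist hT w y.1 z.1 = ((p.map (inc T x)).edges.map w).sum :=
      treeDist_eq hT w (p.map (inc T x)) hp'
    rw [h2, Walk.edges_map, List.map_map]
    rfl
  · intro y hy
    unfold Leaf at *
    refine le_trans ?_ hy
    have h3 : Subtype.val '' ((del T x).neighborSet y) ⊆ T.neighborSet y.1 := by
      rintro _ ⟨z, hz, rfl⟩
      exact hz
    rw [← Set.ncard_image_of_injective _ Subtype.val_injective]
    exact Set.ncard_le_ncard h3 (Set.toFinite _)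

end Pool.Agent.PCG.TT
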