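import Pool.Agent.Work.MP_9390ab_lc.TT.Stmts2

/-!
# MP_9390ab_lc, block TT, second part, item MC: the middle of a path
-/

set_option autoImplicit false

namespace Pool.Agent.PCG.TT

open SimpleGraph Pool.Agent.PCG

namespace IMC

/-- the length of a walk -/
noncomputable def ln {W : Type} {T : SimpleGraph W} (w : Sym2 W → ℝ) {x y : W} (p : T.Walk x y) : ℝ :=
  (p.edges.map w).sum

theorem ln_nil {W : Type} {T : SimpleGraph W} (w : Sym2 W → ℝ) (x : W) :
    ln w (Walk.nil : T.Walk x x) = 0 := by
  unfold ln
  simp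

theorem ln_cons {W : Type} {T : SimpleGraph W} (w : Sym2 W → ℝ) {x y z : W} (h : T.Adj x y)
    (p : T.Walk y z) : ln w (Walk.cons h p) = w s(x, y) + ln w p := by
  unfold ln
  rw [Walk.edges_cons, List.map_cons, List.sum_cons]

theorem ln_append {W : Type} {T : SimpleGraph W} (w : Sym2 W → ℝ) {x y z : W} (p : T.Walk x y)
    (q : T.Walk y z) : ln w (p.append q) = ln w p + ln w q := by
  unfold ln
  rw [Walk.edges_append, List.map_append, List.sum_append]

/-- splitting a walk at a given length -/
theorem split {W : Type} {T : SimpleGraph W} (w : Sym2 W → ℝ) {x y : W} (p : T.Walk x y) :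
    ∀ h : ℝ, 0 ≤ h → h < ln w p →
    (∃ (c : W) (p1 : T.Walk x c) (p2 : T.Walk c y), p = p1.append p2 ∧ ln w p1 = h) ∨
    ∃ (a b : W) (p1 : T.Walk x a) (hab : T.Adj a b) (p2 : T.Walk b y),
      p = p1.append (Walk.cons hab p2) ∧ ln w p1 < h ∧ h < ln w p1 + w s(a, b) := by
  induction p with
  | nil =>
    intro h h0 h1
    rw [ln_nil] at h1
    exact absurd h1 (not_lt.2 h0)
  | @cons u v z hadj q ih =>
    intro h h0 h1
    rw [ln_cons] at h1
    rcases h0.eq_or_lt with h2 | h2
    · left
      refine ⟨u, Walk.nil, Walk.cons hadj q, ?_, ?_⟩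
      · rw [Walk.nil_append]
      · rw [ln_nil]
        exact h2
    · by_cases h3 : h < w s(u, v)
      · right
        refine ⟨u, v, Walk.nil, hadj, q, ?_, ?_, ?_⟩
        · rw [Walk.nil_append]
        · rw [ln_nil]
          exact h2
        · rw [ln_nil]
          linarith
      · rcases ih (h - w s(u, v)) (by linarith) (by linarith) with ⟨c, p1, p2, e, e1⟩ |
          ⟨a, b, p1, hab, p2, e, e1, e2⟩
        · left
          refine ⟨c, Walk.cons hadj p1, p2, ?_, ?_⟩
          · rw [Walk.cons_append, ← e]
          · rw [ln_cons, e1]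
            ring
        · right
          refine ⟨a, b, Walk.cons hadj p1, hab, p2, ?_, ?_, ?_⟩
          · rw [Walk.cons_append, ← e]
          · rw [ln_cons]
            linarith
          · rw [ln_cons]
            linarith

end IMC

/-- item MC -/
theorem pr_MC (h2 : StTD) : StMC := by
  intro W T hT w v1 v2 hw hne
  obtain ⟨p, hp, hu⟩ := hT.existsUnique_path v1 v2
  have hL : treeDist hT w v1 v2 = IMC.ln w p := treeDist_eq hT w p hp
  have hpos : 0 < treeDist hT w v1 v2 := (h2 W T hT w hw v1 v2).2 hne
  rcases IMC.split w p (treeDist hT w v1 v2 / 2) (by linarith) (by rw [← hL]; linarith) with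
    ⟨c, p1, p2, e, e1⟩ | ⟨x, y, p1, hxy, p2, e, e1, e2⟩
  · left
    refine ⟨c, ?_, ?_⟩
    · intro p' hp'
      rw [hu p' hp', e, Walk.mem_support_append_iff]
      exact Or.inl p1.end_mem_support
    · rw [e] at hp
      rw [treeDist_eq hT w p1 hp.of_append_left]
      exact e1
  · right
    have hcat : p = (p1.append (Walk.cons hxy Walk.nil)).append p2 := by
      rw [e, ← Walk.append_assoc, Walk.cons_append, Walk.nil_append]
    have hp1 : p1.IsPath := by
      rw [e] at hp
      exact hp.of_append_left
    have hp2 : (Walk.cons hxy p2).IsPath := by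
      rw [e] at hp
      exact hp.of_append_right
    have hp3 : (p1.append (Walk.cons hxy Walk.nil)).IsPath := by
      rw [hcat] at hp
      exact hp.of_append_left
    have hp4 : p2.IsPath := by
      rw [hcat] at hp
      exact hp.of_append_right
    have d1 : treeDist hT w v1 x = IMC.ln w p1 := treeDist_eq hT w p1 hp1
    have d2 : treeDist hT w x v2 = w s(x, y) + IMC.ln w p2 := by
      rw [treeDist_eq hT w _ hp2]
      exact IMC.ln_cons w hxy p2
    have d3 : treeDist hT w v1 y = IMC.ln w p1 + w s(x, y) := by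
      rw [treeDist_eq hT w _ hp3]
      have e3 := IMC.ln_append w p1 (Walk.cons hxy Walk.nil)
      rw [IMC.ln_cons, IMC.ln_nil, add_zero] at e3
      exact e3
    have d4 : treeDist hT w y v2 = IMC.ln w p2 := treeDist_eq hT w p2 hp4
    have d5 : treeDist hT w v1 v2 = IMC.ln w p1 + (w s(x, y) + IMC.ln w p2) := by
      rw [hL, e, IMC.ln_append, IMC.ln_cons]
    refine ⟨x, y, hxy, ?_, ?_, ?_, ?_, ?_⟩
    · rw [d1]
      exact e1
    · rw [d3]
      exact e2
    · rw [d3, d1]
    · rw [d2, d1]
      linarith
    · rw [d4, d3]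
      linarith

end Pool.Agent.PCG.TT
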