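import Pool.Agent.Work.MP_9390ab_lc.TT.Stmts

/-!
# Item MD of block TT: the median of three vertices of a tree
-/

set_option autoImplicit false

namespace Pool.Agent.PCG.TT

open SimpleGraph Pool.Agent.PCG

namespace IMD

variable {W : Type} {T : SimpleGraph W}

/-- every walk meets a vertex which is on the path -/
lemma on_walk {x y c : W} (h : On T x y c) (p : T.Walk x y) : c ∈ p.support := by
  classical
  have h1 := h p.bypass p.bypass_isPath
  exact p.support_bypass_subset h1

lemma on_of_path (hT : T.IsTree) {x y c : W} (p : T.Walk x y) (hp : p.IsPath) (hc : c ∈ p.support) :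
    On T x y c := by
  intro q hq
  have h := hT.isAcyclic.path_unique ⟨p, hp⟩ ⟨q, hq⟩
  have h2 : p = q := congrArg Subtype.val h
  rw [← h2]; exact hc

lemma on_symm {x y c : W} (h : On T x y c) : On T y x c := by
  intro p hp
  have h1 := h p.reverse hp.reverse
  simpa using h1

lemma first {a b : W} (q : T.Walk a b) (S : Set W) (hb : b ∈ S) :
    ∃ c ∈ S, ∃ (r : T.Walk a c) (s : T.Walk c b), q = r.append s ∧ ∀ x ∈ r.support, x ∈ S → x = c := by
  induction q with
  | nil =>
    refine ⟨_, hb, Walk.nil, Walk.nil, rfl, ?_⟩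
    intro x hx _
    simpa using hx
  | @cons u v w h q' ih =>
    by_cases ha : u ∈ S
    · refine ⟨u, ha, Walk.nil, Walk.cons h q', rfl, ?_⟩
      intro x hx _
      simpa using hx
    · obtain ⟨c, hc, r, s, hrs, hx⟩ := ih hb
      refine ⟨c, hc, Walk.cons h r, s, ?_, ?_⟩
      · rw [hrs]; rfl
      · intro x hxr hxS
        rw [Walk.support_cons, List.mem_cons] at hxr
        rcases hxr with hxr | hxr
        · exact absurd (hxr ▸ hxS) ha
        · exact hx x hxr hxS

lemma path_append {a b c : W} (r : T.Walk a c) (s : T.Walk c b) (hr : r.IsPath) (hs : s.IsPath)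
    (h : ∀ x ∈ r.support, x ∈ s.support → x = c) : (r.append s).IsPath := by
  rw [Walk.isPath_def, Walk.support_append, List.nodup_append]
  have hs1 : s.support.Nodup := hs.support_nodup
  have hs2 : s.support = c :: s.support.tail := s.support_eq_cons
  refine ⟨hr.support_nodup, ?_, ?_⟩
  · exact hs1.tail
  · intro x hx y hy hxy
    subst hxy
    have h1 : x = c := h x hx (List.mem_of_mem_tail hy)
    subst h1
    rw [hs2, List.nodup_cons] at hs1
    exact hs1.1 hy

lemma two {x a b c : W} (h : On T a b c) : On T x a c ∨ On T x b c := by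
  by_contra hcon
  push Not at hcon
  obtain ⟨h1, h2⟩ := hcon
  unfold On at h1 h2
  push Not at h1 h2
  obtain ⟨p, _, hp⟩ := h1
  obtain ⟨q, _, hq⟩ := h2
  have h3 := on_walk h (p.reverse.append q)
  rw [Walk.mem_support_append_iff] at h3
  rcases h3 with h3 | h3
  · rw [Walk.support_reverse, List.mem_reverse] at h3
    exact hp h3
  · exact hq h3

end IMD

open IMD in
theorem pr_MD : StMD := by
  classical
  intro W T hT v1 v2 v3
  obtain ⟨p, hp, -⟩ := hT.existsUnique_path v1 v2
  obtain ⟨q, hq, -⟩ := hT.existsUnique_path v3 v1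
  obtain ⟨c, hc, r, s, hrs, hx⟩ := first q {x | x ∈ p.support} p.start_mem_support
  have hc' : c ∈ p.support := hc
  have h12 : On T v1 v2 c := on_of_path hT p hp hc'
  have hcq : c ∈ q.support := by
    rw [hrs, Walk.mem_support_append_iff]
    exact Or.inl r.end_mem_support
  have h31 : On T v3 v1 c := on_of_path hT q hq hcq
  have hr : r.IsPath := by
    rw [hrs] at hq
    exact hq.of_append_left
  have hs : (p.dropUntil c hc').IsPath := hp.dropUntil hc'
  have h32 : On T v3 v2 c := by
    refine on_of_path hT (r.append (p.dropUntil c hc')) (path_append r _ hr hs ?_) ?_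
    · intro x hxr hxs
      exact hx x hxr (p.support_dropUntil_subset hc' hxs)
    · rw [Walk.mem_support_append_iff]
      exact Or.inl r.end_mem_support
  have h13 := on_symm h31
  have h23 := on_symm h32
  refine ⟨c, h12, h13, h23, ?_⟩
  intro x
  have a := two (x := x) h12
  have b := two (x := x) h13
  have d := two (x := x) h23
  tauto

end Pool.Agent.PCG.TT
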