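import Pool.Agent.Work.MP_9390ab_lc.TT.Stmts2

/-!
# MP_9390ab_lc, block TT, item MI: the midpoint as a vertex
-/

set_option autoImplicit false

namespace Pool.Agent.PCG.TT

open SimpleGraph Pool.Agent.PCG

/-- Item MI. -/
theorem pr_MI (h1 : StSD) (h2 : StMC) (h3 : StOD) (h4 : StIN) (h5 : StTA) (h6 : StTD) : StMI := by
  intro W hW T hT w v1 v2 hw hne
  have hL : 0 < treeDist hT w v1 v2 := (h6 W T hT w hw v1 v2).2 hne
  rcases h2 W T hT w v1 v2 hw hne with ⟨c, hc, hd⟩ | ⟨x, y, hxy, hx, hy, e1, e2, e3⟩
  · have hc1 : c ≠ v1 := by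
      intro h
      rw [h, (h6 W T hT w hw v1 v1).1] at hd
      linarith
    have hc2 : c ≠ v2 := by
      intro h
      rw [h] at hd
      linarith
    have hta := h5 W T hT w v1 v2 c hc
    refine ⟨W, hW, T, hT, w, id, c, Function.injective_id, hw, fun _ _ => rfl, ?_,
      h4 W hW T hT v1 v2 c hc hc1 hc2, hc, hd, ?_⟩
    · intro x'
      exact ⟨fun h => ⟨x', h, rfl⟩, fun ⟨x, hx, e⟩ => e ▸ hx⟩
    · rw [treeDist_comm hT w]
      simp only [id]
      linarith
  · have ht0 : 0 < treeDist hT w v1 v2 / 2 - treeDist hT w v1 x := by linarith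
    have ht1 : treeDist hT w v1 v2 / 2 - treeDist hT w v1 x < w s(x, y) := by linarith
    obtain ⟨T', hT', w', hw', hd', hn', hl', hleaf⟩ :=
      h1 W hW T hT w x y (treeDist hT w v1 v2 / 2 - treeDist hT w v1 x) hw hxy ht0 ht1
    have d1 : treeDist hT' w' (some v1) none = treeDist hT w v1 v2 / 2 := by
      rw [hn', min_eq_left (by linarith)]
      ring
    have c1 : treeDist hT w v2 x = treeDist hT w x v2 := treeDist_comm hT w v2 x
    have c2 : treeDist hT w v2 y = treeDist hT w y v2 := treeDist_comm hT w v2 y
    have d2 : treeDist hT' w' (some v2) none = treeDist hT w v1 v2 / 2 := by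
      rw [hn', min_eq_right (by linarith)]
      linarith
    refine ⟨Option W, inferInstance, T', hT', w', some, none, Option.some_injective W, hw', hd', ?_,
      hl', ?_, d1, d2⟩
    · intro x'
      cases x' with
      | none =>
        constructor
        · intro h
          exact absurd h hl'
        · rintro ⟨x, _, e⟩
          exact absurd e (by simp)
      | some z =>
        constructor
        · intro h
          exact ⟨z, (hleaf z).1 h, rfl⟩
        · rintro ⟨x, hx, e⟩
          have e' : x = z := Option.some.inj e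
          exact (hleaf z).2 (e' ▸ hx)
    · apply h3 (Option W) T' hT' w' (some v1) (some v2) none hw'
      rw [treeDist_comm hT' w' none (some v2), d1, d2, hd']
      ring

end Pool.Agent.PCG.TT
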