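import Pool.Agent.Work.MP_9390ab_lc.TT.Stmts2
import Pool.Agent.Work.MP_9390ab_lc.TT.I_MD

/-!
# MP_9390ab_lc, block TT, item OT (the lemma is IMD.two)
-/

set_option autoImplicit false

namespace Pool.Agent.PCG.TT

open SimpleGraph Pool.Agent.PCG

theorem pr_OT : StOT := by
  intro W T _ v1 v2 c u h
  exact IMD.two h

end Pool.Agent.PCG.TT
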