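import Pool.Agent.Work.MP_9390ab_lc.TT.Stmts2

/-!
# MP_9390ab_lc, block TT, item SD: subdivision of an edge
-/

set_option autoImplicit false

namespace Pool.Agent.PCG.TT

open SimpleGraph Pool.Agent.PCG
open scoped Classical

namespace ISD

variable {W : Type}

/-- The subdivided graph. -/
def sub (T : SimpleGraph W) (x y : W) : SimpleGraph (Option W) where
  Adj a b := match a, b with
    | some u, some v => T.Adj u v ∧ s(u, v) ≠ s(x, y)
    | none, some v => v = x ∨ v = y
    | some u, none => u = x ∨ u = y
    | none, none => False
  symm := ⟨by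
    rintro (_ | u) (_ | v) h
    · exact h
    · exact h
    · exact h
    · exact ⟨h.1.symm, by rw [Sym2.eq_swap]; exact h.2⟩⟩
  loopless := ⟨by
    rintro (_ | u) h
    · exact h
    · exact h.1.ne rfl⟩

theorem adj_ss (T : SimpleGraph W) (x y u v : W) :
    (sub T x y).Adj (some u) (some v) ↔ T.Adj u v ∧ s(u, v) ≠ s(x, y) := Iff.rfl

theorem adj_ns (T : SimpleGraph W) (x y v : W) :
    (sub T x y).Adj none (some v) ↔ (v = x ∨ v = y) := Iff.rfl

theorem adj_sn (T : SimpleGraph W) (x y v : W) :
    (sub T x y).Adj (some v) none ↔ (v = x ∨ v = y) := Iff.rfl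

/-- The new weights. -/
noncomputable def nw (w : Sym2 W → ℝ) (x y : W) (t : ℝ) (e : Sym2 (Option W)) : ℝ :=
  if e = s(none, some x) then t else if e = s(none, some y) then w s(x, y) - t
  else w (e.map (fun o => o.getD x))

theorem nw_ss (w : Sym2 W → ℝ) (x y : W) (t : ℝ) (u v : W) :
    nw w x y t s(some u, some v) = w s(u, v) := by
  unfold nw
  rw [if_neg, if_neg]
  · simp
  · simp [Sym2.eq_iff]
  · simp [Sym2.eq_iff]

theorem nw_x (w : Sym2 W → ℝ) (x y : W) (t : ℝ) :
    nw w x y t s(none, some x) = t := by
  unfold nw
  rw [if_pos rfl]

theorem nw_y (w : Sym2 W → ℝ) (x y : W) (t : ℝ) (hxy : x ≠ y) :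
    nw w x y t s(none, some y) = w s(x, y) - t := by
  unfold nw
  rw [if_neg, if_pos rfl]
  simp [Sym2.eq_iff, hxy.symm]

theorem exF {T : SimpleGraph W} {x y : W} (hxy : T.Adj x y) (w : Sym2 W → ℝ) (t : ℝ) {u v : W}
    (p : T.Walk u v) : ∃ q : (sub T x y).Walk (some u) (some v),
      (q.edges.map (nw w x y t)).sum = (p.edges.map w).sum ∧
      (∀ z, some z ∈ q.support ↔ z ∈ p.support) ∧ (none ∈ q.support ↔ s(x, y) ∈ p.edges) ∧
      (p.IsPath → q.IsPath) := by
  induction p with
  | nil =>
    refine ⟨Walk.nil, by simp, by simp, by simp, fun _ => Walk.IsPath.nil⟩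
  | @cons u u' v h p ih =>
    obtain ⟨q, h1, h2, h3, h4⟩ := ih
    by_cases he : s(u, u') = s(x, y)
    · have hor : (u = x ∧ u' = y) ∨ (u = y ∧ u' = x) := by
        rw [Sym2.eq_iff] at he
        exact he
      have a1 : (sub T x y).Adj (some u) none := by
        rw [adj_sn]
        rcases hor with h | h
        · exact Or.inl h.1
        · exact Or.inr h.1
      have a2 : (sub T x y).Adj none (some u') := by
        rw [adj_ns]
        rcases hor with h | h
        · exact Or.inr h.2
        · exact Or.inl h.2
      refine ⟨Walk.cons a1 (Walk.cons a2 q), ?_, ?_, ?_, ?_⟩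
      · rw [Walk.edges_cons, Walk.edges_cons, Walk.edges_cons, List.map_cons, List.map_cons,
          List.map_cons, List.sum_cons, List.sum_cons, List.sum_cons, h1, he]
        have hw : nw w x y t s(some u, none) + nw w x y t s(none, some u') = w s(x, y) := by
          rw [Sym2.eq_swap (a := some u)]
          rcases hor with h | h
          · rw [h.1, h.2, nw_x, nw_y w x y t hxy.ne]
            ring
          · rw [h.1, h.2, nw_x, nw_y w x y t hxy.ne]
            ring
        linarith
      · intro z
        rw [Walk.support_cons, Walk.support_cons, Walk.support_cons, List.mem_cons, List.mem_cons,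
          List.mem_cons, h2]
        simp
      · rw [Walk.support_cons, Walk.support_cons, Walk.edges_cons, he]
        simp
      · intro hp
        rw [Walk.cons_isPath_iff] at hp
        rw [Walk.cons_isPath_iff, Walk.cons_isPath_iff]
        have hnone : none ∉ q.support := by
          rw [h3]
          intro hm
          rw [← he] at hm
          exact hp.2 (p.fst_mem_support_of_mem_edges hm)
        refine ⟨⟨h4 hp.1, hnone⟩, ?_⟩
        rw [Walk.support_cons, List.mem_cons, h2]
        simp [hp.2]
    · have a1 : (sub T x y).Adj (some u) (some u') := ⟨h, he⟩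
      refine ⟨Walk.cons a1 q, ?_, ?_, ?_, ?_⟩
      · rw [Walk.edges_cons, Walk.edges_cons, List.map_cons, List.map_cons, List.sum_cons,
          List.sum_cons, h1, nw_ss]
      · intro z
        rw [Walk.support_cons, Walk.support_cons, List.mem_cons, List.mem_cons, h2]
        simp
      · rw [Walk.support_cons, Walk.edges_cons, List.mem_cons, List.mem_cons, h3]
        simp [Ne.symm he]
      · intro hp
        rw [Walk.cons_isPath_iff] at hp
        rw [Walk.cons_isPath_iff]
        refine ⟨h4 hp.1, ?_⟩
        rw [h2]
        exact hp.2

theorem connected {T : SimpleGraph W} (hT : T.IsTree) {x y : W} (hxy : T.Adj x y) :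
    (sub T x y).Connected := by
  have hr : ∀ u v, (sub T x y).Reachable (some u) (some v) := by
    intro u v
    obtain ⟨p⟩ := hT.connected.preconnected u v
    obtain ⟨q, _⟩ := exF hxy (fun _ => 0) 0 p
    exact ⟨q⟩
  have hn : ∀ v, (sub T x y).Reachable none (some v) := by
    intro v
    have h1 : (sub T x y).Adj none (some x) := Or.inl rfl
    exact h1.reachable.trans (hr x v)
  haveI : Nonempty (Option W) := ⟨none⟩
  refine ⟨?_⟩
  rintro (_ | u) (_ | v)
  · exact Reachable.refl _
  · exact hn v
  · exact (hn u).symm
  · exact hr u v

theorem isTree [Finite W] {T : SimpleGraph W} (hT : T.IsTree) {x y : W} (hxy : T.Adj x y) :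
    (sub T x y).IsTree := by
  rw [isTree_iff_connected_and_card]
  refine ⟨connected hT hxy, ?_⟩
  have h0 := (isTree_iff_connected_and_card.mp hT).2
  have e1 : (sub T x y).edgeSet = (Sym2.map some) '' (T.edgeSet \ {s(x, y)}) ∪
      {s(none, some x), s(none, some y)} := by
    ext e
    induction e using Sym2.ind with
    | _ a b =>
      rw [mem_edgeSet]
      constructor
      · intro h
        rcases a with _ | u <;> rcases b with _ | v
        · exact absurd h (fun h => h)
        · right
          rcases h with h | h
          · left; rw [h]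
          · right; rw [Set.mem_singleton_iff, h]
        · right
          rcases h with h | h
          · left; rw [h]; exact Sym2.eq_swap
          · right; rw [Set.mem_singleton_iff, h]; exact Sym2.eq_swap
        · left
          exact ⟨s(u, v), ⟨h.1, h.2⟩, by simp⟩
      · rintro (⟨e, ⟨he1, he2⟩, he3⟩ | h)
        · induction e using Sym2.ind with
          | _ u v =>
            rw [Sym2.map_mk] at he3
            have h1 : (sub T x y).Adj (some u) (some v) := ⟨he1, he2⟩
            rw [← mem_edgeSet] at h1 ⊢
            rw [← he3]
            exact h1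
        · rcases h with h | h
          · rw [← mem_edgeSet, h, mem_edgeSet]
            exact Or.inl rfl
          · rw [Set.mem_singleton_iff] at h
            rw [← mem_edgeSet, h, mem_edgeSet]
            exact Or.inr rfl
  have hfin : T.edgeSet.Finite := Set.toFinite _
  rw [Nat.card_coe_set_eq] at h0 ⊢
  rw [e1, Set.ncard_union_eq, Set.ncard_image_of_injective _
    (Sym2.map.injective (Option.some_injective W)), Set.ncard_pair,
    Set.ncard_diff_singleton_of_mem ((mem_edgeSet T).2 hxy)]
  · have hpos : 0 < T.edgeSet.ncard := by
      rw [Set.ncard_pos hfin]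
      exact ⟨_, (mem_edgeSet T).2 hxy⟩
    have hc : Nat.card (Option W) = Nat.card W + 1 := by
      haveI := Fintype.ofFinite W
      simp [Nat.card_eq_fintype_card]
    rw [hc]
    omega
  · simp [Sym2.eq_iff, hxy.ne]
  · rw [Set.disjoint_left]
    rintro e ⟨e', _, he⟩ h
    induction e' using Sym2.ind with
    | _ u v =>
      rw [Sym2.map_mk] at he
      rcases h with h | h
      · rw [h] at he
        simp [Sym2.eq_iff] at he
      · rw [Set.mem_singleton_iff] at h
        rw [h] at he
        simp [Sym2.eq_iff] at he

/-- The end a of the subdivided edge a b is nearer. -/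
theorem near {T : SimpleGraph W} (hT : T.IsTree) {x y : W} (hxy : T.Adj x y)
    (hT' : (sub T x y).IsTree) (w : Sym2 W → ℝ) (t : ℝ) (a b z : W) (hab : s(a, b) = s(x, y))
    (p : T.Walk z a) (hp : p.IsPath) (hb : b ∉ p.support) :
    treeDist hT' (nw w x y t) (some z) none = treeDist hT w z a + nw w x y t s(none, some a) ∧
    treeDist hT w z b = treeDist hT w z a + w s(x, y) := by
  have hor : (a = x ∧ b = y) ∨ (a = y ∧ b = x) := by
    rw [Sym2.eq_iff] at hab
    exact hab
  have hadj : T.Adj a b := by
    rcases hor with h | h
    · rw [h.1, h.2]; exact hxy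
    · rw [h.1, h.2]; exact hxy.symm
  constructor
  · obtain ⟨q, h1, h2, h3, h4⟩ := exF hxy w t p
    have hnone : none ∉ q.support := by
      rw [h3, ← hab]
      intro hm
      exact hb (p.snd_mem_support_of_mem_edges hm)
    have a1 : (sub T x y).Adj (some a) none := by
      rw [adj_sn]
      rcases hor with h | h
      · exact Or.inl h.1
      · exact Or.inr h.1
    have hq : (q.concat a1).IsPath := by
      rw [Walk.concat_isPath_iff]
      exact ⟨h4 hp, hnone⟩
    rw [treeDist_eq hT' _ (q.concat a1) hq, treeDist_eq hT w p hp, Walk.edges_concat,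
      List.concat_eq_append, List.map_append, List.sum_append, h1]
    simp only [List.map_cons, List.map_nil, List.sum_cons, List.sum_nil, add_zero]
    rw [Sym2.eq_swap]
  · have hq : (p.concat hadj).IsPath := by
      rw [Walk.concat_isPath_iff]
      exact ⟨hp, hb⟩
    rw [treeDist_eq hT _ (p.concat hadj) hq, treeDist_eq hT w p hp, Walk.edges_concat,
      List.concat_eq_append, List.map_append, List.sum_append]
    simp only [List.map_cons, List.map_nil, List.sum_cons, List.sum_nil, add_zero]
    rw [hab]

end ISD

open ISD in
theorem pr_SD : StSD := by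
  intro W hfin T hT w x y t hw hxy ht0 ht1
  have hT' : (sub T x y).IsTree := isTree hT hxy
  refine ⟨sub T x y, hT', nw w x y t, ?_, ?_, ?_, ?_, ?_⟩
  · intro e
    induction e using Sym2.ind with
    | _ a b =>
      intro h
      rw [mem_edgeSet] at h
      rcases a with _ | u <;> rcases b with _ | v
      · exact absurd h (fun h => h)
      · rcases h with h | h
        · rw [h, nw_x]; exact ht0
        · rw [h, nw_y w x y t hxy.ne]; linarith
      · rw [Sym2.eq_swap]
        rcases h with h | h
        · rw [h, nw_x]; exact ht0
        · rw [h, nw_y w x y t hxy.ne]; linarith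
      · rw [nw_ss]
        exact hw _ h.1
  · intro u v
    obtain ⟨p, hp, -⟩ := hT.existsUnique_path u v
    obtain ⟨q, h1, _, _, h4⟩ := exF hxy w t p
    rw [treeDist_eq hT' _ q (h4 hp), treeDist_eq hT w p hp, h1]
  · intro z
    obtain ⟨p, hp, -⟩ := hT.existsUnique_path z x
    by_cases hy : y ∈ p.support
    · have hq : (p.takeUntil y hy).IsPath := hp.takeUntil hy
      have hx : x ∉ (p.takeUntil y hy).support := by
        intro hx
        have e1 : p.support = (p.takeUntil y hy).support ++ (p.dropUntil y hy).support.tail := by
          conv_lhs => rw [← SimpleGraph.Walk.take_spec p hy]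
          exact SimpleGraph.Walk.support_append _ _
        have e2 : p.support.Nodup := hp.support_nodup
        rw [e1] at e2
        have e3 := List.disjoint_of_nodup_append e2
        refine e3 hx ?_
        have h5 : ¬ (p.dropUntil y hy).Nil := SimpleGraph.Walk.not_nil_of_ne hxy.ne.symm
        have h6 : x ∈ (p.dropUntil y hy).support := Walk.end_mem_support _
        rw [(p.dropUntil y hy).support_eq_cons, List.mem_cons] at h6
        rcases h6 with h6 | h6
        · exact absurd h6 hxy.ne
        · exact h6
      obtain ⟨h1, h2⟩ := near hT hxy hT' w t y x z Sym2.eq_swap _ hq hx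
      rw [h1, nw_y w x y t hxy.ne, h2, min_eq_right]
      linarith
    · obtain ⟨h1, h2⟩ := near hT hxy hT' w t x y z rfl _ hp hy
      rw [h1, nw_x, h2, min_eq_left]
      linarith
  · intro hL
    unfold Leaf at hL
    have h1 : ({some x, some y} : Set (Option W)) ⊆ (sub T x y).neighborSet none := by
      rintro z (h | h)
      · rw [h]; exact Or.inl rfl
      · rw [Set.mem_singleton_iff] at h
        rw [h]; exact Or.inr rfl
    have h2 := Set.ncard_le_ncard h1 (Set.toFinite _)
    rw [Set.ncard_pair] at h2
    · omega
    · intro h
      exact hxy.ne (Option.some_injective W h)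
  · intro z
    unfold Leaf
    have key : (sub T x y).neighborSet (some z) =
        (fun v => if s(z, v) = s(x, y) then (none : Option W) else some v) '' T.neighborSet z := by
      ext o
      rw [mem_neighborSet]
      constructor
      · intro h
        rcases o with _ | v
        · rcases h with h | h
          · refine ⟨y, ?_, ?_⟩
            · rw [mem_neighborSet, h]; exact hxy
            · simp [h]
          · refine ⟨x, ?_, ?_⟩
            · rw [mem_neighborSet, h]; exact hxy.symm
            · simp [h, Sym2.eq_swap]
        · exact ⟨v, h.1, by simp only [if_neg h.2]⟩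
      · rintro ⟨v, hv, rfl⟩
        rw [mem_neighborSet] at hv
        by_cases he : s(z, v) = s(x, y)
        · simp only [if_pos he]
          rw [Sym2.eq_iff] at he
          rcases he with h | h
          · exact Or.inl h.1
          · exact Or.inr h.1
        · simp only [if_neg he]
          exact ⟨hv, he⟩
    rw [key, Set.ncard_image_of_injOn]
    intro v _ v' _ hvv
    by_cases h1 : s(z, v) = s(x, y)
    · by_cases h2 : s(z, v') = s(x, y)
      · have h3 : s(z, v) = s(z, v') := h1.trans h2.symm
        rw [Sym2.eq_iff] at h3
        rcases h3 with h | h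
        · exact h.2
        · exact h.2.trans h.1
      · simp only [if_pos h1, if_neg h2] at hvv
        exact absurd hvv (by simp)
    · by_cases h2 : s(z, v') = s(x, y)
      · simp only [if_neg h1, if_pos h2] at hvv
        exact absurd hvv (by simp)
      · simp only [if_neg h1, if_neg h2] at hvv
        exact Option.some_injective W hvv

end Pool.Agent.PCG.TT
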