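import Pool.Agent.Work.MP_9390ab_lc.TT.Stmts

/-!
# MP_9390ab_lc, block TT, item SX
-/

set_option autoImplicit false

namespace Pool.Agent.PCG.TT

open SimpleGraph Pool.Agent.PCG

namespace ISX

/-- change of the names of the leaves -/
def relab {V V' : Type} (M : WTree V) (e : V' ≃ V) : WTree V' where
  W := M.W
  finite := M.finite
  T := M.T
  isTree := M.isTree
  wt := M.wt
  wt_pos := M.wt_pos
  leaf := M.leaf ∘ e
  leaf_injective := M.leaf_injective.comp e.injective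
  mem_range_leaf := fun x => by
    rw [← M.mem_range_leaf, EquivLike.range_comp]
  dmin := M.dmin
  dmax := M.dmax
  dmin_nonneg := M.dmin_nonneg
  dmin_le_dmax := M.dmin_le_dmax

theorem relab_adj {V V' : Type} (M : WTree V) (e : V' ≃ V) (u v : V') :
    (relab M e).graph.Adj u v ↔ M.graph.Adj (e u) (e v) :=
  and_congr (not_congr e.injective.eq_iff.symm) Iff.rfl

theorem iso {V V' : Type} {G : SimpleGraph V} {G' : SimpleGraph V'} (e : V' ≃ V)
    (h : ∀ u v, G'.Adj u v ↔ G.Adj (e u) (e v)) (hG : IsPCG G) : IsPCG G' := by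
  obtain ⟨M, hM⟩ := hG
  refine ⟨relab M e, ?_⟩
  ext u v
  rw [relab_adj, hM, h]

theorem tw {V : Type} {G : SimpleGraph V} {B : Set V} {u v : V} (hu : u ∈ B) (hv : v ∈ B)
    (h : Tw G u v) : Tw (G.induce B) ⟨u, hu⟩ ⟨v, hv⟩ :=
  fun w h1 h2 => h w.1 (fun h3 => h1 (Subtype.ext h3)) (fun h3 => h2 (Subtype.ext h3))

theorem ne {V : Type} {B : Set V} {u v : V} (hu : u ∈ B) (hv : v ∈ B) (h : u ≠ v) :
    (⟨u, hu⟩ : B) ≠ ⟨v, hv⟩ := fun h2 => h (congrArg Subtype.val h2)

/-- one more vertex -/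
theorem step (h1 : StEX) {V : Type} [Finite V] (G : SimpleGraph V) (S A : Set V)
    (hS : S.Nonempty) (hSA : S ⊆ A) (v : V) (hv : v ∉ A)
    (ht : FalseTwin G S v ∨ TrueTwins G S v) (hA : IsPCG (G.induce A)) :
    IsPCG (G.induce (insert v A)) := by
  have hvB : v ∈ insert v A := Set.mem_insert v A
  have hAB : ∀ u, u ∈ A → u ∈ insert v A := fun u hu => Set.mem_insert_of_mem v hu
  have hSB : ∀ u, u ∈ S → u ∈ insert v A := fun u hu => hAB u (hSA hu)
  have hne : ∀ u, u ∈ A → u ≠ v := fun u hu h => hv (h ▸ hu)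
  have key := h1 (insert v A : Set V) inferInstance (G.induce (insert v A)) ⟨v, hvB⟩ (by
    obtain ⟨u, hu⟩ := hS
    exact ⟨⟨u, hSB u hu⟩, ne _ _ (hne u (hSA hu))⟩) (by
    rcases ht with ⟨u, hu, h2, h3, h4⟩ |
      ⟨v1, a1, v2, a2, v3, a3, n12, n13, n23, n1, n2, n3, t1, t2, t3, d1, d2, d3⟩
    · left
      exact ⟨⟨u, hSB u hu⟩, Set.mem_univ _, ne _ _ h2, tw _ _ h3, h4⟩
    · right
      exact ⟨⟨v1, hSB v1 a1⟩, Set.mem_univ _, ⟨v2, hSB v2 a2⟩, Set.mem_univ _,
        ⟨v3, hSB v3 a3⟩, Set.mem_univ _, ne _ _ n12, ne _ _ n13, ne _ _ n23, ne _ _ n1,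
        ne _ _ n2, ne _ _ n3, tw _ _ t1, tw _ _ t2, tw _ _ t3, d1, d2, d3⟩)
  refine key.2 ?_
  let e : {u : (insert v A : Set V) | u ≠ ⟨v, hvB⟩} ≃ A :=
    { toFun := fun x => ⟨x.1.1, by
        rcases Set.mem_insert_iff.1 x.1.2 with h | h
        · exact absurd (Subtype.ext h) x.2
        · exact h⟩
      invFun := fun a => ⟨⟨a.1, hAB a.1 a.2⟩, ne _ _ (hne a.1 a.2)⟩
      left_inv := fun x => rfl
      right_inv := fun a => rfl }
  exact iso e (fun u w => Iff.rfl) hA

end ISX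

/-- Item SX. -/
theorem pr_SX (h1 : StEX) : StSX := by
  intro V hfin G S hS ht hG
  have key : ∀ (n : ℕ) (A : Set V), S ⊆ A → Aᶜ.ncard = n → IsPCG (G.induce A) → IsPCG G := by
    intro n
    induction n with
    | zero =>
      intro A _ h0 hA
      rw [Set.ncard_eq_zero, Set.compl_empty_iff] at h0
      subst h0
      exact ISX.iso (Equiv.Set.univ V).symm (fun u v => Iff.rfl) hA
    | succ n ih =>
      intro A hSA hn hA
      have hne : (Aᶜ).Nonempty := by
        rw [← Set.ncard_pos, hn]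
        omega
      obtain ⟨v, hv⟩ := hne
      refine ih (insert v A) (hSA.trans (Set.subset_insert v A)) ?_
        (ISX.step h1 G S A hS hSA v hv (ht v fun h => hv (hSA h)) hA)
      have e1 : (insert v A)ᶜ = Aᶜ \ {v} := by
        ext x
        simp only [Set.mem_compl_iff, Set.mem_insert_iff, Set.mem_diff, Set.mem_singleton_iff]
        tauto
      rw [e1, Set.ncard_diff_singleton_of_mem hv, hn]
      rfl
  exact key _ S subset_rfl rfl hG

end Pool.Agent.PCG.TT
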