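import Pool.Agent.Work.MP_9390ab_lc.TT.Stmts

/-!
# MP_9390ab_lc, block TT, item TD: distances are positive
-/

set_option autoImplicit false

namespace Pool.Agent.PCG.TT

open SimpleGraph Pool.Agent.PCG

namespace ITD

theorem sum_pos {W : Type} {T : SimpleGraph W} {w : Sym2 W → ℝ} (hw : ∀ e ∈ T.edgeSet, 0 < w e)
    {x y : W} (p : T.Walk x y) (h : x ≠ y) : 0 < (p.edges.map w).sum := by
  have h0 : ∀ {x y : W} (p : T.Walk x y), 0 ≤ (p.edges.map w).sum := by
    intro x y p
    apply List.sum_nonneg
    intro a ha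
    obtain ⟨e, he, rfl⟩ := List.mem_map.1 ha
    exact (hw e (p.edges_subset_edgeSet he)).le
  cases p with
  | nil => exact absurd rfl h
  | cons hadj q =>
    rw [Walk.edges_cons, List.map_cons, List.sum_cons]
    have h1 := hw _ ((mem_edgeSet T).2 hadj)
    have h2 := h0 q
    linarith

end ITD

theorem pr_TD : StTD := by
  intro W T hT w hw x y
  constructor
  · rw [treeDist_eq hT w (Walk.nil : T.Walk x x) Walk.IsPath.nil]
    simp
  · intro hxy
    obtain ⟨p, hp⟩ := hT.connected.exists_isPath x y
    rw [treeDist_eq hT w p hp]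
    exact ITD.sum_pos hw p hxy

end Pool.Agent.PCG.TT
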