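import Pool.Agent.Work.MP_9390ab_lc.TT.Stmts

/-!
# Item TR: a fourth true twin
-/

set_option autoImplicit false

namespace Pool.Agent.PCG.TT

open SimpleGraph Pool.Agent.PCG

namespace ITR

theorem tw_symm {V : Type} {G : SimpleGraph V} {u v : V} (h : Tw G u v) : Tw G v u :=
  fun w h1 h2 => (h w h2 h1).symm

theorem tw_eq {V : Type} {G : SimpleGraph V} {a b : V} (hab : G.Adj a b) (h : Tw G a b) (u : V) :
    (u = a ∨ G.Adj a u) ↔ (u = b ∨ G.Adj b u) := by
  by_cases h1 : u = a
  · subst h1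
    exact ⟨fun _ => Or.inr hab.symm, fun _ => Or.inl rfl⟩
  · by_cases h2 : u = b
    · subst h2
      exact ⟨fun _ => Or.inl rfl, fun _ => Or.inr hab⟩
    · have h3 := h u h1 h2
      constructor
      · rintro (h4 | h4)
        · exact absurd h4 h1
        · exact Or.inr (h3.mp h4)
      · rintro (h4 | h4)
        · exact absurd h4 h2
        · exact Or.inr (h3.mpr h4)

/-- The facts on three twins and their median. -/
structure Tri {V : Type} (M : WTree V) (t : V → ℝ) (a b c : V) : Prop where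
  ab : M.graph.Adj a b
  ac : M.graph.Adj a c
  bc : M.graph.Adj b c
  tab : Tw M.graph a b
  tac : Tw M.graph a c
  tbc : Tw M.graph b c
  dab : M.dist a b = t a + t b
  dac : M.dist a c = t a + t c
  dbc : M.dist b c = t b + t c
  tri : ∀ u, (M.dist u a = t u + t a ∧ M.dist u b = t u + t b) ∨
    (M.dist u a = t u + t a ∧ M.dist u c = t u + t c) ∨
    (M.dist u b = t u + t b ∧ M.dist u c = t u + t c)

theorem Tri.swap12 {V : Type} {M : WTree V} {t : V → ℝ} {a b c : V} (h : Tri M t a b c) :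
    Tri M t b a c where
  ab := h.ab.symm
  ac := h.bc
  bc := h.ac
  tab := tw_symm h.tab
  tac := h.tbc
  tbc := h.tac
  dab := by rw [M.dist_comm, h.dab, add_comm]
  dac := h.dbc
  dbc := h.dac
  tri := by
    intro u
    rcases h.tri u with h1 | h1 | h1
    · exact Or.inl ⟨h1.2, h1.1⟩
    · exact Or.inr (Or.inr h1)
    · exact Or.inr (Or.inl h1)

theorem Tri.swap23 {V : Type} {M : WTree V} {t : V → ℝ} {a b c : V} (h : Tri M t a b c) :
    Tri M t a c b where
  ab := h.ac
  ac := h.ab
  bc := h.bc.symm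
  tab := h.tac
  tac := h.tab
  tbc := tw_symm h.tbc
  dab := h.dac
  dac := h.dab
  dbc := by rw [M.dist_comm, h.dbc, add_comm]
  tri := by
    intro u
    rcases h.tri u with h1 | h1 | h1
    · exact Or.inr (Or.inl h1)
    · exact Or.inl h1
    · exact Or.inr (Or.inr ⟨h1.2, h1.1⟩)

/-- The middle one of the three twins gives the length of the new edge. -/
theorem Tri.mid {V : Type} {M : WTree V} {t : V → ℝ} {a b c : V} (h : Tri M t a b c)
    (h1 : t a ≤ t b) (h2 : t b ≤ t c) (u : V) :
    (M.dmin ≤ t b + t u ∧ t b + t u ≤ M.dmax) ↔ (u = b ∨ M.graph.Adj b u) := by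
  obtain ⟨_, p1, p2⟩ := h.ab
  obtain ⟨_, q1, q2⟩ := h.bc
  rw [h.dab] at p1 p2
  rw [h.dbc] at q1 q2
  by_cases hub : u = b
  · subst hub
    exact ⟨fun _ => Or.inl rfl, fun _ => ⟨by linarith, by linarith⟩⟩
  by_cases hua : u = a
  · subst hua
    exact ⟨fun _ => Or.inr h.ab.symm, fun _ => ⟨by linarith, by linarith⟩⟩
  by_cases huc : u = c
  · subst huc
    exact ⟨fun _ => Or.inr h.bc, fun _ => ⟨by linarith, by linarith⟩⟩
  have hadj : ∀ x, u ≠ x → (M.graph.Adj x u ↔ (M.dmin ≤ M.dist u x ∧ M.dist u x ≤ M.dmax)) := by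
    intro x hx
    rw [M.dist_comm u x]
    exact ⟨fun h => h.2, fun h => ⟨hx.symm, h⟩⟩
  have hA := hadj a hua
  have hB := hadj b hub
  have hC := hadj c huc
  have t1 := h.tab u hua hub
  have t2 := h.tbc u hub huc
  rw [hA, hB] at t1
  rw [hB, hC] at t2
  have hR : (u = b ∨ M.graph.Adj b u) ↔ (M.dmin ≤ M.dist u b ∧ M.dist u b ≤ M.dmax) := by
    rw [hB]
    exact ⟨fun h => h.resolve_left hub, Or.inr⟩
  rw [hR]
  rcases h.tri u with ⟨_, h3⟩ | ⟨h3, h4⟩ | ⟨h3, _⟩
  · rw [h3, add_comm]
  · rw [h3] at t1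
    rw [h4] at t2
    constructor
    · rintro ⟨r1, r2⟩
      by_contra hno
      have n1 : ¬ (M.dmin ≤ t u + t a ∧ t u + t a ≤ M.dmax) := fun hh => hno (t1.mp hh)
      have n2 : ¬ (M.dmin ≤ t u + t c ∧ t u + t c ≤ M.dmax) := fun hh => hno (t2.mpr hh)
      have m1 : t u + t a < M.dmin := by
        by_contra hc
        push Not at hc
        exact n1 ⟨hc, by linarith⟩
      have m2 : M.dmax < t u + t c := by
        by_contra hc
        push Not at hc
        exact n2 ⟨by linarith, hc⟩
      linarith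
    · intro hh
      obtain ⟨r1, r2⟩ := t1.mpr hh
      obtain ⟨s1, s2⟩ := t2.mp hh
      exact ⟨by linarith, by linarith⟩
  · rw [h3, add_comm]

/-- A new leaf at the vertex `c`. -/
theorem build (h4 : StAL) {V : Type} (M : WTree V) (c : M.W) (a : ℝ) (ha : 0 < a)
    (hc : ¬ Leaf M.T c) : ∃ M' : WTree (Option V),
    (∀ u v, M'.graph.Adj (some u) (some v) ↔ M.graph.Adj u v) ∧
    ∀ u, M'.graph.Adj none (some u) ↔ (M.dmin ≤ a + treeDist M.isTree M.wt c (M.leaf u) ∧
      a + treeDist M.isTree M.wt c (M.leaf u) ≤ M.dmax) := by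
  haveI := M.finite
  obtain ⟨T', hT', w', e1, e2, e3, e4, e5, e6, _⟩ := h4 M.W M.finite M.T M.isTree M.wt c a M.wt_pos ha
  have hy : ∃ y, M.T.Adj c y := by
    by_contra hno
    push Not at hno
    apply hc
    have h0 : M.T.neighborSet c = ∅ := by
      ext y
      simp only [mem_neighborSet, Set.mem_empty_iff_false, iff_false]
      exact hno y
    unfold Leaf
    rw [h0, Set.ncard_empty]
    exact Nat.zero_le 1
  obtain ⟨y, hy⟩ := hy
  let M' : WTree (Option V) :=
    { W := Option M.W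
      finite := inferInstance
      T := T'
      isTree := hT'
      wt := w'
      wt_pos := e1
      leaf := Option.map M.leaf
      leaf_injective := Option.map_injective M.leaf_injective
      mem_range_leaf := by
        intro o
        change o ∈ Set.range (Option.map M.leaf) ↔ Leaf T' o
        rcases o with _ | x
        · exact ⟨fun _ => e4, fun _ => ⟨none, rfl⟩⟩
        · have h1 : (some x ∈ Set.range (Option.map M.leaf)) ↔ x ∈ Set.range M.leaf := by
            constructor
            · rintro ⟨o, ho⟩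
              rcases o with _ | u
              · cases ho
              · exact ⟨u, Option.some.inj ho⟩
            · rintro ⟨u, rfl⟩
              exact ⟨some u, rfl⟩
          rw [h1, M.mem_range_leaf]
          change Leaf M.T x ↔ Leaf T' (some x)
          by_cases hxc : x = c
          · subst hxc
            exact ⟨fun h => absurd h hc, fun h => absurd h (e6 y hy)⟩
          · exact (e5 x hxc).symm
      dmin := M.dmin
      dmax := M.dmax
      dmin_nonneg := M.dmin_nonneg
      dmin_le_dmax := M.dmin_le_dmax }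
  refine ⟨M', ?_, ?_⟩
  · intro u v
    have hd : M'.dist (some u) (some v) = M.dist u v := e2 _ _
    constructor
    · rintro ⟨h1, h2, h3⟩
      rw [hd] at h2 h3
      exact ⟨fun h => h1 (by rw [h]), h2, h3⟩
    · rintro ⟨h1, h2, h3⟩
      refine ⟨fun h => h1 (Option.some.inj h), ?_, ?_⟩
      · rw [hd]
        exact h2
      · rw [hd]
        exact h3
  · intro u
    have hd : M'.dist none (some u) = a + treeDist M.isTree M.wt c (M.leaf u) := e3 _
    constructor
    · rintro ⟨_, h2, h3⟩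
      rw [hd] at h2 h3
      exact ⟨h2, h3⟩
    · rintro ⟨h2, h3⟩
      refine ⟨(Option.some_ne_none u).symm, ?_, ?_⟩
      · rw [hd]
        exact h2
      · rw [hd]
        exact h3

/-- The ordered case. -/
theorem step (h4 : StAL) (h5 : StTD) {V : Type} (M : WTree V) (c : M.W) (hc : ¬ Leaf M.T c)
    (x y z : V) (hT : Tri M (fun u => treeDist M.isTree M.wt c (M.leaf u)) x y z)
    (h1 : treeDist M.isTree M.wt c (M.leaf x) ≤ treeDist M.isTree M.wt c (M.leaf y))
    (h2 : treeDist M.isTree M.wt c (M.leaf y) ≤ treeDist M.isTree M.wt c (M.leaf z)) :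
    ∃ M' : WTree (Option V), (∀ u v, M'.graph.Adj (some u) (some v) ↔ M.graph.Adj u v) ∧
    ∀ u, M'.graph.Adj none (some u) ↔ (u = y ∨ M.graph.Adj y u) := by
  have hcy : c ≠ M.leaf y := by
    intro h
    apply hc
    rw [h]
    exact (M.mem_range_leaf _).mp ⟨y, rfl⟩
  have hpos : 0 < treeDist M.isTree M.wt c (M.leaf y) :=
    (h5 M.W M.T M.isTree M.wt M.wt_pos c (M.leaf y)).2 hcy
  obtain ⟨M', m1, m2⟩ := build h4 M c _ hpos hc
  refine ⟨M', m1, ?_⟩
  intro u
  rw [m2 u]
  exact hT.mid h1 h2 u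

end ITR

open ITR in
theorem pr_TR (h1 : StTA) (h2 : StMD) (h3 : StNL) (h4 : StAL) (h5 : StTD) : StTR := by
  intro V M v1 v2 v3 n12 n13 n23 a12 a13 a23 t12 t13 t23
  obtain ⟨c, c12, c13, c23, ctri⟩ := h2 M.W M.T M.isTree (M.leaf v1) (M.leaf v2) (M.leaf v3)
  have hc : ¬ Leaf M.T c := h3 M.W M.finite M.T M.isTree (M.leaf v1) (M.leaf v2) (M.leaf v3) c
    (fun h => n12 (M.leaf_injective h)) (fun h => n13 (M.leaf_injective h))
    (fun h => n23 (M.leaf_injective h)) c12 c13 c23
  have key : ∀ u v : V, On M.T (M.leaf u) (M.leaf v) c → M.dist u v =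
      treeDist M.isTree M.wt c (M.leaf u) + treeDist M.isTree M.wt c (M.leaf v) := by
    intro u v h
    have h6 := h1 M.W M.T M.isTree M.wt (M.leaf u) (M.leaf v) c h
    rw [treeDist_comm M.isTree M.wt (M.leaf u) c] at h6
    exact h6
  have hT : Tri M (fun u => treeDist M.isTree M.wt c (M.leaf u)) v1 v2 v3 :=
    { ab := a12
      ac := a13
      bc := a23
      tab := t12
      tac := t13
      tbc := t23
      dab := key _ _ c12
      dac := key _ _ c13
      dbc := key _ _ c23
      tri := by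
        intro u
        rcases ctri (M.leaf u) with ⟨h6, h7⟩ | ⟨h6, h7⟩ | ⟨h6, h7⟩
        · exact Or.inl ⟨key _ _ h6, key _ _ h7⟩
        · exact Or.inr (Or.inl ⟨key _ _ h6, key _ _ h7⟩)
        · exact Or.inr (Or.inr ⟨key _ _ h6, key _ _ h7⟩) }
  have e2 := tw_eq a12 t12
  have e3 := tw_eq a13 t13
  rcases le_total (treeDist M.isTree M.wt c (M.leaf v1)) (treeDist M.isTree M.wt c (M.leaf v2))
    with l12 | l12
  · rcases le_total (treeDist M.isTree M.wt c (M.leaf v2)) (treeDist M.isTree M.wt c (M.leaf v3))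
      with l23 | l23
    · obtain ⟨M', m1, m2⟩ := step h4 h5 M c hc v1 v2 v3 hT l12 l23
      exact ⟨M', m1, fun u => (m2 u).trans (e2 u).symm⟩
    · rcases le_total (treeDist M.isTree M.wt c (M.leaf v1)) (treeDist M.isTree M.wt c (M.leaf v3))
        with l13 | l13
      · obtain ⟨M', m1, m2⟩ := step h4 h5 M c hc v1 v3 v2 hT.swap23 l13 l23
        exact ⟨M', m1, fun u => (m2 u).trans (e3 u).symm⟩
      · obtain ⟨M', m1, m2⟩ := step h4 h5 M c hc v3 v1 v2 hT.swap23.swap12 l13 l12
        exact ⟨M', m1, m2⟩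
  · rcases le_total (treeDist M.isTree M.wt c (M.leaf v1)) (treeDist M.isTree M.wt c (M.leaf v3))
      with l13 | l13
    · obtain ⟨M', m1, m2⟩ := step h4 h5 M c hc v2 v1 v3 hT.swap12 l12 l13
      exact ⟨M', m1, m2⟩
    · rcases le_total (treeDist M.isTree M.wt c (M.leaf v2)) (treeDist M.isTree M.wt c (M.leaf v3))
        with l23 | l23
      · obtain ⟨M', m1, m2⟩ := step h4 h5 M c hc v2 v3 v1 hT.swap12.swap23 l23 l13
        exact ⟨M', m1, fun u => (m2 u).trans (e3 u).symm⟩
      · obtain ⟨M', m1, m2⟩ := step h4 h5 M c hc v3 v2 v1 hT.swap12.swap23.swap12 l23 l12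
        exact ⟨M', m1, fun u => (m2 u).trans (e2 u).symm⟩

end Pool.Agent.PCG.TT
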