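import Pool.Agent.Work.MP_9390ab_lc.TT.Stmts2
import Pool.Agent.Work.MP_9390ab_lc.TT.I_TR

/-!
# Item TS: a third true twin
-/

set_option autoImplicit false

namespace Pool.Agent.PCG.TT

open SimpleGraph Pool.Agent.PCG

namespace ITS

/-- The midpoint is a vertex of the tree. -/
theorem core (h2 : StAL) (h3 : StOT) (h4 : StTA) (h5 : StTD) {V : Type} (M : WTree V) (v1 v2 : V)
    (hne : v1 ≠ v2) (hadj : M.graph.Adj v1 v2) (htw : Tw M.graph v1 v2) (c : M.W)
    (hc : ¬ Leaf M.T c) (hon : On M.T (M.leaf v1) (M.leaf v2) c)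
    (d1 : treeDist M.isTree M.wt (M.leaf v1) c = M.dist v1 v2 / 2)
    (d2 : treeDist M.isTree M.wt (M.leaf v2) c = M.dist v1 v2 / 2) :
    ∃ M' : WTree (Option V),
      (∀ u v, M'.graph.Adj (some u) (some v) ↔ M.graph.Adj u v) ∧
      ∀ u, M'.graph.Adj none (some u) ↔ (u = v1 ∨ M.graph.Adj v1 u) := by
  have hL : 0 < M.dist v1 v2 :=
    (h5 M.W M.T M.isTree M.wt M.wt_pos (M.leaf v1) (M.leaf v2)).2 (fun h => hne (M.leaf_injective h))
  obtain ⟨M', m1, m2⟩ := ITR.build h2 M c (M.dist v1 v2 / 2) (by linarith) hc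
  refine ⟨M', m1, ?_⟩
  intro u
  rw [m2 u, treeDist_comm M.isTree M.wt c (M.leaf u)]
  obtain ⟨_, p1, p2⟩ := hadj
  by_cases hu1 : u = v1
  · subst hu1
    rw [d1]
    exact ⟨fun _ => Or.inl rfl, fun _ => ⟨by linarith, by linarith⟩⟩
  by_cases hu2 : u = v2
  · subst hu2
    rw [d2]
    exact ⟨fun _ => Or.inr ⟨hne, p1, p2⟩, fun _ => ⟨by linarith, by linarith⟩⟩
  have hA : ∀ x, u ≠ x → (M.graph.Adj x u ↔ (M.dmin ≤ M.dist u x ∧ M.dist u x ≤ M.dmax)) := by
    intro x hx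
    rw [M.dist_comm u x]
    exact ⟨fun h => h.2, fun h => ⟨hx.symm, h⟩⟩
  have t1 := htw u hu1 hu2
  have hR : (u = v1 ∨ M.graph.Adj v1 u) ↔ M.graph.Adj v1 u :=
    ⟨fun h => h.resolve_left hu1, Or.inr⟩
  rw [hR]
  rcases h3 M.W M.T M.isTree (M.leaf v1) (M.leaf v2) c (M.leaf u) hon with h | h
  · have e := h4 M.W M.T M.isTree M.wt (M.leaf u) (M.leaf v1) c h
    rw [treeDist_comm M.isTree M.wt c (M.leaf v1), d1] at e
    have e' : M.dist u v1 = treeDist M.isTree M.wt (M.leaf u) c + M.dist v1 v2 / 2 := e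
    rw [hA v1 hu1, e', add_comm]
  · have e := h4 M.W M.T M.isTree M.wt (M.leaf u) (M.leaf v2) c h
    rw [treeDist_comm M.isTree M.wt c (M.leaf v2), d2] at e
    have e' : M.dist u v2 = treeDist M.isTree M.wt (M.leaf u) c + M.dist v1 v2 / 2 := e
    rw [t1, hA v2 hu2, e', add_comm]

end ITS

open ITS in
theorem pr_TS (h1 : StMI) (h2 : StAL) (h3 : StOT) (h4 : StTA) (h5 : StTD) : StTS := by
  intro V M v1 v2 hne hadj htw
  obtain ⟨W', hfin, T', hT', w', f, c, hf, hpos, hdist, hleaf, hc, hon, d1, d2⟩ :=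
    h1 M.W M.finite M.T M.isTree M.wt (M.leaf v1) (M.leaf v2) M.wt_pos
      (fun h => hne (M.leaf_injective h))
  let M1 : WTree V :=
    { W := W'
      finite := hfin
      T := T'
      isTree := hT'
      wt := w'
      wt_pos := hpos
      leaf := fun v => f (M.leaf v)
      leaf_injective := fun a b h => M.leaf_injective (hf h)
      mem_range_leaf := by
        intro x
        change x ∈ Set.range (fun v => f (M.leaf v)) ↔ Leaf T' x
        rw [hleaf x]
        constructor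
        · rintro ⟨v, rfl⟩
          exact ⟨M.leaf v, (M.mem_range_leaf _).mp ⟨v, rfl⟩, rfl⟩
        · rintro ⟨y, hy, rfl⟩
          obtain ⟨v, rfl⟩ := (M.mem_range_leaf y).mpr hy
          exact ⟨v, rfl⟩
      dmin := M.dmin
      dmax := M.dmax
      dmin_nonneg := M.dmin_nonneg
      dmin_le_dmax := M.dmin_le_dmax }
  have hd : ∀ u v, M1.dist u v = M.dist u v := fun u v => hdist _ _
  have hg : ∀ u v, M1.graph.Adj u v ↔ M.graph.Adj u v := by
    intro u v
    constructor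
    · rintro ⟨a, b, c'⟩
      rw [hd] at b c'
      exact ⟨a, b, c'⟩
    · rintro ⟨a, b, c'⟩
      refine ⟨a, ?_, ?_⟩
      · rw [hd]
        exact b
      · rw [hd]
        exact c'
  have htw' : Tw M1.graph v1 v2 := by
    intro w hw1 hw2
    rw [hg, hg]
    exact htw w hw1 hw2
  obtain ⟨M', m1, m2⟩ := core h2 h3 h4 h5 M1 v1 v2 hne ((hg _ _).2 hadj) htw' c hc hon
    (by rw [hd]; exact d1) (by rw [hd]; exact d2)
  refine ⟨M', fun u v => (m1 u v).trans (hg u v), fun u => ?_⟩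
  rw [m2 u, hg]

end Pool.Agent.PCG.TT
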