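import Pool.Agent.Work.MP_9390ab_lc.TT.I_TA
import Pool.Agent.Work.MP_9390ab_lc.TT.I_MD
import Pool.Agent.Work.MP_9390ab_lc.TT.I_AL
import Pool.Agent.Work.MP_9390ab_lc.TT.I_TD
import Pool.Agent.Work.MP_9390ab_lc.TT.I_FT
import Pool.Agent.Work.MP_9390ab_lc.TT.I_LR
import Pool.Agent.Work.MP_9390ab_lc.TT.I_HD
import Pool.Agent.Work.MP_9390ab_lc.TT.I_SD
import Pool.Agent.Work.MP_9390ab_lc.TT.I_OT
import Pool.Agent.Work.MP_9390ab_lc.TT.I_OD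
import Pool.Agent.Work.MP_9390ab_lc.TT.I_IN
import Pool.Agent.Work.MP_9390ab_lc.TT.I_MC
import Pool.Agent.Work.MP_9390ab_lc.TT.I_MI
import Pool.Agent.Work.MP_9390ab_lc.TT.I_TS
import Pool.Agent.Work.MP_9390ab_lc.TT.I_EY
import Pool.Agent.Work.MP_9390ab_lc.TT.I_SY
import Pool.Agent.Work.MP_9390ab_lc.TT.I_KY
import Pool.Agent.Work.MP_9390ab_lc.TT.I_FY

/-!
# MP_9390ab_lc, block TT: assembly
-/

set_option autoImplicit false

namespace Pool.Agent.PCG.TT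

theorem all_HD : StHD := pr_HD pr_LR

theorem all_MI : StMI := pr_MI pr_SD (pr_MC pr_TD) (pr_OD pr_TA pr_MD pr_TD) pr_IN pr_TA pr_TD

theorem all_EY : StEY :=
  pr_EY (pr_TS all_MI pr_AL pr_OT pr_TA pr_TD) (pr_FT pr_AL pr_TD) all_HD

theorem all_FY : StFY := pr_FY all_EY (pr_SY all_EY) pr_KY all_HD

end Pool.Agent.PCG.TT
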