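import Pool.Agent.Work.MP_9390ab_lc.TT.Stmts3

/-!
# MP_9390ab_lc, block TT, item GJ: two trees joined by an edge
-/

set_option autoImplicit false

namespace Pool.Agent.PCG.TT

open SimpleGraph Pool.Agent.PCG

namespace BGJ

variable {W1 W2 : Type}

/-- adjacency in the joined tree -/
def AdjJ (T1 : SimpleGraph W1) (T2 : SimpleGraph W2) (c : W1) (r : W2) : W1 ⊕ W2 → W1 ⊕ W2 → Prop
  | Sum.inl x, Sum.inl y => T1.Adj x y
  | Sum.inr x, Sum.inr y => T2.Adj x y
  | Sum.inl x, Sum.inr y => x = c ∧ y = r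
  | Sum.inr y, Sum.inl x => x = c ∧ y = r

/-- the joined tree -/
def join (T1 : SimpleGraph W1) (T2 : SimpleGraph W2) (c : W1) (r : W2) : SimpleGraph (W1 ⊕ W2) where
  Adj := AdjJ T1 T2 c r
  symm := ⟨by
    intro x y h
    cases x <;> cases y
    · exact SimpleGraph.Adj.symm (G := T1) h
    · exact h
    · exact h
    · exact SimpleGraph.Adj.symm (G := T2) h⟩
  loopless := ⟨by
    intro x h
    cases x
    · exact T1.loopless.irrefl _ h
    · exact T2.loopless.irrefl _ h⟩

theorem adj_ll (T1 : SimpleGraph W1) (T2 : SimpleGraph W2) (c : W1) (r : W2) (x y : W1) :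
    (join T1 T2 c r).Adj (Sum.inl x) (Sum.inl y) ↔ T1.Adj x y := Iff.rfl

theorem adj_rr (T1 : SimpleGraph W1) (T2 : SimpleGraph W2) (c : W1) (r : W2) (x y : W2) :
    (join T1 T2 c r).Adj (Sum.inr x) (Sum.inr y) ↔ T2.Adj x y := Iff.rfl

theorem adj_lr (T1 : SimpleGraph W1) (T2 : SimpleGraph W2) (c : W1) (r : W2) (x : W1) (y : W2) :
    (join T1 T2 c r).Adj (Sum.inl x) (Sum.inr y) ↔ (x = c ∧ y = r) := Iff.rfl

theorem adj_rl (T1 : SimpleGraph W1) (T2 : SimpleGraph W2) (c : W1) (r : W2) (x : W1) (y : W2) :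
    (join T1 T2 c r).Adj (Sum.inr y) (Sum.inl x) ↔ (x = c ∧ y = r) := Iff.rfl

/-- inclusions -/
def incl (T1 : SimpleGraph W1) (T2 : SimpleGraph W2) (c : W1) (r : W2) : T1 →g join T1 T2 c r where
  toFun := Sum.inl
  map_rel' := fun {a b} h => (adj_ll T1 T2 c r a b).2 h

def incr (T1 : SimpleGraph W1) (T2 : SimpleGraph W2) (c : W1) (r : W2) : T2 →g join T1 T2 c r where
  toFun := Sum.inr
  map_rel' := fun {a b} h => (adj_rr T1 T2 c r a b).2 h

theorem edges_eq (T1 : SimpleGraph W1) (T2 : SimpleGraph W2) (c : W1) (r : W2) :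
    (join T1 T2 c r).edgeSet = insert s(Sum.inl c, Sum.inr r)
      (Sym2.map Sum.inl '' T1.edgeSet ∪ Sym2.map Sum.inr '' T2.edgeSet) := by
  ext e
  induction e using Sym2.ind with
  | _ a b =>
    rw [mem_edgeSet]
    simp only [Set.mem_insert_iff, Set.mem_union, Set.mem_image]
    cases a with
    | inl x =>
      cases b with
      | inl y =>
        rw [adj_ll]
        constructor
        · intro h; exact Or.inr (Or.inl ⟨s(x, y), h, rfl⟩)
        · rintro (h | ⟨e, he, h⟩ | ⟨e, he, h⟩)
          · simp at h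
          · have : e = s(x, y) := Sym2.map.injective Sum.inl_injective (by rw [h]; rfl)
            rw [this] at he
            exact he
          · induction e using Sym2.ind with
            | _ p q => simp at h
      | inr y =>
        rw [adj_lr]
        constructor
        · rintro ⟨rfl, rfl⟩; exact Or.inl rfl
        · rintro (h | ⟨e, he, h⟩ | ⟨e, he, h⟩)
          · simpa using h
          · induction e using Sym2.ind with
            | _ p q => simp at h
          · induction e using Sym2.ind with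
            | _ p q => simp at h
    | inr y =>
      cases b with
      | inl x =>
        rw [adj_rl]
        constructor
        · rintro ⟨rfl, rfl⟩; exact Or.inl Sym2.eq_swap
        · rintro (h | ⟨e, he, h⟩ | ⟨e, he, h⟩)
          · rw [Sym2.eq_swap] at h
            simpa using h
          · induction e using Sym2.ind with
            | _ p q => simp at h
          · induction e using Sym2.ind with
            | _ p q => simp at h
      | inr x =>
        rw [adj_rr]
        constructor
        · intro h; exact Or.inr (Or.inr ⟨s(y, x), h, rfl⟩)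
        · rintro (h | ⟨e, he, h⟩ | ⟨e, he, h⟩)
          · simp at h
          · induction e using Sym2.ind with
            | _ p q => simp at h
          · have : e = s(y, x) := Sym2.map.injective Sum.inr_injective (by rw [h]; rfl)
            rw [this] at he
            exact he

theorem join_tree [Finite W1] [Finite W2] (T1 : SimpleGraph W1) (T2 : SimpleGraph W2) (c : W1)
    (r : W2) (h1 : T1.IsTree) (h2 : T2.IsTree) : (join T1 T2 c r).IsTree := by
  classical
  rw [isTree_iff_connected_and_card] at h1 h2 ⊢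
  obtain ⟨h1, h1'⟩ := h1
  obtain ⟨h2, h2'⟩ := h2
  constructor
  · have : Nonempty (W1 ⊕ W2) := ⟨Sum.inl c⟩
    refine ⟨?_⟩
    have key : ∀ x : W1 ⊕ W2, (join T1 T2 c r).Reachable x (Sum.inl c) := by
      intro x
      cases x with
      | inl v => exact (h1.preconnected v c).map (incl T1 T2 c r)
      | inr v =>
        exact ((h2.preconnected v r).map (incr T1 T2 c r)).trans
          ((adj_rl T1 T2 c r c r).2 ⟨rfl, rfl⟩).reachable
    intro x y
    exact (key x).trans (key y).symm
  · have n1 : s(Sum.inl c, Sum.inr r) ∉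
        (Sym2.map Sum.inl '' T1.edgeSet ∪ Sym2.map Sum.inr '' T2.edgeSet) := by
      rintro (⟨e, -, h⟩ | ⟨e, -, h⟩)
      · induction e using Sym2.ind with
        | _ p q => simp at h
      · induction e using Sym2.ind with
        | _ p q => simp at h
    have n2 : Disjoint (Sym2.map (Sum.inl : W1 → W1 ⊕ W2) '' T1.edgeSet)
        (Sym2.map Sum.inr '' T2.edgeSet) := by
      rw [Set.disjoint_left]
      rintro e ⟨e1, -, h1⟩ ⟨e2, -, h2⟩
      rw [← h1] at h2
      induction e1 using Sym2.ind with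
      | _ p q =>
        induction e2 using Sym2.ind with
        | _ p' q' => simp at h2
    rw [Nat.card_sum, ← h1', ← h2', Nat.card_coe_set_eq, Nat.card_coe_set_eq,
      Nat.card_coe_set_eq, edges_eq, Set.ncard_insert_of_notMem n1,
      Set.ncard_union_eq n2 (Set.toFinite _) (Set.toFinite _),
      Set.ncard_image_of_injective _ (Sym2.map.injective Sum.inl_injective),
      Set.ncard_image_of_injective _ (Sym2.map.injective Sum.inr_injective)]
    omega

open scoped Classical in
/-- weights -/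
noncomputable def wt (w1 : Sym2 W1 → ℝ) (w2 : Sym2 W2 → ℝ) (c : W1) (r : W2) (l : ℝ)
    (e : Sym2 (W1 ⊕ W2)) : ℝ :=
  if ∀ a ∈ e, a.isLeft = true then w1 (e.map (Sum.elim id (fun _ => c))) else
    if ∀ a ∈ e, a.isRight = true then w2 (e.map (Sum.elim (fun _ => r) id)) else l

theorem wt_l (w1 : Sym2 W1 → ℝ) (w2 : Sym2 W2 → ℝ) (c : W1) (r : W2) (l : ℝ) (e : Sym2 W1) :
    wt w1 w2 c r l (e.map Sum.inl) = w1 e := by
  induction e using Sym2.ind with
  | _ x y =>
    unfold wt
    rw [if_pos (by simp)]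
    rfl

theorem wt_r (w1 : Sym2 W1 → ℝ) (w2 : Sym2 W2 → ℝ) (c : W1) (r : W2) (l : ℝ) (e : Sym2 W2) :
    wt w1 w2 c r l (e.map Sum.inr) = w2 e := by
  induction e using Sym2.ind with
  | _ x y =>
    unfold wt
    rw [if_neg (by simp), if_pos (by simp)]
    rfl

theorem wt_lr (w1 : Sym2 W1 → ℝ) (w2 : Sym2 W2 → ℝ) (c : W1) (r : W2) (l : ℝ) (x : W1) (y : W2) :
    wt w1 w2 c r l s(Sum.inl x, Sum.inr y) = l := by
  unfold wt
  rw [if_neg (by simp), if_neg (by simp)]

theorem sum_l (T1 : SimpleGraph W1) (T2 : SimpleGraph W2) (w1 : Sym2 W1 → ℝ) (w2 : Sym2 W2 → ℝ)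
    (c : W1) (r : W2) (l : ℝ) (x y : W1) (p : T1.Walk x y) :
    ((p.map (incl T1 T2 c r)).edges.map (wt w1 w2 c r l)).sum = (p.edges.map w1).sum := by
  rw [Walk.edges_map, List.map_map]
  congr 1
  apply List.map_congr_left
  intro e _
  exact wt_l w1 w2 c r l e

theorem sum_r (T1 : SimpleGraph W1) (T2 : SimpleGraph W2) (w1 : Sym2 W1 → ℝ) (w2 : Sym2 W2 → ℝ)
    (c : W1) (r : W2) (l : ℝ) (x y : W2) (p : T2.Walk x y) :
    ((p.map (incr T1 T2 c r)).edges.map (wt w1 w2 c r l)).sum = (p.edges.map w2).sum := by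
  rw [Walk.edges_map, List.map_map]
  congr 1
  apply List.map_congr_left
  intro e _
  exact wt_r w1 w2 c r l e

theorem nb_l (T1 : SimpleGraph W1) (T2 : SimpleGraph W2) (c : W1) (r : W2) (x : W1) (hx : x ≠ c) :
    (join T1 T2 c r).neighborSet (Sum.inl x) = Sum.inl '' T1.neighborSet x := by
  ext y
  rw [mem_neighborSet]
  cases y with
  | inl v => rw [adj_ll]; simp
  | inr v => rw [adj_lr]; simp [hx]

theorem nb_r (T1 : SimpleGraph W1) (T2 : SimpleGraph W2) (c : W1) (r : W2) (y : W2) (hy : y ≠ r) :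
    (join T1 T2 c r).neighborSet (Sum.inr y) = Sum.inr '' T2.neighborSet y := by
  ext z
  rw [mem_neighborSet]
  cases z with
  | inl v => rw [adj_rl]; simp [hy]
  | inr v => rw [adj_rr]; simp

theorem sub_l (T1 : SimpleGraph W1) (T2 : SimpleGraph W2) (c : W1) (r : W2) (x : W1) :
    Sum.inl '' T1.neighborSet x ⊆ (join T1 T2 c r).neighborSet (Sum.inl x) := by
  rintro _ ⟨v, hv, rfl⟩
  exact hv

theorem sub_r (T1 : SimpleGraph W1) (T2 : SimpleGraph W2) (c : W1) (r : W2) (x : W2) :
    Sum.inr '' T2.neighborSet x ⊆ (join T1 T2 c r).neighborSet (Sum.inr x) := by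
  rintro _ ⟨v, hv, rfl⟩
  exact hv

end BGJ

open BGJ in
theorem pr_GJ : StGJ := by
  intro W1 W2 _ _ T1 T2 h1 h2 w1 w2 c r l hw1 hw2 hl
  have hT := join_tree T1 T2 c r h1 h2
  refine ⟨join T1 T2 c r, hT, wt w1 w2 c r l, ?_, ?_, ?_, ?_, ?_, ?_, ?_, ?_⟩
  · intro e he
    rw [edges_eq] at he
    rcases he with rfl | ⟨e, he, rfl⟩ | ⟨e, he, rfl⟩
    · rw [wt_lr]; exact hl
    · rw [wt_l]; exact hw1 e he
    · rw [wt_r]; exact hw2 e he
  · intro x y
    obtain ⟨p, hp, -⟩ := h1.existsUnique_path x y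
    have hp' : (p.map (incl T1 T2 c r)).IsPath := hp.map Sum.inl_injective
    have e1 : treeDist hT (wt w1 w2 c r l) (Sum.inl x) (Sum.inl y) =
        ((p.map (incl T1 T2 c r)).edges.map (wt w1 w2 c r l)).sum := treeDist_eq hT _ _ hp'
    rw [e1, sum_l, treeDist_eq h1 w1 p hp]
  · intro x y
    obtain ⟨p, hp, -⟩ := h2.existsUnique_path x y
    have hp' : (p.map (incr T1 T2 c r)).IsPath := hp.map Sum.inr_injective
    have e1 : treeDist hT (wt w1 w2 c r l) (Sum.inr x) (Sum.inr y) =
        ((p.map (incr T1 T2 c r)).edges.map (wt w1 w2 c r l)).sum := treeDist_eq hT _ _ hp'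
    rw [e1, sum_r, treeDist_eq h2 w2 p hp]
  · intro x y
    obtain ⟨p, hp, -⟩ := h1.existsUnique_path x c
    obtain ⟨q, hq, -⟩ := h2.existsUnique_path r y
    have hp' : (p.map (incl T1 T2 c r)).IsPath := hp.map Sum.inl_injective
    have hq' : (q.map (incr T1 T2 c r)).IsPath := hq.map Sum.inr_injective
    have hadj : (join T1 T2 c r).Adj (incl T1 T2 c r c) (incr T1 T2 c r r) :=
      (adj_lr T1 T2 c r c r).2 ⟨rfl, rfl⟩
    have hpath : ((p.map (incl T1 T2 c r)).append
        (Walk.cons hadj (q.map (incr T1 T2 c r)))).IsPath := by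
      rw [Walk.isPath_def, Walk.support_append, Walk.support_cons, List.tail_cons,
        List.nodup_append]
      refine ⟨hp'.support_nodup, hq'.support_nodup, ?_⟩
      intro a ha b hb hab
      subst hab
      rw [Walk.support_map, List.mem_map] at ha hb
      obtain ⟨a1, -, h1⟩ := ha
      obtain ⟨b1, -, h2⟩ := hb
      rw [← h1] at h2
      exact absurd h2 (by simp [incl, incr])
    have e1 : treeDist hT (wt w1 w2 c r l) (Sum.inl x) (Sum.inr y) =
        (((p.map (incl T1 T2 c r)).append
        (Walk.cons hadj (q.map (incr T1 T2 c r)))).edges.map (wt w1 w2 c r l)).sum :=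
      treeDist_eq hT _ _ hpath
    rw [e1, Walk.edges_append, Walk.edges_cons, List.map_append, List.sum_append, List.map_cons,
      List.sum_cons, sum_l, sum_r, treeDist_eq h1 w1 p hp, treeDist_eq h2 w2 q hq]
    have e2 : wt w1 w2 c r l s(incl T1 T2 c r c, incr T1 T2 c r r) = l := wt_lr w1 w2 c r l c r
    rw [e2]
    ring
  · intro x hx
    unfold Leaf
    rw [nb_l T1 T2 c r x hx, Set.ncard_image_of_injective _ Sum.inl_injective]
  · intro y hy
    unfold Leaf
    rw [nb_r T1 T2 c r y hy, Set.ncard_image_of_injective _ Sum.inr_injective]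
  · intro h hl
    apply h
    unfold Leaf at hl ⊢
    have h3 := Set.ncard_le_ncard (sub_l T1 T2 c r c) (Set.toFinite _)
    rw [Set.ncard_image_of_injective _ Sum.inl_injective] at h3
    omega
  · intro h hl
    apply h
    unfold Leaf at hl ⊢
    have h3 := Set.ncard_le_ncard (sub_r T1 T2 c r r) (Set.toFinite _)
    rw [Set.ncard_image_of_injective _ Sum.inr_injective] at h3
    omega

end Pool.Agent.PCG.TT
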