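import Pool.Agent.Work.MP_9390ab_lc.TT.Stmts3

/-!
# Item GL: a leaf power complement glued at the midpoint (helper55)
-/

set_option autoImplicit false

namespace Pool.Agent.PCG.TT

open SimpleGraph Pool.Agent.PCG

namespace IGL

theorem status (d dmin dmax d0 e E : ℝ) (h1 : dmin ≤ d → d0 ≤ d) (h2 : d < dmin → d + E < d0)
    (h3 : dmax < d → dmax + E < d) (he : 0 ≤ e) (heE : e ≤ E) :
    (d0 ≤ d + e ∧ d + e ≤ dmax + E) ↔ (dmin ≤ d ∧ d ≤ dmax) := by
  constructor
  · rintro ⟨a, b⟩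
    constructor
    · by_contra hc
      push Not at hc
      have := h2 hc
      linarith
    · by_contra hc
      push Not at hc
      have := h3 hc
      linarith
  · rintro ⟨a, b⟩
    have := h1 a
    constructor <;> linarith

end IGL

open IGL in
theorem pr_GL (h1 : StNS) (h2 : StMI) (h3 : StGJ) (h4 : StRW) (h5 : StOT) (h6 : StTA)
    (h7 : StTD) : StGL := by
  intro V U M v1 v2 hne hadj htw F t x1 x2 x3 h12 h13 h23
  have hfW : Finite M.W := M.finite
  have hfF : Finite F.W := F.finite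
  have hfV : Finite V := Finite.of_injective M.leaf M.leaf_injective
  have hfU : Finite U := Finite.of_injective F.leaf F.leaf_injective
  have hdpos : ∀ u v, u ≠ v → 0 < M.dist u v := fun u v huv =>
    (h7 M.W M.T M.isTree M.wt M.wt_pos (M.leaf u) (M.leaf v)).2 (fun h => huv (M.leaf_injective h))
  have hgpos : ∀ x y, x ≠ y → 0 < F.dist x y := fun u v huv =>
    (h7 F.W F.T F.isTree F.wt F.wt_pos (F.leaf u) (F.leaf v)).2 (fun h => huv (F.leaf_injective h))
  obtain ⟨_, p1, p2⟩ := hadj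
  have hL : 0 < M.dist v1 v2 := hdpos v1 v2 hne
  obtain ⟨r, hr, hrw⟩ := h4 U F x1 x2 x3 h12 h13 h23
  have hρ0 : ∀ x, 0 ≤ treeDist F.isTree F.wt r (F.leaf x) := by
    intro x
    have h := h7 F.W F.T F.isTree F.wt F.wt_pos r (F.leaf x)
    by_cases hx : r = F.leaf x
    · have h' := (h7 F.W F.T F.isTree F.wt F.wt_pos (F.leaf x) (F.leaf x)).1
      rw [hx, h']
    · exact (h.2 hx).le
  obtain ⟨ε, d0, t0, D, hε, ht0, hd0, hεt, hd0L, hD, hρD, hgD, n1, n2, n3, n4⟩ :=
    h1 V U hfV hfU M.dist F.dist (fun x => treeDist F.isTree F.wt r (F.leaf x)) (M.dist v1 v2)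
      M.dmin M.dmax t hdpos hgpos hL p1 p2
  have hεD : 0 ≤ ε * D := mul_nonneg hε.le hD
  have hεt0 : 0 < ε * t0 := mul_pos hε ht0
  obtain ⟨w2, w2pos, w2d, w2r⟩ := hrw ε ((d0 - ε * t0) / 2) hε (by linarith)
  obtain ⟨W', hfin, T', hT', w', f, c, hf, hpos, hdist, hleaf, hc, hon, e1, e2⟩ :=
    h2 M.W M.finite M.T M.isTree M.wt (M.leaf v1) (M.leaf v2) M.wt_pos
      (fun h => hne (M.leaf_injective h))
  obtain ⟨T2, hT2, w3, g1, g2, g3, g4, g5, g6, g7, g8⟩ := h3 W' F.W hfin F.finite T' F.T hT'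
    F.isTree w' w2 c r ((M.dist v1 v2 - d0 + ε * t0) / 2) hpos w2pos (by linarith)
  have st : ∀ u v, u ≠ v → ∀ e, 0 ≤ e → e ≤ ε * D →
      ((d0 ≤ M.dist u v + e ∧ M.dist u v + e ≤ M.dmax + ε * D) ↔
        (M.dmin ≤ M.dist u v ∧ M.dist u v ≤ M.dmax)) := fun u v huv e he heE =>
    status (M.dist u v) M.dmin M.dmax d0 e (ε * D) (n1 u v huv) (n2 u v huv) (n3 u v huv) he heE
  let M' : WTree (V ⊕ U) :=
    { W := W' ⊕ F.W
      finite := inferInstance
      T := T2
      isTree := hT2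
      wt := w3
      wt_pos := g1
      leaf := Sum.elim (fun v => Sum.inl (f (M.leaf v))) (fun x => Sum.inr (F.leaf x))
      leaf_injective := by
        rintro (a | a) (b | b) h
        · simp only [Sum.elim_inl, Sum.inl.injEq] at h
          rw [M.leaf_injective (hf h)]
        · simp at h
        · simp at h
        · simp only [Sum.elim_inr, Sum.inr.injEq] at h
          rw [F.leaf_injective h]
      mem_range_leaf := by
        rintro (x | y)
        · change Sum.inl x ∈ Set.range (Sum.elim (fun v => Sum.inl (f (M.leaf v)))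
            (fun x => Sum.inr (F.leaf x))) ↔ Leaf T2 (Sum.inl x)
          have a1 : (Sum.inl x ∈ Set.range (Sum.elim
              (fun v => (Sum.inl (f (M.leaf v)) : W' ⊕ F.W))
              (fun x => Sum.inr (F.leaf x)))) ↔ Leaf T' x := by
            rw [hleaf x]
            constructor
            · rintro ⟨o, ho⟩
              rcases o with u | u
              · simp only [Sum.elim_inl, Sum.inl.injEq] at ho
                exact ⟨M.leaf u, (M.mem_range_leaf _).mp ⟨u, rfl⟩, ho⟩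
              · simp at ho
            · rintro ⟨z, hz, rfl⟩
              obtain ⟨u, rfl⟩ := (M.mem_range_leaf z).mpr hz
              exact ⟨Sum.inl u, rfl⟩
          rw [a1]
          by_cases hxc : x = c
          · rw [hxc]
            exact ⟨fun h => absurd h hc, fun h => absurd h (g7 hc)⟩
          · exact (g5 x hxc).symm
        · change Sum.inr y ∈ Set.range (Sum.elim (fun v => Sum.inl (f (M.leaf v)))
            (fun x => Sum.inr (F.leaf x))) ↔ Leaf T2 (Sum.inr y)
          have a1 : (Sum.inr y ∈ Set.range (Sum.elim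
              (fun v => (Sum.inl (f (M.leaf v)) : W' ⊕ F.W))
              (fun x => Sum.inr (F.leaf x)))) ↔ Leaf F.T y := by
            constructor
            · rintro ⟨o, ho⟩
              rcases o with u | u
              · simp at ho
              · simp only [Sum.elim_inr, Sum.inr.injEq] at ho
                exact (F.mem_range_leaf _).mp ⟨u, ho⟩
            · intro hy
              obtain ⟨u, rfl⟩ := (F.mem_range_leaf y).mpr hy
              exact ⟨Sum.inr u, rfl⟩
          rw [a1]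
          by_cases hyr : y = r
          · rw [hyr]
            exact ⟨fun h => absurd h hr, fun h => absurd h (g8 hr)⟩
          · exact (g6 y hyr).symm
      dmin := d0
      dmax := M.dmax + ε * D
      dmin_nonneg := hd0.le
      dmin_le_dmax := by linarith }
  have dll : ∀ u v, M'.dist (Sum.inl u) (Sum.inl v) = M.dist u v := by
    intro u v
    change treeDist hT2 w3 (Sum.inl (f (M.leaf u))) (Sum.inl (f (M.leaf v))) = _
    rw [g2, hdist]
    rfl
  have drr : ∀ x y, x ≠ y → M'.dist (Sum.inr x) (Sum.inr y) =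
      ε * F.dist x y + 2 * ((d0 - ε * t0) / 2) := by
    intro x y hxy
    change treeDist hT2 w3 (Sum.inr (F.leaf x)) (Sum.inr (F.leaf y)) = _
    rw [g3, w2d x y hxy]
  have dlr : ∀ u x, M'.dist (Sum.inl u) (Sum.inr x) = treeDist hT' w' (f (M.leaf u)) c +
      M.dist v1 v2 / 2 + ε * treeDist F.isTree F.wt r (F.leaf x) := by
    intro u x
    change treeDist hT2 w3 (Sum.inl (f (M.leaf u))) (Sum.inr (F.leaf x)) = _
    rw [g4, w2r x]
    ring
  refine ⟨M', ?_, ?_, ?_⟩
  · intro u v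
    change (Sum.inl u ≠ Sum.inl v ∧ d0 ≤ M'.dist (Sum.inl u) (Sum.inl v) ∧
      M'.dist (Sum.inl u) (Sum.inl v) ≤ M.dmax + ε * D) ↔
      (u ≠ v ∧ M.dmin ≤ M.dist u v ∧ M.dist u v ≤ M.dmax)
    rw [dll]
    constructor
    · rintro ⟨a, b⟩
      have huv : u ≠ v := fun h => a (by rw [h])
      have s := (st u v huv 0 le_rfl hεD).mp (by rw [add_zero]; exact b)
      exact ⟨huv, s⟩
    · rintro ⟨huv, b⟩
      have s := (st u v huv 0 le_rfl hεD).mpr b
      rw [add_zero] at s
      exact ⟨fun h => huv (Sum.inl.inj h), s⟩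
  · intro x y hxy
    change (Sum.inr x ≠ Sum.inr y ∧ d0 ≤ M'.dist (Sum.inr x) (Sum.inr y) ∧
      M'.dist (Sum.inr x) (Sum.inr y) ≤ M.dmax + ε * D) ↔ t ≤ F.dist x y
    rw [drr x y hxy, n4 x y hxy]
    constructor
    · rintro ⟨_, b, _⟩
      have b' : ε * t0 ≤ ε * F.dist x y := by linarith
      exact le_of_mul_le_mul_left b' hε
    · intro b
      have b1 : ε * t0 ≤ ε * F.dist x y := mul_le_mul_of_nonneg_left b hε.le
      have b2 : ε * F.dist x y ≤ ε * D := mul_le_mul_of_nonneg_left (hgD x y) hε.le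
      exact ⟨fun h => hxy (Sum.inr.inj h), by linarith, by linarith⟩
  · intro u x
    change (Sum.inl u ≠ Sum.inr x ∧ d0 ≤ M'.dist (Sum.inl u) (Sum.inr x) ∧
      M'.dist (Sum.inl u) (Sum.inr x) ≤ M.dmax + ε * D) ↔ _
    rw [dlr u x]
    have hx0 : 0 ≤ ε * treeDist F.isTree F.wt r (F.leaf x) := mul_nonneg hε.le (hρ0 x)
    have hxD : ε * treeDist F.isTree F.wt r (F.leaf x) ≤ ε * D :=
      mul_le_mul_of_nonneg_left (hρD x) hε.le
    have hs := st v1 v2 hne (ε * treeDist F.isTree F.wt r (F.leaf x)) hx0 hxD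
    have hne' : (Sum.inl u : V ⊕ U) ≠ Sum.inr x := by simp
    have hd1 : treeDist hT' w' (f (M.leaf v1)) c = M.dist v1 v2 / 2 := e1
    have hd2 : treeDist hT' w' (f (M.leaf v2)) c = M.dist v1 v2 / 2 := e2
    by_cases hu1 : u = v1
    · rw [hu1, hd1]
      have s := hs.mpr ⟨p1, p2⟩
      rw [show M.dist v1 v2 / 2 + M.dist v1 v2 / 2 = M.dist v1 v2 by ring]
      exact ⟨fun _ => Or.inl rfl, fun _ => ⟨by simp, s⟩⟩
    by_cases hu2 : u = v2
    · rw [hu2, hd2]
      have s := hs.mpr ⟨p1, p2⟩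
      rw [show M.dist v1 v2 / 2 + M.dist v1 v2 / 2 = M.dist v1 v2 by ring]
      exact ⟨fun _ => Or.inr ⟨hne, p1, p2⟩, fun _ => ⟨by simp, s⟩⟩
    have hA : ∀ z, u ≠ z → (M.graph.Adj z u ↔ (M.dmin ≤ M.dist u z ∧ M.dist u z ≤ M.dmax)) := by
      intro z hz
      rw [M.dist_comm u z]
      exact ⟨fun h => h.2, fun h => ⟨hz.symm, h⟩⟩
    have t1 := htw u hu1 hu2
    have hR : (u = v1 ∨ M.graph.Adj v1 u) ↔ M.graph.Adj v1 u :=
      ⟨fun h => h.resolve_left hu1, Or.inr⟩
    rw [hR]
    rcases h5 W' T' hT' (f (M.leaf v1)) (f (M.leaf v2)) c (f (M.leaf u)) hon with h | h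
    · have e := h6 W' T' hT' w' (f (M.leaf u)) (f (M.leaf v1)) c h
      rw [treeDist_comm hT' w' c (f (M.leaf v1)), hd1, hdist] at e
      have e' : M.dist u v1 = treeDist hT' w' (f (M.leaf u)) c + M.dist v1 v2 / 2 := e
      rw [← e', hA v1 hu1, ← st u v1 hu1 _ hx0 hxD]
      exact ⟨fun h => h.2, fun h => ⟨hne', h⟩⟩
    · have e := h6 W' T' hT' w' (f (M.leaf u)) (f (M.leaf v2)) c h
      rw [treeDist_comm hT' w' c (f (M.leaf v2)), hd2, hdist] at e
      have e' : M.dist u v2 = treeDist hT' w' (f (M.leaf u)) c + M.dist v1 v2 / 2 := e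
      rw [← e', t1, hA v2 hu2, ← st u v2 hu2 _ hx0 hxD]
      exact ⟨fun h => h.2, fun h => ⟨hne', h⟩⟩

end Pool.Agent.PCG.TT
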