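import Pool.Agent.Work.MP_9390ab_lc.TT.Stmts3

/-!
# MP_9390ab_lc, block TT, item MK: the kernel
-/

set_option autoImplicit false

namespace Pool.Agent.PCG.TT

open SimpleGraph Pool.Agent.PCG

namespace IMK

/-- Induced subgraphs, from an injective map. -/
theorem pull (h2 : StHD) {V U : Type} {G : SimpleGraph V} {F : SimpleGraph U} (g : U → V)
    (hg : Function.Injective g) (hU : Nonempty U) (hF : ∀ u v, F.Adj u v ↔ G.Adj (g u) (g v))
    (hG : IsPCG G) : IsPCG F := by
  obtain ⟨M, hM⟩ := hG
  obtain ⟨M', hM'⟩ := h2 V U M g hg hU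
  refine ⟨M', ?_⟩
  ext u v
  rw [hM' u v, hM, hF u v]

/-- The choice in one class. -/
theorem pick {V : Type} [Finite V] (G : SimpleGraph V) {k : ℕ} (c : V → Fin k) (i : Fin k) :
    ∃ t : Finset V, (∀ u ∈ t, c u = i) ∧ t.card ≤ 2 ∧ ((∃ v, c v = i) → t.Nonempty) ∧
      ((∃ u v, c u = i ∧ c v = i ∧ G.Adj u v) → ∃ a ∈ t, ∃ b ∈ t, G.Adj a b) := by
  classical
  by_cases he : ∃ u v, c u = i ∧ c v = i ∧ G.Adj u v
  · obtain ⟨u, v, hu, hv, huv⟩ := he
    refine ⟨{u, v}, ?_, Finset.card_le_two, fun _ => ⟨u, by simp⟩,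
      fun _ => ⟨u, by simp, v, by simp, huv⟩⟩
    intro w hw
    rw [Finset.mem_insert, Finset.mem_singleton] at hw
    rcases hw with rfl | rfl
    · exact hu
    · exact hv
  · by_cases hn : ∃ v, c v = i
    · obtain ⟨v, hv⟩ := hn
      refine ⟨{v}, ?_, by simp, fun _ => ⟨v, by simp⟩, fun h => absurd h he⟩
      intro w hw
      rw [Finset.mem_singleton] at hw
      rw [hw]
      exact hv
    · exact ⟨∅, by simp, by simp, fun h => absurd h hn, fun h => absurd h he⟩

end IMK

open IMK in
theorem pr_MK (h1 : StMT) (h2 : StHD) : StMK := by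
  classical
  intro V hV hne G k c hmod htri
  constructor
  · intro hG S hS _
    have hne' : Nonempty ((S : Set V) : Type) := by
      obtain ⟨x, hx⟩ := hS
      exact ⟨⟨x, by simpa using hx⟩⟩
    exact pull h2 (U := ((S : Set V) : Type)) Subtype.val Subtype.val_injective hne'
      (fun _ _ => Iff.rfl) hG
  · intro h
    choose Sf f1 f2 f3 f4 using fun i => pick G c i
    let S : Finset V := Finset.univ.biUnion Sf
    have hin : ∀ i, ∀ u ∈ Sf i, u ∈ (S : Set V) := fun i u hu =>
      Finset.mem_coe.2 (Finset.mem_biUnion.2 ⟨i, Finset.mem_univ _, hu⟩)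
    have hS : S.Nonempty := by
      obtain ⟨v0⟩ := hne
      obtain ⟨u, hu⟩ := f3 (c v0) ⟨v0, rfl⟩
      exact ⟨u, Finset.mem_coe.1 (hin _ u hu)⟩
    have hSk : S.card ≤ 2 * k := by
      have h3 := Finset.card_biUnion_le_card_mul (Finset.univ : Finset (Fin k)) Sf 2
        (fun i _ => f2 i)
      rw [Finset.card_univ, Fintype.card_fin] at h3
      show (Finset.univ.biUnion Sf).card ≤ 2 * k
      omega
    have key : ∀ s : Finset (Fin k), IsPCG (G.induce ((S : Set V) ∪ {v | c v ∈ s})) := by
      intro s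
      induction s using Finset.induction_on with
      | empty =>
        have h3 : (S : Set V) ∪ {v | c v ∈ (∅ : Finset (Fin k))} = (S : Set V) := by
          ext v
          simp
        rw [h3]
        exact h S hS hSk
      | insert i s _ ih =>
        by_cases hi : ∃ v, c v = i
        · obtain ⟨v0, hv0⟩ := hi
          have h3 : (S : Set V) ∪ {v | c v ∈ insert i s} =
              ((S : Set V) ∪ {v | c v ∈ s}) ∪ {u | c u = c v0} := by
            ext v
            simp only [Set.mem_union, Set.mem_setOf_eq, Finset.mem_insert, hv0]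
            tauto
          rw [h3]
          apply h1 V hV G _ {u | c u = c v0} (hmod v0) _ _ _ ih
          · rcases htri v0 with h4 | h4 | h4
            · exact Or.inl fun u hu v hv => h4 u v hu hv
            · exact Or.inr (Or.inl fun u hu v hv => h4 u v hu hv)
            · exact Or.inr (Or.inr h4)
          · obtain ⟨u, hu⟩ := f3 (c v0) ⟨v0, rfl⟩
            exact ⟨u, f1 _ u hu, Or.inl (hin _ u hu)⟩
          · rintro ⟨u, hu, v, hv, huv⟩
            obtain ⟨a, ha, b, hb, hab⟩ := f4 (c v0) ⟨u, v, hu, hv, huv⟩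
            exact ⟨a, f1 _ a ha, b, f1 _ b hb, Or.inl (hin _ a ha), Or.inl (hin _ b hb), hab⟩
        · have h3 : (S : Set V) ∪ {v | c v ∈ insert i s} = (S : Set V) ∪ {v | c v ∈ s} := by
            ext v
            have h4 : c v ≠ i := fun h5 => hi ⟨v, h5⟩
            simp only [Set.mem_union, Set.mem_setOf_eq, Finset.mem_insert, h4, false_or]
          rw [h3]
          exact ih
    exact pull h2 (U := V) (fun v => ⟨v, Or.inr (Finset.mem_univ (c v))⟩)
      (fun u v huv => congrArg Subtype.val huv) hne (fun _ _ => Iff.rfl) (key Finset.univ)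

end Pool.Agent.PCG.TT
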