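import Pool.Agent.Work.MP_9390ab_lc.TT.Stmts3

/-!
[9390ab TT MR] The module rule.
-/

set_option autoImplicit false

namespace Pool.Agent.PCG.TT

open SimpleGraph Pool.Agent.PCG

theorem pr_MR (h1 : StGL) (h2 : StHD) : StMR := by
  classical
  intro V _ G M a b ha hb hab hmod hco
  constructor
  · rintro ⟨N, hN⟩
    obtain ⟨M', hM'⟩ := h2 V ↥(Mᶜ ∪ {a, b}) N Subtype.val Subtype.val_injective ⟨⟨a, Or.inr (Or.inl rfl)⟩⟩
    refine ⟨M', ?_⟩
    ext u v
    rw [hM', hN]
    rfl
  · rintro ⟨N, hN⟩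
    have haS : a ∈ Mᶜ ∪ {a, b} := Or.inr (Or.inl rfl)
    have hbS : b ∈ Mᶜ ∪ {a, b} := Or.inr (Or.inr rfl)
    have hNadj : ∀ u v : ↥(Mᶜ ∪ {a, b}), N.graph.Adj u v ↔ G.Adj u.1 v.1 := by
      intro u v
      rw [hN]
      rfl
    by_cases hx : ∃ x ∈ M, x ≠ a ∧ x ≠ b
    · obtain ⟨x, hxM, hxa, hxb⟩ := hx
      obtain ⟨F, t, hF⟩ := hco
      have hne : a ≠ b := hab.ne
      obtain ⟨M', m1, m2, m3⟩ := h1 ↥(Mᶜ ∪ {a, b}) ↥M N ⟨a, haS⟩ ⟨b, hbS⟩
        (fun h => hne (congrArg Subtype.val h)) ((hNadj _ _).2 hab) (by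
          intro w hwa hwb
          rw [hNadj, hNadj]
          rcases w with ⟨w, hw⟩
          rcases hw with hw | hw
          · exact hmod a ha b hb w hw
          · rcases hw with hw | hw
            · exact absurd (Subtype.ext hw) hwa
            · exact absurd (Subtype.ext (Set.mem_singleton_iff.1 hw)) hwb) F t ⟨a, ha⟩ ⟨b, hb⟩ ⟨x, hxM⟩
        (fun h => hne (congrArg Subtype.val h)) (fun h => hxa (congrArg Subtype.val h).symm)
        (fun h => hxb (congrArg Subtype.val h).symm)
      let g : V → ↥(Mᶜ ∪ {a, b}) ⊕ ↥M := fun v => if h : v ∈ M then Sum.inr ⟨v, h⟩ else Sum.inl ⟨v, Or.inl h⟩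
      have g1 : ∀ (v : V) (h : v ∈ M), g v = Sum.inr ⟨v, h⟩ := fun v h => dif_pos h
      have g2 : ∀ (v : V) (h : v ∉ M), g v = Sum.inl ⟨v, Or.inl h⟩ := fun v h => dif_neg h
      have hg : Function.Injective g := by
        intro u v huv
        by_cases hu : u ∈ M <;> by_cases hv : v ∈ M
        · rw [g1 u hu, g1 v hv] at huv
          exact congrArg Subtype.val (Sum.inr_injective huv)
        · rw [g1 u hu, g2 v hv] at huv
          exact absurd huv (by simp)
        · rw [g2 u hu, g1 v hv] at huv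
          exact absurd huv (by simp)
        · rw [g2 u hu, g2 v hv] at huv
          exact congrArg Subtype.val (Sum.inl_injective huv)
      obtain ⟨M'', hM''⟩ := h2 _ V M' g hg ⟨a⟩
      have hmix : ∀ (u v : V) (hu : u ∉ M) (hv : v ∈ M),
          M'.graph.Adj (Sum.inl ⟨u, Or.inl hu⟩) (Sum.inr ⟨v, hv⟩) ↔ G.Adj u v := by
        intro u v hu hv
        rw [m3, hNadj]
        constructor
        · rintro (h | h)
          · have h' : u = a := congrArg Subtype.val h
            exact absurd (by rw [h']; exact ha) hu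
          · exact ((hmod a ha v hv u hu).1 h).symm
        · intro h
          exact Or.inr ((hmod a ha v hv u hu).2 h.symm)
      refine ⟨M'', ?_⟩
      ext u v
      rw [hM'']
      by_cases hu : u ∈ M <;> by_cases hv : v ∈ M
      · rw [g1 u hu, g1 v hv]
        by_cases huv : u = v
        · subst huv
          exact ⟨fun h => absurd h M'.graph.irrefl, fun h => absurd h G.irrefl⟩
        · have hne' : (⟨u, hu⟩ : ↥M) ≠ ⟨v, hv⟩ := fun h => huv (congrArg Subtype.val h)
          rw [m2 _ _ hne', ← hF _ _ hne']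
          rfl
      · rw [g1 u hu, g2 v hv, M'.graph.adj_comm, hmix v u hv hu, G.adj_comm]
      · rw [g2 u hu, g1 v hv, hmix u v hu hv]
      · rw [g2 u hu, g2 v hv, m1, hNadj]
    · have hall : ∀ v : V, v ∈ Mᶜ ∪ {a, b} := by
        intro v
        by_cases hv : v ∈ M
        · by_cases h : v = a
          · exact Or.inr (Or.inl h)
          · by_cases h' : v = b
            · exact Or.inr (Or.inr h')
            · exact absurd ⟨v, hv, h, h'⟩ hx
        · exact Or.inl hv
      obtain ⟨M'', hM''⟩ := h2 _ V N (fun v => ⟨v, hall v⟩) (fun u v h => congrArg Subtype.val h) ⟨a⟩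
      refine ⟨M'', ?_⟩
      ext u v
      rw [hM'', hNadj]

end Pool.Agent.PCG.TT
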