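import Pool.Agent.Work.MP_9390ab_lc.TT.Stmts3

/-!
# MP_9390ab_lc, block TT, item MT (helper48): one more module
-/

set_option autoImplicit false

namespace Pool.Agent.PCG.TT

open SimpleGraph Pool.Agent.PCG

namespace IMT

/-- change of the names of the leaves -/
def relab {V V' : Type} (M : WTree V) (e : V' ≃ V) : WTree V' where
  W := M.W
  finite := M.finite
  T := M.T
  isTree := M.isTree
  wt := M.wt
  wt_pos := M.wt_pos
  leaf := M.leaf ∘ e
  leaf_injective := M.leaf_injective.comp e.injective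
  mem_range_leaf := fun x => by
    rw [← M.mem_range_leaf, EquivLike.range_comp]
  dmin := M.dmin
  dmax := M.dmax
  dmin_nonneg := M.dmin_nonneg
  dmin_le_dmax := M.dmin_le_dmax

theorem relab_dist {V V' : Type} (M : WTree V) (e : V' ≃ V) (u v : V') :
    (relab M e).dist u v = M.dist (e u) (e v) := rfl

theorem relab_adj {V V' : Type} (M : WTree V) (e : V' ≃ V) (u v : V') :
    (relab M e).graph.Adj u v ↔ M.graph.Adj (e u) (e v) :=
  and_congr (not_congr e.injective.eq_iff.symm) Iff.rfl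

theorem iso {V V' : Type} {G : SimpleGraph V} {G' : SimpleGraph V'} (e : V' ≃ V)
    (h : ∀ u v, G'.Adj u v ↔ G.Adj (e u) (e v)) (hG : IsPCG G) : IsPCG G' := by
  obtain ⟨M, hM⟩ := hG
  refine ⟨relab M e, ?_⟩
  ext u v
  rw [relab_adj, hM, h]

theorem isoLP {V V' : Type} {G : SimpleGraph V} {G' : SimpleGraph V'} (e : V' ≃ V)
    (h : ∀ u v, G'.Adj u v ↔ G.Adj (e u) (e v)) (hG : CoLP G) : CoLP G' := by
  obtain ⟨M, t, hM⟩ := hG
  refine ⟨relab M e, t, fun x y hxy => ?_⟩
  rw [h, relab_dist]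
  exact hM _ _ fun h2 => hxy (e.injective h2)

end IMT

/-- Item MT. -/
theorem pr_MT (h1 : StMR) (h2 : StSY) (h3 : StHD) : StMT := by
  intro V hfin G A M hmod hM ha hab hA
  have hfinU : Finite ↥(A ∪ M) := inferInstance
  -- the part A of the graph on A and M
  let S : Set ↥(A ∪ M) := {x | x.1 ∈ A}
  have hSA : IsPCG ((G.induce (A ∪ M)).induce S) := by
    let e : S ≃ A :=
      { toFun := fun x => ⟨x.1.1, x.2⟩
        invFun := fun a => ⟨⟨a.1, Or.inl a.2⟩, a.2⟩
        left_inv := fun x => rfl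
        right_inv := fun a => rfl }
    exact IMT.iso e (fun u w => Iff.rfl) hA
  have hSne : S.Nonempty := by
    obtain ⟨a, -, haA⟩ := ha
    exact ⟨⟨a, Or.inl haA⟩, haA⟩
  have hout : ∀ v : ↥(A ∪ M), v ∉ S → v.1 ∈ M ∧ v.1 ∉ A := by
    intro v hv
    rcases v.2 with h | h
    · exact absurd h hv
    · exact ⟨h, hv⟩
  by_cases hE : ∃ u ∈ M, ∃ v ∈ M, G.Adj u v
  · obtain ⟨a, haM, b, hbM, haA, hbA, hadj⟩ := hab hE
    rcases hM with hM | hM | hM
    · obtain ⟨u, hu, v, hv, huv⟩ := hE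
      exact absurd huv (hM u hu v hv)
    · -- complete
      refine h2 _ hfinU _ S hSne (fun v hv => Or.inr ?_) hSA
      obtain ⟨hvM, hvA⟩ := hout v hv
      have hav : a ≠ v.1 := fun h => hvA (h ▸ haA)
      have hbv : b ≠ v.1 := fun h => hvA (h ▸ hbA)
      have htw : ∀ (c : V) (hc : c ∈ M) (hcA : c ∈ A),
          Tw (G.induce (A ∪ M)) ⟨c, Or.inl hcA⟩ v := by
        intro c hc hcA w hw1 hw2
        change G.Adj c w.1 ↔ G.Adj v.1 w.1
        by_cases hw : w.1 ∈ M
        · have n1 : c ≠ w.1 := fun h => hw1 (Subtype.ext h.symm)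
          have n2 : v.1 ≠ w.1 := fun h => hw2 (Subtype.ext h.symm)
          exact ⟨fun _ => hM _ hvM _ hw n2, fun _ => hM _ hc _ hw n1⟩
        · exact hmod c hc v.1 hvM w.1 hw
      exact ⟨⟨a, Or.inl haA⟩, haA, ⟨b, Or.inl hbA⟩, hbA,
        fun h => hadj.ne (congrArg Subtype.val h), fun h => hav (congrArg Subtype.val h),
        fun h => hbv (congrArg Subtype.val h), htw a haM haA, htw b hbM hbA,
        hM a haM v.1 hvM hav, hM b hbM v.1 hvM hbv⟩
    · -- the complement of a leaf power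
      let M1 : Set ↥(A ∪ M) := {x | x.1 ∈ M}
      let a1 : ↥(A ∪ M) := ⟨a, Or.inl haA⟩
      let b1 : ↥(A ∪ M) := ⟨b, Or.inl hbA⟩
      have hLP : CoLP ((G.induce (A ∪ M)).induce M1) := by
        let e : M1 ≃ M :=
          { toFun := fun x => ⟨x.1.1, x.2⟩
            invFun := fun a => ⟨⟨a.1, Or.inr a.2⟩, a.2⟩
            left_inv := fun x => rfl
            right_inv := fun a => rfl }
        exact IMT.isoLP e (fun u w => Iff.rfl) hM
      have hmod1 : Mod (G.induce (A ∪ M)) M1 := fun u hu v hv w hw =>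
        hmod u.1 hu v.1 hv w.1 hw
      refine (h1 _ hfinU (G.induce (A ∪ M)) M1 a1 b1 haM hbM hadj hmod1 hLP).2 ?_
      obtain ⟨N, hN⟩ := hA
      have hin : ∀ x : ↥(A ∪ M), x ∈ M1ᶜ ∪ {a1, b1} → x.1 ∈ A := by
        intro x hx
        rcases hx with hx | hx | hx
        · rcases x.2 with h | h
          · exact h
          · exact absurd h hx
        · rw [hx]; exact haA
        · rw [Set.mem_singleton_iff.1 hx]; exact hbA
      obtain ⟨N', hN'⟩ := h3 A ↥(M1ᶜ ∪ {a1, b1}) N (fun x => ⟨x.1.1, hin x.1 x.2⟩)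
        (fun x y hxy => Subtype.ext (Subtype.ext (congrArg (fun z : A => z.1) hxy)))
        ⟨⟨a1, Or.inr (Or.inl rfl)⟩⟩
      refine ⟨N', ?_⟩
      ext x y
      rw [hN', hN]
      rfl
  · -- no edge in M
    push Not at hE
    obtain ⟨a, haM, haA⟩ := ha
    refine h2 _ hfinU _ S hSne (fun v hv => Or.inl ?_) hSA
    obtain ⟨hvM, hvA⟩ := hout v hv
    refine ⟨⟨a, Or.inl haA⟩, haA, fun h => hvA (congrArg Subtype.val h ▸ haA), ?_,
      hE a haM v.1 hvM⟩
    intro w hw1 hw2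
    change G.Adj a w.1 ↔ G.Adj v.1 w.1
    by_cases hw : w.1 ∈ M
    · exact ⟨fun h => absurd h (hE a haM w.1 hw), fun h => absurd h (hE v.1 hvM w.1 hw)⟩
    · exact hmod a haM v.1 hvM w.1 hw

end Pool.Agent.PCG.TT
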