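import Pool.Agent.Work.MP_9390ab_lc.TT.Stmts3

/-!
# MP_9390ab_lc, block TT, item NS: choice of the numbers
-/

set_option autoImplicit false

namespace Pool.Agent.PCG.TT

open SimpleGraph Pool.Agent.PCG

namespace BNS

theorem upper {α : Type} [Finite α] (f : α → ℝ) : ∃ D : ℝ, 0 ≤ D ∧ ∀ x, f x ≤ D := by
  obtain ⟨D, hD⟩ := (Set.finite_range f).bddAbove
  exact ⟨max D 0, le_max_right _ _, fun x => (hD ⟨x, rfl⟩).trans (le_max_left _ _)⟩

theorem lower {α : Type} [Finite α] (f : α → ℝ) (b : ℝ) (hb : 0 < b) (p : α → Prop)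
    (hf : ∀ x, p x → 0 < f x) : ∃ m : ℝ, 0 < m ∧ m ≤ b ∧ ∀ x, p x → m ≤ f x := by
  classical
  let g : Option α → ℝ := fun o => match o with
    | none => b
    | some x => if p x then f x else b
  have hg : ∀ o, 0 < g o := by
    intro o
    cases o with
    | none => exact hb
    | some x =>
      show 0 < (if p x then f x else b)
      split_ifs with h
      · exact hf x h
      · exact hb
  obtain ⟨o, ho⟩ := Finite.exists_min g
  refine ⟨g o, hg o, ho none, fun x hx => ?_⟩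
  have h1 : g (some x) = f x := if_pos hx
  rw [← h1]
  exact ho (some x)

end BNS

open BNS in
theorem pr_NS : StNS := by
  classical
  intro V U _ _ d g ρ L dmin dmax t hd hg hL h1 h2
  obtain ⟨D1, hD1, hD1'⟩ := upper ρ
  obtain ⟨D2, hD2, hD2'⟩ := upper (fun p : U × U => g p.1 p.2)
  obtain ⟨D, hD, hDρ, hDg⟩ : ∃ D : ℝ, 0 ≤ D ∧ (∀ x, ρ x ≤ D) ∧ ∀ x y, g x y ≤ D :=
    ⟨max D1 D2, le_max_of_le_left hD1, fun x => (hD1' x).trans (le_max_left _ _),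
      fun x y => (hD2' (x, y)).trans (le_max_right _ _)⟩
  obtain ⟨d0, hd0, hd0L, hd0a, hd0b⟩ : ∃ d0 : ℝ, 0 < d0 ∧ d0 ≤ L ∧
      (∀ u v, u ≠ v → dmin ≤ d u v → d0 ≤ d u v) ∧
      (∀ u v, u ≠ v → d u v < dmin → d u v < d0) := by
    by_cases h : 0 < dmin
    · exact ⟨dmin, h, h1, fun _ _ _ h => h, fun _ _ _ h => h⟩
    · obtain ⟨m, hm, hmL, hm'⟩ := lower (fun p : V × V => d p.1 p.2) L hL (fun p => p.1 ≠ p.2)
        (fun p hp => hd _ _ hp)
      refine ⟨m, hm, hmL, fun u v huv _ => hm' (u, v) huv, fun u v huv h' => ?_⟩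
      have := hd u v huv
      linarith
  obtain ⟨t0, ht0, ht0'⟩ : ∃ t0 : ℝ, 0 < t0 ∧ ∀ x y, x ≠ y → (t ≤ g x y ↔ t0 ≤ g x y) := by
    by_cases h : 0 < t
    · exact ⟨t, h, fun _ _ _ => Iff.rfl⟩
    · obtain ⟨m, hm, -, hm'⟩ := lower (fun p : U × U => g p.1 p.2) 1 one_pos (fun p => p.1 ≠ p.2)
        (fun p hp => hg _ _ hp)
      refine ⟨m, hm, fun x y hxy => ⟨fun _ => hm' (x, y) hxy, fun _ => ?_⟩⟩
      have := hg x y hxy
      linarith
  obtain ⟨k1, hk1, hk1d, hk1'⟩ := lower (fun p : V × V => d0 - d p.1 p.2) d0 hd0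
    (fun p => p.1 ≠ p.2 ∧ d p.1 p.2 < dmin) (fun p hp => sub_pos.2 (hd0b _ _ hp.1 hp.2))
  obtain ⟨k2, hk2, hk2d, hk2'⟩ := lower (fun p : V × V => d p.1 p.2 - dmax) d0 hd0
    (fun p => p.1 ≠ p.2 ∧ dmax < d p.1 p.2) (fun p hp => sub_pos.2 hp.2)
  obtain ⟨κ, hκ, hκ1, hκ2⟩ : ∃ κ : ℝ, 0 < κ ∧ κ ≤ k1 ∧ κ ≤ k2 :=
    ⟨min k1 k2, lt_min hk1 hk2, min_le_left _ _, min_le_right _ _⟩
  have hs : 0 < 1 + D + t0 := by linarith
  refine ⟨κ / (1 + D + t0), d0, t0, D, div_pos hκ hs, ht0, hd0, ?_, hd0L, hD, hDρ, hDg, hd0a,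
    ?_, ?_, ht0'⟩
  · have : κ / (1 + D + t0) * t0 < κ := by
      rw [div_mul_eq_mul_div, div_lt_iff₀ hs]
      nlinarith
    linarith
  · intro u v huv h
    have h3 : κ / (1 + D + t0) * D < κ := by
      rw [div_mul_eq_mul_div, div_lt_iff₀ hs]
      nlinarith
    have h4 := hk1' (u, v) ⟨huv, h⟩
    simp only at h4
    linarith
  · intro u v huv h
    have h3 : κ / (1 + D + t0) * D < κ := by
      rw [div_mul_eq_mul_div, div_lt_iff₀ hs]
      nlinarith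
    have h4 := hk2' (u, v) ⟨huv, h⟩
    simp only at h4
    linarith

end Pool.Agent.PCG.TT
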