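import Pool.Agent.Work.MP_9390ab_lc.TT.Stmts3

/-!
# MP_9390ab_lc, block TT, item RW: reweighting
-/

set_option autoImplicit false

namespace Pool.Agent.PCG.TT

open SimpleGraph Pool.Agent.PCG

namespace BRW

open scoped Classical in
/-- indicator of the leaves -/
noncomputable def ind {W : Type} (T : SimpleGraph W) (a : W) : ℝ := if Leaf T a then 1 else 0

theorem ind_nonneg {W : Type} (T : SimpleGraph W) (a : W) : 0 ≤ ind T a := by
  unfold ind; split_ifs <;> norm_num

theorem ind_zero {W : Type} (T : SimpleGraph W) (a : W) (h : ¬ Leaf T a) : ind T a = 0 := by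
  unfold ind; rw [if_neg h]

theorem ind_one {W : Type} (T : SimpleGraph W) (a : W) (h : Leaf T a) : ind T a = 1 := by
  unfold ind; rw [if_pos h]

/-- number of ends which are leaves -/
noncomputable def lam {W : Type} (T : SimpleGraph W) : Sym2 W → ℝ :=
  Sym2.lift ⟨fun a b => ind T a + ind T b, fun _ _ => add_comm _ _⟩

theorem lam_mk {W : Type} (T : SimpleGraph W) (a b : W) : lam T s(a, b) = ind T a + ind T b := rfl

theorem lam_nonneg {W : Type} (T : SimpleGraph W) (e : Sym2 W) : 0 ≤ lam T e := by
  induction e using Sym2.ind with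
  | _ a b => rw [lam_mk]; exact add_nonneg (ind_nonneg T a) (ind_nonneg T b)

theorem sum_lam {W : Type} (T : SimpleGraph W) : ∀ (a b : W) (p : T.Walk a b), p.IsPath → a ≠ b →
    (∀ z ∈ p.support, z ≠ a → z ≠ b → ¬ Leaf T z) →
    (p.edges.map (lam T)).sum = ind T a + ind T b := by
  intro a b p
  induction p with
  | nil => intro _ h _; exact absurd rfl h
  | @cons a a' b h p ih =>
    intro hp hab hz
    rw [Walk.cons_isPath_iff] at hp
    rw [Walk.edges_cons, List.map_cons, List.sum_cons, lam_mk]
    by_cases hb : a' = b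
    · subst hb
      have hn : p = Walk.nil := Walk.isPath_iff_eq_nil.1 hp.1
      rw [hn]
      simp
    · have ha' : ¬ Leaf T a' := by
        apply hz a' _ h.ne.symm hb
        rw [Walk.support_cons, List.mem_cons]
        exact Or.inr (Walk.start_mem_support p)
      rw [ih hp.1 hb, ind_zero T a' ha']
      · ring
      · intro z hz1 hz2 hz3
        apply hz z _ _ hz3
        · rw [Walk.support_cons, List.mem_cons]
          exact Or.inr hz1
        · rintro rfl
          exact hp.2 hz1

theorem sum_lin {α : Type} (l : List α) (w g : α → ℝ) (ε h : ℝ) :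
    (l.map (fun e => ε * w e + h * g e)).sum = ε * (l.map w).sum + h * (l.map g).sum := by
  induction l with
  | nil => simp
  | cons a l ih => simp only [List.map_cons, List.sum_cons, ih]; ring

theorem on_of_mem {W : Type} (T : SimpleGraph W) (hT : T.IsTree) (a b z : W) (p : T.Walk a b)
    (hp : p.IsPath) (hz : z ∈ p.support) : On T a b z := by
  intro q hq
  rw [(hT.existsUnique_path a b).unique hq hp]
  exact hz

theorem dist_new {W : Type} (hIN : StIN) (hfin : Finite W) (T : SimpleGraph W) (hT : T.IsTree)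
    (w : Sym2 W → ℝ) (ε h : ℝ) (a b : W) (hab : a ≠ b) :
    treeDist hT (fun e => ε * w e + h * lam T e) a b =
      ε * treeDist hT w a b + h * (ind T a + ind T b) := by
  obtain ⟨p, hp, -⟩ := hT.existsUnique_path a b
  rw [treeDist_eq hT _ p hp, treeDist_eq hT _ p hp, sum_lin, sum_lam T a b p hp hab]
  intro z hz h1 h2
  exact hIN W hfin T hT a b z (on_of_mem T hT a b z p hp hz) h1 h2

end BRW

open BRW in
theorem pr_RW (h1 : StMD) (h2 : StNL) (h3 : StIN) : StRW := by
  intro U F x1 x2 x3 h12 h13 h23
  obtain ⟨r, o1, o2, o3, -⟩ := h1 F.W F.T F.isTree (F.leaf x1) (F.leaf x2) (F.leaf x3)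
  have hinj := F.leaf_injective
  have hr : ¬ Leaf F.T r := h2 F.W F.finite F.T F.isTree _ _ _ r (fun h => h12 (hinj h))
    (fun h => h13 (hinj h)) (fun h => h23 (hinj h)) o1 o2 o3
  have hleaf : ∀ x, Leaf F.T (F.leaf x) := fun x => (F.mem_range_leaf _).1 ⟨x, rfl⟩
  refine ⟨r, hr, ?_⟩
  intro ε h hε hh
  refine ⟨fun e => ε * F.wt e + h * lam F.T e, ?_, ?_, ?_⟩
  · intro e he
    have := F.wt_pos e he
    have := lam_nonneg F.T e
    positivity
  · intro x y hxy
    rw [dist_new h3 F.finite F.T F.isTree F.wt ε h _ _ (fun h => hxy (hinj h)),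
      ind_one _ _ (hleaf x), ind_one _ _ (hleaf y)]
    unfold WTree.dist
    ring
  · intro x
    have hne : r ≠ F.leaf x := by
      rintro rfl
      exact hr (hleaf x)
    rw [dist_new h3 F.finite F.T F.isTree F.wt ε h _ _ hne, ind_zero _ _ hr, ind_one _ _ (hleaf x)]
    ring

end Pool.Agent.PCG.TT
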