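import Pool.Agent.Work.MP_9390ab_lc.TT.All
import Pool.Agent.Work.MP_9390ab_lc.TT.I_NL
import Pool.Agent.Work.MP_9390ab_lc.TT.I_GJ
import Pool.Agent.Work.MP_9390ab_lc.TT.I_RW
import Pool.Agent.Work.MP_9390ab_lc.TT.I_NS
import Pool.Agent.Work.MP_9390ab_lc.TT.I_GL
import Pool.Agent.Work.MP_9390ab_lc.TT.I_MR
import Pool.Agent.Work.MP_9390ab_lc.TT.I_MT
import Pool.Agent.Work.MP_9390ab_lc.TT.I_MK

/-!
# MP_9390ab_lc, block TT: assembly of the part on modules
-/

set_option autoImplicit false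

namespace Pool.Agent.PCG.TT

theorem all_GL : StGL := pr_GL pr_NS all_MI pr_GJ (pr_RW pr_MD pr_NL pr_IN) pr_OT pr_TA pr_TD

theorem all_MR : StMR := pr_MR all_GL all_HD

theorem all_MT : StMT := pr_MT all_MR (pr_SY all_EY) all_HD

theorem all_MK : StMK := pr_MK all_MT all_HD

end Pool.Agent.PCG.TT
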