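import Pool.Agent.Work.MP_9390ab_lc.TT.Stmts

/-!
# MP_9390ab_lc, block TT, item FN
-/

set_option autoImplicit false

namespace Pool.Agent.PCG.TT

open SimpleGraph Pool.Agent.PCG

theorem pr_FN (h1 : StEX) (h2 : StSX) (h3 : StKC) (h4 : StHD) : StFN := by
  refine ⟨h1, ?_⟩
  intro V hV hne G k c hc
  constructor
  · rintro ⟨M, hM⟩ S hS hSk
    have hne' : Nonempty ((S : Set V) : Type) := by
      obtain ⟨x, hx⟩ := hS
      exact ⟨⟨x, by simpa using hx⟩⟩
    obtain ⟨M', hM'⟩ := h4 V ((S : Set V) : Type) M Subtype.val Subtype.val_injective hne'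
    refine ⟨M', ?_⟩
    ext u v
    rw [hM' u v, hM]
    rfl
  · intro h
    obtain ⟨S, hS, hSk, htw⟩ := h3 V hV hne G k c hc
    exact h2 V hV G (S : Set V) (by simpa using hS) (fun v hv => htw v (by simpa using hv)) (h S hS hSk)

end Pool.Agent.PCG.TT
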