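import Pool.Agent.Work.MP_9390ab_lc.TT.Stmts

set_option autoImplicit false

namespace Pool.Agent.PCG.TT

open SimpleGraph Pool.Agent.PCG

theorem pr_KC : StKC := by
  classical
  intro V hV hN G k c hc
  have hF : Fintype V := Fintype.ofFinite V
  have hex : ∀ i : Fin k, ∃ t : Finset V, t ⊆ Finset.univ.filter (fun v => c v = i) ∧
      t.card = min 3 (Finset.univ.filter (fun v => c v = i)).card := fun i =>
    Finset.exists_subset_card_eq (min_le_right _ _)
  choose Sf hSf1 hSf2 using hex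
  have hmemC : ∀ (i : Fin k) (u : V), u ∈ Sf i → c u = i := by
    intro i u hu
    have h := hSf1 i hu
    rw [Finset.mem_filter] at h
    exact h.2
  refine ⟨Finset.univ.biUnion Sf, ?_, ?_, ?_⟩
  · obtain ⟨v0⟩ := hN
    have h1 : 0 < (Finset.univ.filter (fun v => c v = c v0)).card :=
      Finset.card_pos.2 ⟨v0, by simp⟩
    have h2 : 0 < (Sf (c v0)).card := by
      rw [hSf2]
      omega
    obtain ⟨u, hu⟩ := Finset.card_pos.1 h2
    exact ⟨u, Finset.mem_biUnion.2 ⟨c v0, Finset.mem_univ _, hu⟩⟩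
  · have h := Finset.card_biUnion_le_card_mul (Finset.univ : Finset (Fin k)) Sf 3
      (fun i _ => by rw [hSf2]; omega)
    rw [Finset.card_univ, Fintype.card_fin] at h
    omega
  · intro v hv
    have hin : ∀ u ∈ Sf (c v), u ∈ Finset.univ.biUnion Sf := fun u hu =>
      Finset.mem_biUnion.2 ⟨c v, Finset.mem_univ _, hu⟩
    have hvS : v ∉ Sf (c v) := fun h => hv (hin v h)
    have hvC : v ∈ Finset.univ.filter (fun u => c u = c v) := by simp
    have hlt : (Sf (c v)).card < (Finset.univ.filter (fun u => c u = c v)).card :=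
      Finset.card_lt_card ⟨hSf1 (c v), fun h => hvS (h hvC)⟩
    have h3 : (Sf (c v)).card = 3 := by
      have h := hSf2 (c v)
      omega
    obtain ⟨u1, u2, u3, h12, h13, h23, hS⟩ := Finset.card_eq_three.1 h3
    have m1 : u1 ∈ Sf (c v) := by rw [hS]; simp
    have m2 : u2 ∈ Sf (c v) := by rw [hS]; simp
    have m3 : u3 ∈ Sf (c v) := by rw [hS]; simp
    have key : ∀ u ∈ Sf (c v), u ∈ ((Finset.univ.biUnion Sf : Finset V) : Set V) ∧ u ≠ v ∧
        Tw G u v := by
      intro u hu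
      refine ⟨Finset.mem_coe.2 (hin u hu), fun h => hvS (h ▸ hu), hc u v (hmemC _ u hu)⟩
    obtain ⟨a1, b1, c1⟩ := key u1 m1
    obtain ⟨a2, b2, c2⟩ := key u2 m2
    obtain ⟨a3, b3, c3⟩ := key u3 m3
    by_cases d1 : G.Adj u1 v
    · by_cases d2 : G.Adj u2 v
      · by_cases d3 : G.Adj u3 v
        · exact Or.inr ⟨u1, a1, u2, a2, u3, a3, h12, h13, h23, b1, b2, b3, c1, c2, c3, d1, d2, d3⟩
        · exact Or.inl ⟨u3, a3, b3, c3, d3⟩
      · exact Or.inl ⟨u2, a2, b2, c2, d2⟩
    · exact Or.inl ⟨u1, a1, b1, c1, d1⟩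

end Pool.Agent.PCG.TT
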