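import Pool.Agent.Work.MP_9390ab_lc.TT.Stmts2

/-!
# Item OD: equality in the triangle inequality puts a vertex on the path
-/

set_option autoImplicit false

namespace Pool.Agent.PCG.TT

open SimpleGraph Pool.Agent.PCG

theorem pr_OD (h1 : StTA) (h2 : StMD) (h3 : StTD) : StOD := by
  intro W T hT w x y c hpos he
  obtain ⟨m, hxy, hxc, hyc, -⟩ := h2 W T hT x y c
  have e1 := h1 W T hT w x y m hxy
  have e2 := h1 W T hT w x c m hxc
  have e3 := h1 W T hT w y c m hyc
  rw [treeDist_comm hT w c y] at he
  rw [treeDist_comm hT w m y] at e1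
  have hm : m = c := by
    by_contra hne
    have h4 := (h3 W T hT w hpos m c).2 hne
    linarith
  rw [← hm]
  exact hxy

end Pool.Agent.PCG.TT
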