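import Pool.Agent.Work.MP_9390ab_lc.TT.Stmts

/-!
# MP_9390ab_lc, block TT, item TA: the distance is additive through a vertex of the path
-/

set_option autoImplicit false

namespace Pool.Agent.PCG.TT

open SimpleGraph Pool.Agent.PCG
open scoped Classical

theorem pr_TA : StTA := by
  intro W T hT w x y c hc
  obtain ⟨p, hp, -⟩ := hT.existsUnique_path x y
  have hcp : c ∈ p.support := hc p hp
  have h1 : (p.takeUntil c hcp).IsPath := hp.takeUntil hcp
  have h2 : (p.dropUntil c hcp).IsPath := hp.dropUntil hcp
  rw [treeDist_eq hT w p hp, treeDist_eq hT w _ h1, treeDist_eq hT w _ h2]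
  conv_lhs => rw [← p.take_spec hcp]
  rw [Walk.edges_append, List.map_append, List.sum_append]

end Pool.Agent.PCG.TT
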