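import Pool.Agent.Work.MP_9390ab_lc.Defs

/-!
# MP_9390ab_lc, block TT: twins in pairwise compatibility graphs

THEOREM TT. (1) Let v be a vertex of a finite graph G with a false twin, or with three true twins. Then G is a PCG iff
G - v is. (2) If the vertex set is partitioned into k sets of twins (neighbourhood diversity ≤ k) then G is a PCG iff
all its induced subgraphs with at most 3k vertices are.

IDEA. Three true twins v1, v2, v3 at the leaves of a weighted tree, c their median, A_i = d(c, v_i), A1 ≤ A2 ≤ A3. A new
leaf v attached at c by an edge of length A2 is a fourth twin: d(v, v_2) = 2 A2 lies between A1 + A2 ≥ dmin and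
A2 + A3 ≤ dmax; a leaf w outside the branch of v2 has d(w, v) = d(w, v2); a leaf w in the branch of v2 has
d(w, v1) ≤ d(w, v) ≤ d(w, v3), and d(w, v3) - d(w, v1) = A3 - A1 ≤ dmax - dmin.

Definitions (WTree, WTree.dist, WTree.graph, treeDist, treeDist_eq, treeDist_comm) in Work/MP_9390ab_lc/Defs.lean;
WTree.relabel in Poly.lean may be copied. The docstring of an item is its complete proof.
-/

set_option autoImplicit false

namespace Pool.Agent.PCG.TT

open SimpleGraph Pool.Agent.PCG

/-- G is a pairwise compatibility graph. -/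
def IsPCG {V : Type} (G : SimpleGraph V) : Prop := ∃ M : WTree V, M.graph = G

/-- u and v have the same neighbours outside {u, v}. -/
def Tw {V : Type} (G : SimpleGraph V) (u v : V) : Prop :=
  ∀ w, w ≠ u → w ≠ v → (G.Adj u w ↔ G.Adj v w)

/-- v has a false twin in S. -/
def FalseTwin {V : Type} (G : SimpleGraph V) (S : Set V) (v : V) : Prop :=
  ∃ u ∈ S, u ≠ v ∧ Tw G u v ∧ ¬ G.Adj u v

/-- v has three different true twins in S. -/
def TrueTwins {V : Type} (G : SimpleGraph V) (S : Set V) (v : V) : Prop :=
  ∃ v1 ∈ S, ∃ v2 ∈ S, ∃ v3 ∈ S, v1 ≠ v2 ∧ v1 ≠ v3 ∧ v2 ≠ v3 ∧ v1 ≠ v ∧ v2 ≠ v ∧ v3 ≠ v ∧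
    Tw G v1 v ∧ Tw G v2 v ∧ Tw G v3 v ∧ G.Adj v1 v ∧ G.Adj v2 v ∧ G.Adj v3 v

/-- c lies on the path from x to y. -/
def On {W : Type} (T : SimpleGraph W) (x y c : W) : Prop := ∀ p : T.Walk x y, p.IsPath → c ∈ p.support

/-- at most one neighbour -/
def Leaf {W : Type} (T : SimpleGraph W) (x : W) : Prop := (T.neighborSet x).ncard ≤ 1

/-- Item TA (EASY). takeUntil and dropUntil of the path at c are paths; treeDist_eq, edges of the append. -/
def StTA : Prop := ∀ (W : Type) (T : SimpleGraph W) (hT : T.IsTree) (w : Sym2 W → ℝ) (x y c : W),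
  On T x y c → treeDist hT w x y = treeDist hT w x c + treeDist hT w c y

/-- Item MD (EASY-MEDIUM, the median). Let p be the path v1 → v2 and q the path v3 → v1; c = the first vertex of q (from
v3) on p. q up to c meets p only in c, so followed by p from c to v1 (to v2) it is a path: c is on all three paths (paths
are unique, IsTree). Let x be any vertex. If c is not on the path x → v_i and not on the path x → v_j, i ≠ j, then there
is a walk v_i → v_j without c (append the two), so (toPath / bypass) a path without c, against On T v_i v_j c. So c is on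
at least two of the three paths. -/
def StMD : Prop := ∀ (W : Type) (T : SimpleGraph W), T.IsTree → ∀ v1 v2 v3 : W, ∃ c : W,
  On T v1 v2 c ∧ On T v1 v3 c ∧ On T v2 v3 c ∧
  ∀ x : W, (On T x v1 c ∧ On T x v2 c) ∨ (On T x v1 c ∧ On T x v3 c) ∨ (On T x v2 c ∧ On T x v3 c)

/-- Item NL (EASY-MEDIUM). c is different from at least two of the v_i, say from x and y, so it is an inner vertex of
the path x → y: its predecessor (last vertex before c of takeUntil) and its successor (second vertex of dropUntil) are two
different neighbours of c (a path has no repeated vertex), and W is finite. -/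
def StNL : Prop := ∀ (W : Type) (_ : Finite W) (T : SimpleGraph W), T.IsTree → ∀ v1 v2 v3 c : W,
  v1 ≠ v2 → v1 ≠ v3 → v2 ≠ v3 → On T v1 v2 c → On T v1 v3 c → On T v2 v3 c → ¬ Leaf T c

/-- Item AL (MEDIUM, add a leaf). T' on Option W: the edges of T and the edge none - some c; w' the old weights (through
Sym2.map some; for instance w' e = if none ∈ e then a else w (e.map (fun o => o.getD c))). T' is connected; it has
Nat.card W edges (isTree_iff_connected_and_card), or: it is acyclic because none has degree 1. A path of T maps to a path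
of T' (Walk.map), the path from none to some x is the edge followed by the image of the path c → x. neighborSet none =
{some c}; neighborSet (some x) = some '' (neighborSet x) for x ≠ c, and for x = c there is none in addition. -/
def StAL : Prop := ∀ (W : Type) (_ : Finite W) (T : SimpleGraph W) (hT : T.IsTree) (w : Sym2 W → ℝ)
  (c : W) (a : ℝ), (∀ e ∈ T.edgeSet, 0 < w e) → 0 < a →
  ∃ (T' : SimpleGraph (Option W)) (hT' : T'.IsTree) (w' : Sym2 (Option W) → ℝ),
    (∀ e ∈ T'.edgeSet, 0 < w' e) ∧
    (∀ x y, treeDist hT' w' (some x) (some y) = treeDist hT w x y) ∧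
    (∀ x, treeDist hT' w' none (some x) = a + treeDist hT w c x) ∧
    Leaf T' none ∧ (∀ x, x ≠ c → (Leaf T' (some x) ↔ Leaf T x)) ∧
    (∀ y, T.Adj c y → ¬ Leaf T' (some c)) ∧ T'.Adj none (some c)

/-- Item TD (EASY). The distance of a vertex to itself is 0 (the path is nil); different vertices have positive
distance (a sum of positive weights of a nonempty list of edges). -/
def StTD : Prop := ∀ (W : Type) (T : SimpleGraph W) (hT : T.IsTree) (w : Sym2 W → ℝ),
  (∀ e ∈ T.edgeSet, 0 < w e) → ∀ x y : W, treeDist hT w x x = 0 ∧ (x ≠ y → 0 < treeDist hT w x y)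

/-- Item TR (EASY-MEDIUM, use StTA, StMD, StNL, StAL, StTD). Let M be a representation, v1, v2, v3 three mutual true
twins of M.graph. c from MD (for the leaves), A_i = treeDist c (leaf v_i) > 0 (c is not a leaf, TD); reorder so that
A1 ≤ A2 ≤ A3. AL with a = A2: M' on Option V with leaf none = none, leaf (some u) = some (leaf u), the same dmin, dmax.
d(none, some v1) = A2 + A1 = d(v2, v1) (TA), d(none, some v3) = d(v2, v3), d(none, some v2) = 2 A2 between A1 + A2 ≥ dmin and
A2 + A3 ≤ dmax. For another u: if On (leaf u) (leaf v2) c: d(none, some u) = d(v2, u). Otherwise c is on the paths from u to v1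
and v3: d(u, v1) = A1 + t, d(u, v3) = A3 + t, d(none, u) = A2 + t, t = treeDist c (leaf u). If u is adjacent to the twins,
dmin ≤ A1 + t and A3 + t ≤ dmax. If not: d(u, v1) > dmax or d(u, v3) < dmin are fine; the remaining case d(u, v1) < dmin and
d(u, v3) > dmax contradicts A3 - A1 = (A2 + A3) - (A1 + A2) ≤ dmax - dmin. -/
def StTR : Prop := ∀ (V : Type) (M : WTree V) (v1 v2 v3 : V), v1 ≠ v2 → v1 ≠ v3 → v2 ≠ v3 →
  M.graph.Adj v1 v2 → M.graph.Adj v1 v3 → M.graph.Adj v2 v3 → Tw M.graph v1 v2 → Tw M.graph v1 v3 →
  Tw M.graph v2 v3 → ∃ M' : WTree (Option V), (∀ u v, M'.graph.Adj (some u) (some v) ↔ M.graph.Adj u v) ∧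
    ∀ u, M'.graph.Adj none (some u) ↔ (u = v1 ∨ M.graph.Adj v1 u)

/-- Item FT (MEDIUM, use StAL twice, StTD). Let M be a representation, v : V, x = leaf v. AL at c = x with a = ε gives T1 on
Option W, AL at some x with a = ε gives T2 on Option (Option W): the new vertices none and some none hang at x with length ε, x
is no leaf of T2 (in T1 it has the neighbour none, so the last clause applies), the other leaves stay. M': leaf none = none,
leaf (some v) = some none, leaf (some u) = some (some (leaf u)) for u ≠ v. V is finite (leaf is injective). Choose ε > 0 with: for all u ≠ u'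
3 ε < d(u, u'), d(u, u') < dmin implies d(u, u') + ε < dmin, d(u, u') > dmax implies d(u, u') > dmax + ε. dmin' = max dmin (3 ε), dmax' =
max (dmax + ε) (3 ε). d(none, some v) = 2 ε < dmin'. For u ≠ v: d'(none, u) = d'(some v, u) = ε + d(v, u), with the same status as
d(v, u); the other distances and their status are unchanged. -/
def StFT : Prop := ∀ (V : Type) (M : WTree V) (v : V), ∃ M' : WTree (Option V),
  (∀ u u', M'.graph.Adj (some u) (some u') ↔ M.graph.Adj u u') ∧
    ∀ u, M'.graph.Adj none (some u) ↔ M.graph.Adj v u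

/-- Item LR (MEDIUM, remove a leaf). T' = T.induce {x}ᶜ is connected (Connected.induce_compl_singleton_of_degree_eq_one, in
Acyclic.lean) and acyclic (a subgraph); a path of T' maps to a path of T (Walk.map of the embedding), so the distances
are the same; the neighbours of y in T' are neighbours in T (Leaf is inherited: ncard of a preimage under the injective
Subtype.val). -/
def StLR : Prop := ∀ (W : Type) (_ : Finite W) (T : SimpleGraph W) (hT : T.IsTree) (w : Sym2 W → ℝ) (x : W),
  (∀ e ∈ T.edgeSet, 0 < w e) → (T.neighborSet x).ncard = 1 →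
  ∃ (T' : SimpleGraph {y : W // y ≠ x}) (hT' : T'.IsTree) (w' : Sym2 {y : W // y ≠ x} → ℝ),
    (∀ e ∈ T'.edgeSet, 0 < w' e) ∧ (∀ y z, treeDist hT' w' y z = treeDist hT w y.1 z.1) ∧
    ∀ y : {y : W // y ≠ x}, Leaf T y.1 → Leaf T' y

/-- Item HD (EASY-MEDIUM, use StLR; induced subgraphs). For every finite tree T on W with positive weights and every
injective f : U → W, U nonempty, all f u leaves, there is M : WTree U with M.dist u v = treeDist (f u) (f v) and any given
dmin ≤ dmax: induction on Nat.card W. If every leaf is in the range of f take T. Otherwise let x be a leaf outside the range;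
W has two vertices, so x has exactly one neighbour (connected); apply LR and the induction hypothesis to f with values in
{y // y ≠ x}. -/
def StHD : Prop := ∀ (V U : Type) (M : WTree V) (g : U → V), Function.Injective g → Nonempty U →
  ∃ M' : WTree U, ∀ u v : U, M'.graph.Adj u v ↔ M.graph.Adj (g u) (g v)

/-- Item EX (EASY-MEDIUM, use StTR, StFT, StHD). (→) StHD with Subtype.val. (←) Let M represent G.induce {v}ᶜ. False twin u: FT for u, then
relabel Option {v}ᶜ ≃ V (none ↦ v). Three true twins v1, v2, v3 of v: they are mutual true twins in G.induce {v}ᶜ (Tw G v1 v, Tw G v2 v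
give Tw for v1, v2: for w ≠ v1, v2, v both are equivalent to Adj v w; Adj v1 v2 follows from Adj v v2 by Tw G v1 v (w = v2)); TR and
relabel. -/
def StEX : Prop := ∀ (V : Type) (_ : Finite V) (G : SimpleGraph V) (v : V), (∃ u, u ≠ v) →
  (FalseTwin G Set.univ v ∨ TrueTwins G Set.univ v) → (IsPCG G ↔ IsPCG (G.induce {u | u ≠ v}))

/-- Item SX (EASY-MEDIUM, use StEX). Induction on the number of elements of V outside S (for all V, or: for sets S ⊆ A ⊆ V show that
G.induce A is a PCG, adding one element v of V at a time; the twins of v in S are twins in G.induce (insert v A)). -/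
def StSX : Prop := ∀ (V : Type) (_ : Finite V) (G : SimpleGraph V) (S : Set V), S.Nonempty →
  (∀ v, v ∉ S → FalseTwin G S v ∨ TrueTwins G S v) → IsPCG (G.induce S) → IsPCG G

/-- Item KC (EASY-MEDIUM). For i take S_i ⊆ class i with min 3 (size of the class) elements (exists_subset_card_eq); S = their
union. v outside S of class i: S_i has three elements u1, u2, u3, twins of v. If v is not adjacent to u1 it has a false twin. If
it is, then Tw G u2 v with w = u1: u2 is adjacent to u1; then Tw G u1 v with w = u2: v is adjacent to u2; the same for u3. -/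
def StKC : Prop := ∀ (V : Type) (_ : Finite V) (_ : Nonempty V) (G : SimpleGraph V) (k : ℕ) (c : V → Fin k),
  (∀ u v, c u = c v → Tw G u v) → ∃ S : Finset V, S.Nonempty ∧ S.card ≤ 3 * k ∧
    ∀ v, v ∉ S → FalseTwin G (S : Set V) v ∨ TrueTwins G (S : Set V) v

/-- Item FN (EASY, use StEX, StSX, StKC, StHD). -/
def StFN : Prop :=
  (∀ (V : Type) (_ : Finite V) (G : SimpleGraph V) (v : V), (∃ u, u ≠ v) →
    (FalseTwin G Set.univ v ∨ TrueTwins G Set.univ v) → (IsPCG G ↔ IsPCG (G.induce {u | u ≠ v}))) ∧
  ∀ (V : Type) (_ : Finite V) (_ : Nonempty V) (G : SimpleGraph V) (k : ℕ) (c : V → Fin k),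
    (∀ u v, c u = c v → Tw G u v) →
    (IsPCG G ↔ ∀ S : Finset V, S.Nonempty → S.card ≤ 3 * k → IsPCG (G.induce (S : Set V)))

end Pool.Agent.PCG.TT
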