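import Pool.Agent.Work.MP_9390ab_lc.TT.Stmts

/-!
# MP_9390ab_lc, block TT, second part: TWO true twins suffice

THEOREM TT2. (1) Let v be a vertex of a finite graph G with a false twin, or with TWO true twins. Then G is a PCG iff
G - v is. (2) If the vertex set is partitioned into k sets of twins then G is a PCG iff all its induced subgraphs with at
most 2k vertices are.

IDEA. v1, v2 true twins at the leaves of a weighted tree, L their distance, c the MIDPOINT of the path v1 → v2 (a vertex, or a
point inside an edge, which is then subdivided). Hang a new leaf v at c by an edge of length L/2. For every other leaf u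
the point c lies on the path u → v1 or on the path u → v2, so d(u, v) = d(u, c) + L/2 is d(u, v1) or d(u, v2); and
d(v1, v) = d(v2, v) = L.
-/

set_option autoImplicit false

namespace Pool.Agent.PCG.TT

open SimpleGraph Pool.Agent.PCG

/-- v has two different true twins in S. -/
def TwoTwins {V : Type} (G : SimpleGraph V) (S : Set V) (v : V) : Prop :=
  ∃ v1 ∈ S, ∃ v2 ∈ S, v1 ≠ v2 ∧ v1 ≠ v ∧ v2 ≠ v ∧ Tw G v1 v ∧ Tw G v2 v ∧ G.Adj v1 v ∧ G.Adj v2 v

/-- Item SD (MEDIUM-HARD, subdivide the edge x y at distance t from x). T' on Option W: some u - some v for T.Adj u v,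
s(u,v) ≠ s(x,y); none - some x; none - some y. Weights: t, w s(x,y) - t, the old ones. A walk of T maps to a walk of T'
(x → y becomes x → none → y) with the same total weight: T' is connected, and has as many edges as W has elements
(isTree_iff_connected_and_card), or: acyclic, since a cycle of T' gives a cycle of T. The image of a path is a path (the edge
x y is used at most once). For the distance from some z to none: the path z → y passes x, or the path z → x passes y (if
neither, then path z → x followed by y is a path z → y through x, a contradiction); in the first case the path z → x of T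
does not use the edge x y, and its image followed by none is a path of length d(z,x) + t, while
d(z,y) + (w - t) = d(z,x) + w + (w - t) is larger; the second case is symmetric. x keeps its degree (y is replaced by
none), so does y, and none has two neighbours. -/
def StSD : Prop := ∀ (W : Type) (_ : Finite W) (T : SimpleGraph W) (hT : T.IsTree) (w : Sym2 W → ℝ)
  (x y : W) (t : ℝ), (∀ e ∈ T.edgeSet, 0 < w e) → T.Adj x y → 0 < t → t < w s(x, y) →
  ∃ (T' : SimpleGraph (Option W)) (hT' : T'.IsTree) (w' : Sym2 (Option W) → ℝ),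
    (∀ e ∈ T'.edgeSet, 0 < w' e) ∧
    (∀ u v, treeDist hT' w' (some u) (some v) = treeDist hT w u v) ∧
    (∀ z, treeDist hT' w' (some z) none =
      min (treeDist hT w z x + t) (treeDist hT w z y + (w s(x, y) - t))) ∧
    ¬ Leaf T' none ∧ ∀ z, Leaf T' (some z) ↔ Leaf T z

/-- Item OT (EASY). Append the paths v1 → u and u → v2 and make a path of it (bypass, toPath): its support is contained in
the union; it contains c by the hypothesis; paths are unique (IsTree). -/
def StOT : Prop := ∀ (W : Type) (T : SimpleGraph W), T.IsTree → ∀ v1 v2 c u : W,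
  On T v1 v2 c → On T u v1 c ∨ On T u v2 c

/-- Item OD (EASY, use StTA, StMD, StTD). Converse of TA: with the median m of x, y, c: d(x,c) + d(c,y) = d(x,m) + d(m,y) +
2 d(m,c) = d(x,y) + 2 d(m,c), so d(m,c) = 0, m = c (TD), and m is on the path x → y. -/
def StOD : Prop := ∀ (W : Type) (T : SimpleGraph W) (hT : T.IsTree) (w : Sym2 W → ℝ) (x y c : W),
  (∀ e ∈ T.edgeSet, 0 < w e) →
  treeDist hT w x c + treeDist hT w c y = treeDist hT w x y → On T x y c

/-- Item IN (EASY-MEDIUM). An inner vertex of the path x → y is not a leaf: its predecessor (takeUntil) and its successor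
(dropUntil) on the path are two different neighbours (compare NL). -/
def StIN : Prop := ∀ (W : Type) (_ : Finite W) (T : SimpleGraph W), T.IsTree → ∀ x y c : W,
  On T x y c → c ≠ x → c ≠ y → ¬ Leaf T c

/-- Item MC (EASY-MEDIUM, use StTA, StTD). Let p be the path v1 → v2, v1 ≠ v2, L = d(v1,v2) > 0. Walk along p: let x be the last vertex
of p with d(v1,x) ≤ L/2 (induction along the walk, or Nat.find with getVert). If d(v1,x) = L/2 take c = x (On by definition,
uniqueness of paths). Otherwise x ≠ v2, and the next vertex y of p has d(v1,y) = d(v1,x) + w s(x,y) > L/2, d(x,v2) = L - d(v1,x),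
d(y,v2) = L - d(v1,y) (TA; x and y are on the path). -/
def StMC : Prop := ∀ (W : Type) (T : SimpleGraph W) (hT : T.IsTree) (w : Sym2 W → ℝ) (v1 v2 : W),
  (∀ e ∈ T.edgeSet, 0 < w e) → v1 ≠ v2 →
  (∃ c, On T v1 v2 c ∧ treeDist hT w v1 c = treeDist hT w v1 v2 / 2) ∨
  ∃ x y, T.Adj x y ∧ treeDist hT w v1 x < treeDist hT w v1 v2 / 2 ∧
    treeDist hT w v1 v2 / 2 < treeDist hT w v1 y ∧
    treeDist hT w v1 y = treeDist hT w v1 x + w s(x, y) ∧
    treeDist hT w x v2 = treeDist hT w v1 v2 - treeDist hT w v1 x ∧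
    treeDist hT w y v2 = treeDist hT w v1 v2 - treeDist hT w v1 y

/-- Item MI (EASY-MEDIUM, use StSD, StMC, StOD, StIN, StTA, StTD; the midpoint as a vertex). First case of MC: W' = W, f = id (c ≠ v1, v2
because L > 0, so no leaf by IN). Second case: SD at x y with t = L/2 - d(v1,x), W' = Option W, f = some, c = none: d'(v1,c) = min (L/2)
(d(v1,y) + ..) = L/2, d'(v2,c) = min (d(x,v2) + t) (d(y,v2) + w - t) = L/2, On by OD. -/
def StMI : Prop := ∀ (W : Type) (_ : Finite W) (T : SimpleGraph W) (hT : T.IsTree) (w : Sym2 W → ℝ)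
  (v1 v2 : W), (∀ e ∈ T.edgeSet, 0 < w e) → v1 ≠ v2 →
  ∃ (W' : Type) (_ : Finite W') (T' : SimpleGraph W') (hT' : T'.IsTree) (w' : Sym2 W' → ℝ)
    (f : W → W') (c : W'), Function.Injective f ∧ (∀ e ∈ T'.edgeSet, 0 < w' e) ∧
    (∀ u v, treeDist hT' w' (f u) (f v) = treeDist hT w u v) ∧
    (∀ x', Leaf T' x' ↔ ∃ x, Leaf T x ∧ f x = x') ∧
    ¬ Leaf T' c ∧ On T' (f v1) (f v2) c ∧
    treeDist hT' w' (f v1) c = treeDist hT w v1 v2 / 2 ∧
    treeDist hT' w' (f v2) c = treeDist hT w v1 v2 / 2

/-- Item TS (EASY-MEDIUM, model: I_TR; use StMI, StAL, StOT, StTA, StTD). MI for leaf v1, leaf v2 (L = M.dist v1 v2 > 0), then AL at c with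
a = L/2: M' on Option V with leaf none = none, leaf (some u) = some (f (leaf u)), the same dmin, dmax. d(none, some v1) = L/2 + L/2 = L, the
same for v2. For another u: OT: On u v1 c: d(none, some u) = L/2 + d(c,u) = d(u,v1) (TA); or On u v2 c: it is d(u,v2), and u is adjacent to v2
iff it is adjacent to v1. -/
def StTS : Prop := ∀ (V : Type) (M : WTree V) (v1 v2 : V), v1 ≠ v2 → M.graph.Adj v1 v2 →
  Tw M.graph v1 v2 → ∃ M' : WTree (Option V),
    (∀ u v, M'.graph.Adj (some u) (some v) ↔ M.graph.Adj u v) ∧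
    ∀ u, M'.graph.Adj none (some u) ↔ (u = v1 ∨ M.graph.Adj v1 u)

/-- Item EY (EASY, copy of I_EX; use StTS, StFT, StHD). -/
def StEY : Prop := ∀ (V : Type) (_ : Finite V) (G : SimpleGraph V) (v : V), (∃ u, u ≠ v) →
  (FalseTwin G Set.univ v ∨ TwoTwins G Set.univ v) → (IsPCG G ↔ IsPCG (G.induce {u | u ≠ v}))

/-- Item SY (EASY, copy of I_SX; use StEY). -/
def StSY : Prop := ∀ (V : Type) (_ : Finite V) (G : SimpleGraph V) (S : Set V), S.Nonempty →
  (∀ v, v ∉ S → FalseTwin G S v ∨ TwoTwins G S v) → IsPCG (G.induce S) → IsPCG G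

/-- Item KY (EASY, copy of I_KC with 2 instead of 3). -/
def StKY : Prop := ∀ (V : Type) (_ : Finite V) (_ : Nonempty V) (G : SimpleGraph V) (k : ℕ) (c : V → Fin k),
  (∀ u v, c u = c v → Tw G u v) → ∃ S : Finset V, S.Nonempty ∧ S.card ≤ 2 * k ∧
    ∀ v, v ∉ S → FalseTwin G (S : Set V) v ∨ TwoTwins G (S : Set V) v

/-- Item FY (EASY, copy of I_FN; use StEY, StSY, StKY, StHD). -/
def StFY : Prop :=
  (∀ (V : Type) (_ : Finite V) (G : SimpleGraph V) (v : V), (∃ u, u ≠ v) →
    (FalseTwin G Set.univ v ∨ TwoTwins G Set.univ v) → (IsPCG G ↔ IsPCG (G.induce {u | u ≠ v}))) ∧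
  ∀ (V : Type) (_ : Finite V) (_ : Nonempty V) (G : SimpleGraph V) (k : ℕ) (c : V → Fin k),
    (∀ u v, c u = c v → Tw G u v) →
    (IsPCG G ↔ ∀ S : Finset V, S.Nonempty → S.card ≤ 2 * k → IsPCG (G.induce (S : Set V)))

end Pool.Agent.PCG.TT
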