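import Pool.Agent.Work.MP_9390ab_lc.TT.Stmts2

/-!
# MP_9390ab_lc, block TT, third part: MODULES

THEOREM TM. Let M be a module of a finite graph G such that G[M] is the complement of a leaf power (adjacent iff the
distance in some weighted tree is at least t), and a, b adjacent vertices of M. Then G is a PCG iff G - (M \ {a, b}) is.
KERNEL: if the vertices of G are partitioned into k modules, each edgeless, complete, or inducing the complement of a
leaf power, then G is a PCG iff all its induced subgraphs with at most 2k vertices are.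

IDEA. a, b at the leaves of a weighted tree T, L their distance, c the midpoint (StMI). Let F be the tree of G[M]. Multiply F by
a small ε, lengthen all its leaf edges by h = (dmin - ε t)/2, and join a vertex r of F to c by an edge of length L/2 - h.
Then for x, y in M the distance is dmin + ε (F.dist x y - t), and for u outside M and x in M it is d(u, a) or d(u, b),
plus something between 0 and ε D.
-/

set_option autoImplicit false

namespace Pool.Agent.PCG.TT

open SimpleGraph Pool.Agent.PCG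

/-- M is a module of G: all its vertices have the same neighbours outside M. -/
def Mod {V : Type} (G : SimpleGraph V) (M : Set V) : Prop :=
  ∀ u ∈ M, ∀ v ∈ M, ∀ w, w ∉ M → (G.Adj u w ↔ G.Adj v w)

/-- F is the complement of a leaf power: for some weighted tree with leaves named by the vertices and some number t,
two different vertices are adjacent iff their distance is at least t. -/
def CoLP {U : Type} (F : SimpleGraph U) : Prop :=
  ∃ (M : WTree U) (t : ℝ), ∀ x y, x ≠ y → (F.Adj x y ↔ t ≤ M.dist x y)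

/-- Item GJ (MEDIUM, model: I_AL, the case of one new vertex). Two trees joined by an edge inl c - inr r of length l. T' on
W1 ⊕ W2; connected; number of edges E1 + E2 + 1. Paths of T1 and T2 map to paths of T'; the path inl x → inr y is the path x → c, the
edge, the path r → y. Neighbours: those of T1 (T2), and inr r for inl c, inl c for inr r. -/
def StGJ : Prop := ∀ (W1 W2 : Type) (_ : Finite W1) (_ : Finite W2) (T1 : SimpleGraph W1) (T2 : SimpleGraph W2)
  (h1 : T1.IsTree) (h2 : T2.IsTree) (w1 : Sym2 W1 → ℝ) (w2 : Sym2 W2 → ℝ) (c : W1) (r : W2) (l : ℝ),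
  (∀ e ∈ T1.edgeSet, 0 < w1 e) → (∀ e ∈ T2.edgeSet, 0 < w2 e) → 0 < l →
  ∃ (T' : SimpleGraph (W1 ⊕ W2)) (hT' : T'.IsTree) (w' : Sym2 (W1 ⊕ W2) → ℝ),
    (∀ e ∈ T'.edgeSet, 0 < w' e) ∧
    (∀ x y, treeDist hT' w' (Sum.inl x) (Sum.inl y) = treeDist h1 w1 x y) ∧
    (∀ x y, treeDist hT' w' (Sum.inr x) (Sum.inr y) = treeDist h2 w2 x y) ∧
    (∀ x y, treeDist hT' w' (Sum.inl x) (Sum.inr y) = treeDist h1 w1 x c + l + treeDist h2 w2 r y) ∧
    (∀ x, x ≠ c → (Leaf T' (Sum.inl x) ↔ Leaf T1 x)) ∧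
    (∀ y, y ≠ r → (Leaf T' (Sum.inr y) ↔ Leaf T2 y)) ∧
    (¬ Leaf T1 c → ¬ Leaf T' (Sum.inl c)) ∧ (¬ Leaf T2 r → ¬ Leaf T' (Sum.inr r))

/-- Item RW (EASY-MEDIUM, use StMD, StNL, StIN; reweighting). r = the median of three leaves (MD), no leaf by NL. w' e = ε w e + h (number of the ends
of e which are leaves) (through Sym2.lift or Sym2.map and indicator functions). For a path p from a to b ≠ a whose inner vertices
are no leaves (IN) the sum of these numbers is ind a + ind b (induction on the walk). -/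
def StRW : Prop := ∀ (U : Type) (F : WTree U) (x1 x2 x3 : U), x1 ≠ x2 → x1 ≠ x3 → x2 ≠ x3 →
  ∃ r : F.W, ¬ Leaf F.T r ∧ ∀ ε h : ℝ, 0 < ε → 0 < h → ∃ w' : Sym2 F.W → ℝ,
    (∀ e ∈ F.T.edgeSet, 0 < w' e) ∧
    (∀ x y : U, x ≠ y →
      treeDist F.isTree w' (F.leaf x) (F.leaf y) = ε * F.dist x y + 2 * h) ∧
    ∀ x : U, treeDist F.isTree w' r (F.leaf x) = ε * treeDist F.isTree F.wt r (F.leaf x) + h

/-- Item NS (EASY-MEDIUM, choice of the numbers; real numbers only). D = an upper bound of all ρ, g and 0. dmin > 0: d0 = dmin; otherwise d0 =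
the minimum of L and all d u v (u ≠ v; finitely many positive numbers), or half of it. The same for t and t0 (t > 0: t0 = t;
otherwise a positive lower bound of the g x y, x ≠ y). Then ε > 0 small: finitely many strict inequalities which hold for
ε = 0 (Finite.exists_min, or eventually for ε → 0+). -/
def StNS : Prop := ∀ (V U : Type) (_ : Finite V) (_ : Finite U) (d : V → V → ℝ) (g : U → U → ℝ) (ρ : U → ℝ)
  (L dmin dmax t : ℝ), (∀ u v, u ≠ v → 0 < d u v) → (∀ x y, x ≠ y → 0 < g x y) →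
  0 < L → dmin ≤ L → L ≤ dmax →
  ∃ ε d0 t0 D : ℝ, 0 < ε ∧ 0 < t0 ∧ 0 < d0 ∧ ε * t0 < d0 ∧ d0 ≤ L ∧ 0 ≤ D ∧
    (∀ x, ρ x ≤ D) ∧ (∀ x y, g x y ≤ D) ∧
    (∀ u v, u ≠ v → dmin ≤ d u v → d0 ≤ d u v) ∧
    (∀ u v, u ≠ v → d u v < dmin → d u v + ε * D < d0) ∧
    (∀ u v, u ≠ v → dmax < d u v → dmax + ε * D < d u v) ∧
    ∀ x y, x ≠ y → (t ≤ g x y ↔ t0 ≤ g x y)

/-- Item GL (MEDIUM, model: I_TS; use StNS, StMI, StGJ, StRW, StOT, StTA, StTD). L = M.dist v1 v2 > 0 (TD). r from RW, ρ x = treeDist F.isTree F.wt r (F.leaf x) ≥ 0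
(TD). NS with d = M.dist, g = F.dist gives ε, d0, t0, D; h = (d0 - ε t0)/2 > 0; l = L/2 - h = (L - d0 + ε t0)/2 > 0. MI for leaf v1, leaf v2, then GJ at
c and r with the weights of RW. M': leaf (inl u) = inl (f (leaf u)), leaf (inr x) = inr (F.leaf x), numbers d0, dmax + ε D. inl, inl: distance
unchanged; dmin ≤ d ≤ dmax iff d0 ≤ d ≤ dmax + ε D by NS. inr, inr: ε F.dist x y + 2 h = d0 + ε (F.dist x y - t0), at least d0 iff t0 ≤ F.dist x y, and
at most dmax + ε D. inl u, inr x: treeDist (f (leaf u)) c + l + (ε ρ x + h) = treeDist (f (leaf u)) c + L/2 + ε ρ x; for u = v1, v2 this is L + ε ρ x; for another u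
OT and TA (with treeDist (f (leaf v_i)) c = L/2) give M.dist u v1 + ε ρ x or M.dist u v2 + ε ρ x, with 0 ≤ ρ x ≤ D; the status is that of
M.dist u v_i by NS. -/
def StGL : Prop := ∀ (V U : Type) (M : WTree V) (v1 v2 : V), v1 ≠ v2 → M.graph.Adj v1 v2 →
  Tw M.graph v1 v2 → ∀ (F : WTree U) (t : ℝ) (x1 x2 x3 : U), x1 ≠ x2 → x1 ≠ x3 → x2 ≠ x3 →
  ∃ M' : WTree (V ⊕ U),
    (∀ u v, M'.graph.Adj (Sum.inl u) (Sum.inl v) ↔ M.graph.Adj u v) ∧
    (∀ x y, x ≠ y → (M'.graph.Adj (Sum.inr x) (Sum.inr y) ↔ t ≤ F.dist x y)) ∧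
    ∀ u x, M'.graph.Adj (Sum.inl u) (Sum.inr x) ↔ (u = v1 ∨ M.graph.Adj v1 u)

/-- Item MR (EASY-MEDIUM, use StGL, StHD; the module rule). (→) HD. (←) If M = {a, b} the set is univ (relabel, ISX.iso of I_SX). Otherwise M has a
third element. Let N represent G.induce (Mᶜ ∪ {a, b}); a, b are adjacent twins in it (Mod). GL with U = M, F, t from CoLP; then HD with
g v = inr ⟨v, _⟩ for v ∈ M and inl ⟨v, _⟩ otherwise (or build the WTree by HD directly). For u outside M and x in M: adjacent iff G.Adj a u iff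
G.Adj x u (Mod). -/
def StMR : Prop := ∀ (V : Type) (_ : Finite V) (G : SimpleGraph V) (M : Set V) (a b : V), a ∈ M → b ∈ M →
  G.Adj a b → Mod G M → CoLP (G.induce M) → (IsPCG G ↔ IsPCG (G.induce (Mᶜ ∪ {a, b})))

/-- Item MT (MEDIUM, use StMR, StSY, StHD; one more module). Let G1 = G.induce (A ∪ M), M1 = the part of M in it (a module of G1). (a) M has no
edge: every v of G1 outside A has the false twin a ∈ M ∩ A: SY for G1 and the set A (as a subset of the vertices of G1). (b) M is
complete: every v outside A has the two true twins a, b: SY again. (c) CoLP: MR for G1, M1, a, b: (A ∪ M) \ M ∪ {a, b} ⊆ A, so the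
smaller graph is an induced subgraph of G.induce A (HD). CoLP and IsPCG pass through isomorphisms (relabel). -/
def StMT : Prop := ∀ (V : Type) (_ : Finite V) (G : SimpleGraph V) (A M : Set V), Mod G M →
  ((∀ u ∈ M, ∀ v ∈ M, ¬ G.Adj u v) ∨ (∀ u ∈ M, ∀ v ∈ M, u ≠ v → G.Adj u v) ∨ CoLP (G.induce M)) →
  (∃ a ∈ M, a ∈ A) → ((∃ u ∈ M, ∃ v ∈ M, G.Adj u v) → ∃ a ∈ M, ∃ b ∈ M, a ∈ A ∧ b ∈ A ∧ G.Adj a b) →
  IsPCG (G.induce A) → IsPCG (G.induce (A ∪ M))

/-- Item MK (EASY-MEDIUM, use StMT, StHD). (→) HD. (←) For every class choose two adjacent vertices, or one vertex if the class has no edge; S =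
their union, at most 2k vertices. Induction on a finite set s of classes: IsPCG (G.induce (S ∪ {v | c v ∈ s})) (MT for each class which is not
empty). For s = univ this is G (relabel). -/
def StMK : Prop := ∀ (V : Type) (_ : Finite V) (_ : Nonempty V) (G : SimpleGraph V) (k : ℕ) (c : V → Fin k),
  (∀ v, Mod G {u | c u = c v}) →
  (∀ v, (∀ x y, c x = c v → c y = c v → ¬ G.Adj x y) ∨ (∀ x y, c x = c v → c y = c v → x ≠ y → G.Adj x y) ∨
    CoLP (G.induce {u | c u = c v})) →
  (IsPCG G ↔ ∀ S : Finset V, S.Nonempty → S.card ≤ 2 * k → IsPCG (G.induce (S : Set V)))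

end Pool.Agent.PCG.TT
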